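import Pool.Agent.MP_6c43ae_an.tr.Spec

/-! Project TORIC: convexity estimates, and analyticity from the Legendre transform. -/

set_option autoImplicit false

open Set Filter Topology Metric
open scoped ContDiff

namespace Pool.Agent.MP_6c43ae_an.Tr

namespace CvX

variable {n : ℕ}

theorem mono_aux {f f' : ℝ → ℝ} (hf : ∀ t, HasDerivAt f (f' t) t) {T : ℝ} (hT : 0 ≤ T)
    (h : ∀ t ∈ Icc 0 T, 0 ≤ f' t) : f 0 ≤ f T := by
  have h1 : MonotoneOn f (Icc 0 T) :=
    monotoneOn_of_deriv_nonneg (convex_Icc 0 T)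
      (fun t _ => (hf t).continuousAt.continuousWithinAt)
      (fun t _ => (hf t).differentiableAt.differentiableWithinAt)
      (fun t ht => by rw [(hf t).deriv]; exact h t (interior_subset ht))
  exact h1 ⟨le_rfl, hT⟩ ⟨hT, le_rfl⟩ hT

theorem second_order {f f' f'' : ℝ → ℝ} (hf : ∀ t, HasDerivAt f (f' t) t)
    (hf' : ∀ t, HasDerivAt f' (f'' t) t) {c : ℝ} (h : ∀ t ∈ Icc (0 : ℝ) 1, 2 * c ≤ f'' t) :
    f 0 + f' 0 + c ≤ f 1 := by
  have h1 : ∀ T ∈ Icc (0 : ℝ) 1, f' 0 + 2 * c * T ≤ f' T := by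
    intro T hT
    have := mono_aux (f := fun t => f' t - 2 * c * t) (f' := fun t => f'' t - 2 * c)
      (fun t => ((hf' t).sub ((hasDerivAt_id t).const_mul (2 * c))).congr_deriv (by simp)) hT.1
      (fun t ht => sub_nonneg.mpr (h t ⟨ht.1, ht.2.trans hT.2⟩))
    simp only [mul_zero, sub_zero] at this
    linarith
  have h2 := mono_aux (f := fun t => f t - f' 0 * t - c * t ^ 2)
    (f' := fun t => f' t - f' 0 - 2 * c * t)
    (fun t => (((hf t).sub ((hasDerivAt_id t).const_mul (f' 0))).sub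
      ((hasDerivAt_pow 2 t).const_mul c)).congr_deriv (by simp; ring)) zero_le_one
    (fun t ht => by linarith [h1 t ht])
  simp only [mul_zero, sub_zero, mul_one, one_pow, ne_eq, OfNat.ofNat_ne_zero, not_false_eq_true,
    zero_pow] at h2
  linarith

theorem lin_eq (L : Rn n →L[ℝ] ℝ) (v : Rn n) : L v = dotR (fun j => L (Pi.single j 1)) v := by
  have h : v = ∑ j, v j • (Pi.single j 1 : Rn n) := by
    ext c
    simp [Finset.sum_apply, Pi.single_apply]
  conv_lhs => rw [h]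
  rw [map_sum]
  unfold dotR
  refine Finset.sum_congr rfl fun j _ => ?_
  rw [map_smul, smul_eq_mul, mul_comm]

theorem dot_sub_left (a b v : Rn n) : dotR (a - b) v = dotR a v - dotR b v := by
  simp [dotR, sub_mul, Finset.sum_sub_distrib]

theorem dot_sub_right (a v w : Rn n) : dotR a (v - w) = dotR a v - dotR a w := by
  simp [dotR, mul_sub, Finset.sum_sub_distrib]

theorem dot_smul_right (a v : Rn n) (c : ℝ) : dotR a (c • v) = c * dotR a v := by
  simp [dotR, Finset.mul_sum, mul_left_comm]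

theorem dot_le (a v : Rn n) : dotR a v ≤ n * (‖a‖ * ‖v‖) := by
  unfold dotR
  calc ∑ j, a j * v j ≤ ∑ _j : Fin n, ‖a‖ * ‖v‖ := by
        refine Finset.sum_le_sum fun j _ => (le_abs_self _).trans ?_
        rw [abs_mul]
        exact mul_le_mul (norm_le_pi_norm a j) (norm_le_pi_norm v j) (abs_nonneg _)
          (norm_nonneg _)
    _ = _ := by simp

theorem taylor {g : Rn n → ℝ} (hg : ContDiff ℝ 2 g) (s₁ v : Rn n) {c : ℝ}
    (h : ∀ t ∈ Icc (0 : ℝ) 1, 2 * c ≤ fderiv ℝ (fderiv ℝ g) (s₁ + t • v) v v) :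
    g s₁ + dotR (grad g s₁) v + c ≤ g (s₁ + v) := by
  have hd1 : Differentiable ℝ g := hg.differentiable (by norm_num)
  have hd2 : Differentiable ℝ (fderiv ℝ g) :=
    (hg.fderiv_right (m := 1) (by norm_num)).differentiable (by norm_num)
  have hl : ∀ t : ℝ, HasDerivAt (fun t : ℝ => s₁ + t • v) v t := fun t => by
    simpa using ((hasDerivAt_id t).smul_const v).const_add s₁
  have h1 : ∀ t : ℝ, HasDerivAt (fun t : ℝ => g (s₁ + t • v)) (fderiv ℝ g (s₁ + t • v) v) t :=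
    fun t => (hd1 _).hasFDerivAt.comp_hasDerivAt t (hl t)
  have h2 : ∀ t : ℝ, HasDerivAt (fun t : ℝ => fderiv ℝ g (s₁ + t • v) v)
      (fderiv ℝ (fderiv ℝ g) (s₁ + t • v) v v) t := fun t => by
    have h3 : HasDerivAt (fun t : ℝ => fderiv ℝ g (s₁ + t • v))
        (fderiv ℝ (fderiv ℝ g) (s₁ + t • v) v) t := (hd2 _).hasFDerivAt.comp_hasDerivAt t (hl t)
    simpa using h3.clm_apply (hasDerivAt_const t v)
  have h3 := second_order h1 h2 h
  simp only [zero_smul, add_zero, one_smul] at h3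
  rwa [lin_eq] at h3

theorem tangent {g : Rn n → ℝ} (hg : Cv g) (s₁ s : Rn n) :
    g s₁ + dotR (grad g s₁) (s - s₁) ≤ g s := by
  have := taylor hg.sm s₁ (s - s₁) (c := 0) (fun t _ => by
    rw [mul_zero]
    by_cases hv : s - s₁ = 0
    · rw [hv, map_zero]
    · exact (hg.pd _ _ hv).le)
  rwa [add_zero, add_sub_cancel] at this

theorem quad {g : Rn n → ℝ} (hg : Cv g) (s₀ : Rn n) : ∃ b : ℝ, 0 < b ∧
    ∀ v : Rn n, ‖v‖ ≤ 1 → g s₀ + dotR (grad g s₀) v + b * ‖v‖ ^ 2 ≤ g (s₀ + v) := by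
  have hc : Continuous (fderiv ℝ (fderiv ℝ g)) :=
    (hg.sm.fderiv_right (m := 1) (by norm_num)).continuous_fderiv (by norm_num)
  have hc2 : Continuous fun p : Rn n × Rn n => fderiv ℝ (fderiv ℝ g) p.1 p.2 p.2 :=
    ((hc.comp continuous_fst).clm_apply continuous_snd).clm_apply continuous_snd
  obtain ⟨a, ha0, ha⟩ := ((isCompact_closedBall s₀ 1).prod
    (isCompact_sphere (0 : Rn n) 1)).exists_forall_le' hc2.continuousOn (a := 0) (fun p hp =>
      hg.pd _ _ (ne_zero_of_mem_unit_sphere ⟨p.2, hp.2⟩))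
  refine ⟨a / 2, half_pos ha0, fun v hv => taylor hg.sm s₀ v fun t ht => ?_⟩
  by_cases h0 : v = 0
  · simp [h0]
  have hn : 0 < ‖v‖ := norm_pos_iff.mpr h0
  have h1 := ha (s₀ + t • v, ‖v‖⁻¹ • v) ⟨by
    rw [mem_closedBall_iff_norm, add_sub_cancel_left, norm_smul, Real.norm_of_nonneg ht.1]
    exact mul_le_one₀ ht.2 hn.le hv, by
    rw [mem_sphere_zero_iff_norm, norm_smul, norm_inv, norm_norm, inv_mul_cancel₀ hn.ne']⟩
  simp only [map_smul, ContinuousLinearMap.smul_apply, smul_eq_mul] at h1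
  rw [le_inv_mul_iff₀ hn, le_inv_mul_iff₀ hn] at h1
  linarith

theorem qd {g : Rn n → ℝ} (hg : Cv g) (s₀ : Rn n) : ∃ r₀ B : ℝ, 0 < r₀ ∧ 0 < B ∧ Qd g s₀ r₀ B := by
  obtain ⟨b, hb, hq⟩ := quad hg s₀
  have hn : (0 : ℝ) ≤ n := Nat.cast_nonneg n
  refine ⟨b / (n + 1), (n + 1) ^ 2 / (4 * b), by positivity, by positivity, fun η hη s => ?_⟩
  set a := η - grad g s₀ with ha
  set v := s - s₀ with hv
  have h1 : dotR η v = dotR a v + dotR (grad g s₀) v := by rw [ha, dot_sub_left]; ring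
  have h2 := dot_le a v
  have ha0 := norm_nonneg a
  have hv0 := norm_nonneg v
  have h3 : dotR a v ≤ (n + 1) * ‖a‖ * ‖v‖ := by nlinarith [mul_nonneg ha0 hv0]
  have hs : s = s₀ + v := by rw [hv, add_sub_cancel]
  rcases le_total ‖v‖ 1 with h | h
  · have h4 := hq v h
    rw [← hs] at h4
    have h5 : (n + 1) * ‖a‖ * ‖v‖ - b * ‖v‖ ^ 2 ≤ (n + 1) ^ 2 / (4 * b) * ‖a‖ ^ 2 := by
      rw [div_mul_eq_mul_div, le_div_iff₀ (by positivity)]
      nlinarith [sq_nonneg ((n + 1) * ‖a‖ - 2 * b * ‖v‖)]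
    linarith
  · have hp : 0 < ‖v‖ := one_pos.trans_le h
    set u := ‖v‖⁻¹ • v with hu
    have hu1 : ‖u‖ = 1 := by rw [hu, norm_smul, norm_inv, norm_norm, inv_mul_cancel₀ hp.ne']
    have hvu : v = ‖v‖ • u := by rw [hu, smul_smul, mul_inv_cancel₀ hp.ne', one_smul]
    have h4 := hq u hu1.le
    rw [hu1, one_pow, mul_one] at h4
    have h5 := tangent hg (s₀ + u) s₀
    have h6 := tangent hg (s₀ + u) s
    have e1 : s₀ - (s₀ + u) = (-1 : ℝ) • u := by module
    have e2 : s - (s₀ + u) = (‖v‖ - 1) • u := by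
      rw [sub_smul, ← hvu, hs]; module
    rw [e1, dot_smul_right] at h5
    rw [e2, dot_smul_right] at h6
    have h7 : dotR (grad g s₀) v = ‖v‖ * dotR (grad g s₀) u := by
      rw [← dot_smul_right, ← hvu]
    have h8 : dotR (grad g s₀) u + b ≤ dotR (grad g (s₀ + u)) u := by linarith
    have h9 := mul_le_mul_of_nonneg_left h8 (sub_nonneg.mpr h)
    have h10 : (n + 1) * ‖a‖ ≤ b := by
      rwa [le_div_iff₀ (by positivity), mul_comm] at hη
    have h11 := mul_le_mul_of_nonneg_right h10 hv0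
    have h12 : 0 ≤ (n + 1) ^ 2 / (4 * b) * ‖a‖ ^ 2 := by positivity
    nlinarith

theorem analytic_grad {f : Rn n → ℝ} {η : Rn n} (hf : AnalyticAt ℝ f η) :
    AnalyticAt ℝ (grad f) η := by
  refine analyticAt_pi_iff.mpr fun j => ?_
  exact ((ContinuousLinearMap.apply ℝ ℝ (Pi.single j 1 : Rn n)).analyticAt _).comp hf.fderiv

theorem analytic_dot {a v : Rn n → Rn n} {s : Rn n} (ha : AnalyticAt ℝ a s)
    (hv : AnalyticAt ℝ v s) : AnalyticAt ℝ (fun x => dotR (a x) (v x)) s :=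
  Finset.analyticAt_fun_sum _ fun j _ =>
    (analyticAt_pi_iff.mp ha j).mul (analyticAt_pi_iff.mp hv j)

end CvX

open CvX

theorem cv : CV := fun _ _ hg => ⟨tangent hg, qd hg⟩

theorem le' (h : CV) : LE := by
  intro n g s₀ hg hL
  obtain ⟨htan, hq⟩ := h n g hg
  obtain ⟨r₀, B, hr₀, -, hQ⟩ := hq s₀
  have hG : Differentiable ℝ (grad g) := by
    have hd2 : Differentiable ℝ (fderiv ℝ g) :=
      (hg.sm.fderiv_right (m := 1) (by norm_num)).differentiable (by norm_num)
    exact differentiable_pi.mpr fun j => hd2.clm_apply (differentiable_const _)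
  have hval : ∀ s, Leg g s₀ (grad g s) = dotR (grad g s) (s - s₀) - g s + g s₀ := by
    intro s
    have h1 : ∀ s', dotR (grad g s) (s' - s₀) - g s' + g s₀ ≤
        dotR (grad g s) (s - s₀) - g s + g s₀ := by
      intro s'
      have := htan s s'
      simp only [dot_sub_right] at this ⊢
      linarith
    exact le_antisymm (ciSup_le h1)
      (le_ciSup (f := fun s' => dotR (grad g s) (s' - s₀) - g s' + g s₀)
        ⟨_, by rintro _ ⟨s', rfl⟩; exact h1 s'⟩ s)
  have hS : ∀ᶠ s in 𝓝 s₀, grad (Leg g s₀) (grad g s) = s - s₀ := by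
    have h1 : ∀ᶠ η in 𝓝 (grad g s₀), AnalyticAt ℝ (Leg g s₀) η ∧ η ∈ ball (grad g s₀) r₀ :=
      hL.eventually_analyticAt.and (ball_mem_nhds _ hr₀)
    filter_upwards [hG.continuous.continuousAt.eventually h1] with s hs
    let T : Rn n →L[ℝ] ℝ := ∑ j, (s - s₀) j • ContinuousLinearMap.proj j
    have hT : ∀ η, T η = dotR η (s - s₀) := fun η => by
      simp [T, dotR, ContinuousLinearMap.sum_apply, mul_comm]
    have hmin : IsLocalMin (fun η => Leg g s₀ η - T η) (grad g s) := by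
      filter_upwards [isOpen_ball.mem_nhds hs.2] with η hη
      have h2 : dotR η (s - s₀) - g s + g s₀ ≤ Leg g s₀ η :=
        le_ciSup (f := fun s' => dotR η (s' - s₀) - g s' + g s₀)
          ⟨_, by rintro _ ⟨s', rfl⟩; exact hQ η (mem_ball_iff_norm.mp hη).le s'⟩ s
      rw [hval, hT, hT]
      linarith
    have h3 := hmin.hasFDerivAt_eq_zero (hs.1.differentiableAt.hasFDerivAt.sub T.hasFDerivAt)
    ext j
    rw [grad, sub_eq_zero.mp h3, hT]
    simp [dotR, Pi.single_apply]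
  have hSa : AnalyticAt ℝ (grad (Leg g s₀)) (grad g s₀) := analytic_grad hL
  set D := fderiv ℝ (grad (Leg g s₀)) (grad g s₀) with hD
  have hDS : HasFDerivAt (grad (Leg g s₀)) D (grad g s₀) := hSa.differentiableAt.hasFDerivAt
  have hcomp : D.comp (fderiv ℝ (grad g) s₀) = ContinuousLinearMap.id ℝ _ := by
    have h1 := hDS.comp s₀ (hG s₀).hasFDerivAt
    have h2 : HasFDerivAt (fun s : Rn n => s - s₀) (ContinuousLinearMap.id ℝ _) s₀ :=
      (hasFDerivAt_id s₀).sub_const s₀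
    exact h1.unique (h2.congr_of_eventuallyEq hS)
  have hsurj : Function.Surjective (D : Rn n →ₗ[ℝ] Rn n) := fun w =>
    ⟨fderiv ℝ (grad g) s₀ w, congrArg (fun L : Rn n →L[ℝ] Rn n => L w) hcomp⟩
  let e : Rn n ≃L[ℝ] Rn n := (LinearEquiv.ofBijective (D : Rn n →ₗ[ℝ] Rn n)
    ⟨LinearMap.injective_iff_surjective.mpr hsurj, hsurj⟩).toContinuousLinearEquiv
  have he : HasFDerivAt (grad (Leg g s₀)) (e : Rn n →L[ℝ] Rn n) (grad g s₀) := hDS
  have hω : ContDiffAt ℝ ω (grad (Leg g s₀)) (grad g s₀) := hSa.contDiffAt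
  have hinv := (hω.to_localInverse he (by simp)).analyticAt
  have hleft := (hω.hasStrictFDerivAt' he (by simp)).eventually_left_inverse
  have h0 : grad (Leg g s₀) (grad g s₀) = s₀ - s₀ := hS.self_of_nhds
  have hsub : AnalyticAt ℝ (fun s : Rn n => s - s₀) s₀ := analyticAt_id.sub analyticAt_const
  have hGa : AnalyticAt ℝ (grad g) s₀ := by
    refine (hinv.comp_of_eq hsub h0.symm).congr ?_
    filter_upwards [hS, hG.continuous.continuousAt.eventually hleft] with s h1 h2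
    rw [Function.comp_apply, ← h1]
    exact h2
  refine (((analytic_dot hGa hsub).add (analyticAt_const (v := g s₀))).sub
    (hL.comp hGa)).congr (Eventually.of_forall fun s => ?_)
  simp only [Pi.sub_apply, Pi.add_apply, Function.comp_apply, hval]
  ring

end Pool.Agent.MP_6c43ae_an.Tr
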