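import Pool.Agent.MP_6c43ae_an.tr.Spec

/-! Assembly of the toric theorem from the list of statements. -/

set_option autoImplicit false

open MeasureTheory Set Filter Topology Metric

namespace Pool.Agent.MP_6c43ae_an.Tr

lemma reV_smul_rc {n : ℕ} (k : ℕ) (ζ : Cn n) : reV ((k : ℂ) • ζ) = (k : ℝ) • reV ζ := by
  ext j; simp [reV]

lemma norm_reV_sub_le {n : ℕ} (ζ : Cn n) (η : Rn n) : ‖reV ζ - η‖ ≤ ‖ζ - rc η‖ := by
  refine (pi_norm_le_iff_of_nonneg (norm_nonneg _)).2 fun j => ?_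
  refine le_trans ?_ (norm_le_pi_norm (ζ - rc η) j)
  have := Complex.abs_re_le_norm (ζ j - (η j : ℂ))
  simpa [reV, rc] using this

theorem core (h1 : CV) (h2 : LE) (h3 : HB) (h4 : LG) (h5 : ZF) {n : ℕ} {g : Rn n → ℝ}
    {ν : Measure (Rn n)} {s₀ : Rn n} {Λ : ℕ → Finset (Zn n)} (hg : Cv g) (hν : IsFiniteMeasure ν)
    (hν' : ν.IsOpenPosMeasure)
    (hΛ : ∀ (k : ℕ) (α : Zn n), (∃ C : ℝ, ∀ s, dotR (fun j => (α j : ℝ)) s - k * g s ≤ C) →
      α ∈ Λ k) (ho : Orb g ν s₀ Λ) : AnalyticAt ℝ g s₀ := by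
  obtain ⟨r₀, B, hr₀, hB, hq⟩ := (h1 n g hg).2 s₀
  obtain ⟨a1, a2⟩ := h3 n g ν s₀ r₀ B hg.sm.continuous hν hν' hr₀ hB hq
  obtain ⟨r, K, hr, hrr, hz⟩ := h5 n g ν s₀ r₀ B Λ hg.sm.continuous hν hν' hr₀ hB hq hΛ ho
  refine h2 n g s₀ hg (h4 n (grad g s₀) r K (fun k ζ => HH g ν s₀ k ((k : ℂ) • ζ)) _ hr ?_
    fun η hη => a2 η ((mem_ball_iff_norm.1 hη).le.trans hrr))
  filter_upwards [hz, eventually_ge_atTop 1] with k hk hk1
  refine ⟨(a1 k hk1).1.comp (by fun_prop) fun ζ hζ => ?_, hk⟩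
  have hk0 : (0 : ℝ) < k := by exact_mod_cast hk1
  change ‖reV ((k : ℂ) • ζ) - (k : ℝ) • grad g s₀‖ < r₀ * k
  rw [reV_smul_rc, ← smul_sub, norm_smul, Real.norm_of_nonneg hk0.le, mul_comm]
  exact mul_lt_mul_of_pos_right
    (((norm_reV_sub_le ζ _).trans_lt (mem_ball_iff_norm.1 hζ)).trans_le hrr) hk0

lemma pt_ne {n : ℕ} (s θ : Rn n) (j : Fin n) : pt s θ j ≠ 0 :=
  mul_ne_zero (Complex.exp_ne_zero _) (Complex.ofReal_ne_zero.2 (Real.exp_pos _).ne')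

lemma pt_ne_pt {n : ℕ} (s : Rn n) {θ : Rn n} (h1 : ‖θ‖ ≤ Real.pi) (h2 : θ ≠ 0) :
    pt s θ ≠ pt s 0 := by
  intro h
  apply h2
  ext j
  have e := congrFun h j
  simp only [pt, Pi.zero_apply, Complex.ofReal_zero, mul_zero, Complex.exp_zero] at e
  have e2 := mul_right_cancel₀ (Complex.ofReal_ne_zero.2 (Real.exp_pos (s j / 2)).ne') e
  obtain ⟨m, hm⟩ := Complex.exp_eq_one_iff.1 e2
  have e3 : θ j = m * (2 * Real.pi) := by
    have : Complex.I * (θ j : ℂ) = Complex.I * ((m * (2 * Real.pi) : ℝ) : ℂ) := by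
      rw [hm]; push_cast; ring
    exact_mod_cast mul_left_cancel₀ Complex.I_ne_zero this
  have e4 : |θ j| ≤ Real.pi := (norm_le_pi_norm θ j).trans h1
  have hp := Real.pi_pos
  rw [e3, abs_mul, abs_of_pos (by positivity : 0 < 2 * Real.pi)] at e4
  have e5 : |(m : ℝ)| < 1 := by nlinarith
  have e6 : m = 0 := by
    have : |m| < 1 := by exact_mod_cast e5
    exact Int.abs_lt_one_iff.1 this
  rw [e3, e6]; simp

theorem toric (h1 : CV) (h2 : LE) (h3 : HB) (h4 : LG) (h5 : ZF) (w1 : W1) (w2 : W2) (w3 : W3)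
    {n : ℕ} {M : Type} [TopologicalSpace M] [ChartedSpace (Cn n) M] [CompactSpace M]
    [MeasurableSpace M] [BorelSpace M] {ι : Type} {L : VectorBundleCore ℂ M ℂ ι} {h : ι → M → ℝ}
    {μ : Measure M} {c : OpenPartialHomeomorph M (Cn n)} {i : ι} (hh : IsPosMetric n L h)
    (hμ : IsSmoothVol n μ) (hc : IsToricChart n L h μ c i) {d : M → M → ℝ}
    (hd : Continuous (Function.uncurry d)) (hd0 : ∀ x y, x ≠ y → 0 < d x y)
    (hdec : ∀ δ : ℝ, 0 < δ → ∃ c₁ c₂ : ℝ, 0 < c₁ ∧ 0 < c₂ ∧ ∀ k : ℕ, 1 ≤ k →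
      ∀ (N : ℕ) (s : Fin N → ι → M → ℂ), IsOnb n L h μ k N s → ∀ z w : M, δ < d z w →
        bergmanNorm L h k N s z w ≤ c₁ * Real.exp (-c₂ * k)) :
    ∀ z ∈ c.target, AnalyticAt ℝ (fun y => h i (c.symm y)) z := by
  intro z hz
  obtain ⟨a1, -, a3⟩ := w1 n M ι L h μ c i hh hc
  obtain ⟨-, -, b3, b4, -⟩ := w2 n M μ c hμ hc.mem hc.target
  choose Λ N s hs hΛ hker using w3 n M ι L h μ c i hh hμ hc
  refine a3 z hz (core h1 h2 h3 h4 h5 a1 b3 b4 hΛ fun δ hδ => ?_)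
  have hmem : ∀ θ, pt (lg z) θ ∈ c.target := fun θ => by rw [hc.target]; exact pt_ne _ θ
  have hcont : Continuous fun θ : Rn n => d (c.symm (pt (lg z) θ)) (c.symm (pt (lg z) 0)) := by
    have : Continuous fun θ : Rn n => c.symm (pt (lg z) θ) :=
      c.continuousOn_symm.comp_continuous (by unfold pt; fun_prop) hmem
    exact hd.comp (this.prodMk continuous_const)
  have hK : IsCompact (closedBall (0 : Rn n) Real.pi ∩ {θ | δ ≤ ‖θ‖}) :=
    (isCompact_closedBall _ _).inter_right (isClosed_le continuous_const continuous_norm)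
  obtain ⟨δ', hδ', hb⟩ := hK.exists_forall_le' hcont.continuousOn (a := 0) fun θ hθ => by
    refine hd0 _ _ fun e => pt_ne_pt (lg z) (mem_closedBall_zero_iff.1 hθ.1) (fun h0 => ?_)
      (c.symm.injOn (hmem θ) (hmem 0) e)
    have : δ ≤ ‖θ‖ := hθ.2
    rw [h0, norm_zero] at this
    linarith
  obtain ⟨c₁, c₂, p1, p2, hc'⟩ := hdec (δ' / 2) (by positivity)
  refine ⟨c₁, c₂, p1, p2, fun k hk θ t1 t2 => ?_⟩
  rw [← hker k]
  refine hc' k hk _ _ (hs k) _ _ ?_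
  linarith [hb θ ⟨mem_closedBall_zero_iff.2 t1, t2⟩]

end Pool.Agent.MP_6c43ae_an.Tr
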