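import Pool.Agent.MP_6c43ae_an.tr.Spec

/-! Project TORIC, row GG: an entire function of small type that almost interpolates. -/

set_option autoImplicit false

open MeasureTheory Set Filter Topology Metric

namespace Pool.Agent.MP_6c43ae_an.Tr

namespace GgX

/-- the Fourier transform of the indicator of an interval -/
noncomputable def ph (ρ : ℝ) (w : ℂ) : ℂ :=
  ∫ t in Icc (-ρ) ρ, Complex.exp (Complex.I * w * (t : ℂ))

theorem ph_diff (ρ : ℝ) : Differentiable ℂ (ph ρ) := by
  have hs : ProbabilityTheory.integrableExpSet (fun t : ℝ => t) (volume.restrict (Icc (-ρ) ρ))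
      = univ := by
    refine eq_univ_of_forall fun u => ?_
    have hc : Continuous fun t : ℝ => Real.exp (u * t) := by fun_prop
    exact hc.continuousOn.integrableOn_compact isCompact_Icc
  have h := ProbabilityTheory.differentiableOn_complexMGF (X := fun t : ℝ => t)
    (μ := volume.restrict (Icc (-ρ) ρ))
  rw [hs] at h
  simp only [interior_univ, mem_univ, ofPred_true, differentiableOn_univ] at h
  have h2 : Differentiable ℂ fun w : ℂ => Complex.I * w := by fun_prop
  exact h.comp h2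

theorem ph_int (m : ℤ) : ph Real.pi (m : ℂ) = if m = 0 then ((2 * Real.pi : ℝ) : ℂ) else 0 := by
  have hle : -Real.pi ≤ Real.pi := by linarith [Real.pi_pos]
  unfold ph
  rw [integral_Icc_eq_integral_Ioc, ← intervalIntegral.integral_of_le hle]
  split_ifs with h
  · subst h
    simp
    ring
  · have hc : Complex.I * (m : ℂ) ≠ 0 := mul_ne_zero Complex.I_ne_zero (by exact_mod_cast h)
    rw [integral_exp_mul_complex hc, div_eq_zero_iff]
    left
    have h1 : Complex.I * (m : ℂ) * (Real.pi : ℂ)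
        = Complex.I * (m : ℂ) * ((-Real.pi : ℝ) : ℂ) + m * (2 * Real.pi * Complex.I) := by
      push_cast
      ring
    rw [h1, Complex.exp_add, Complex.exp_int_mul_two_pi_mul_I, mul_one, sub_self]

variable {n : ℕ}

/-- the integrand -/
noncomputable def ig (Λ : Finset (Zn n)) (a : Zn n → ℂ) (ζ : Cn n) (θ : Rn n) : ℂ :=
  tp Λ a θ * Complex.exp (-(Complex.I * ∑ j, ζ j * (θ j : ℂ)))

theorem ig_cont (Λ : Finset (Zn n)) (a : Zn n → ℂ) (ζ : Cn n) : Continuous (ig Λ a ζ) := by
  unfold ig tp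
  fun_prop

theorem ig_eq (Λ : Finset (Zn n)) (a : Zn n → ℂ) (ζ : Cn n) (θ : Rn n) :
    ig Λ a ζ θ = ∑ α ∈ Λ, a α *
      ∏ j, Complex.exp (Complex.I * ((α j : ℂ) - ζ j) * (θ j : ℂ)) := by
  unfold ig tp
  rw [Finset.sum_mul]
  refine Finset.sum_congr rfl fun α _ => ?_
  rw [mul_assoc, ← Complex.exp_add, ← Complex.exp_sum]
  congr 2
  rw [Finset.mul_sum, Finset.mul_sum, ← sub_eq_add_neg, ← Finset.sum_sub_distrib]
  exact Finset.sum_congr rfl fun j _ => by ring

theorem int_eq (Λ : Finset (Zn n)) (a : Zn n → ℂ) (ζ : Cn n) {ρ : ℝ} (hρ : 0 ≤ ρ) :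
    ∫ θ in closedBall (0 : Rn n) ρ, ig Λ a ζ θ
      = ∑ α ∈ Λ, a α * ∏ j, ph ρ ((α j : ℂ) - ζ j) := by
  simp_rw [ig_eq]
  rw [integral_finsetSum]
  · refine Finset.sum_congr rfl fun α _ => ?_
    rw [integral_const_mul]
    congr 1
    have hb : closedBall (0 : Rn n) ρ = Set.univ.pi fun _ : Fin n => Icc (-ρ) ρ := by
      rw [closedBall_pi _ hρ]
      simp [Real.closedBall_eq_Icc]
    rw [hb, volume_pi, Measure.restrict_pi_pi]
    exact integral_fintype_prod_eq_prod
      (fun j (t : ℝ) => Complex.exp (Complex.I * ((α j : ℂ) - ζ j) * (t : ℂ)))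
  · intro α _
    have hc : Continuous fun θ : Rn n => a α *
        ∏ j, Complex.exp (Complex.I * ((α j : ℂ) - ζ j) * (θ j : ℂ)) := by fun_prop
    exact hc.continuousOn.integrableOn_compact (isCompact_closedBall _ _)

theorem int_pi (Λ : Finset (Zn n)) (a : Zn n → ℂ) {β : Zn n} (hβ : β ∈ Λ) :
    ∫ θ in closedBall (0 : Rn n) Real.pi, ig Λ a (zc β) θ
      = a β * ((2 * Real.pi : ℝ) : ℂ) ^ n := by
  rw [int_eq Λ a _ Real.pi_pos.le, Finset.sum_eq_single β]
  · congr 1
    have : ∀ j : Fin n, ph Real.pi ((β j : ℂ) - zc β j) = ((2 * Real.pi : ℝ) : ℂ) := by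
      intro j
      have h := ph_int 0
      simp only [if_true, Int.cast_zero] at h
      simp only [zc, sub_self, h]
    simp only [this, Finset.prod_const, Finset.card_univ, Fintype.card_fin]
  · intro α _ hα
    obtain ⟨j, hj⟩ := Function.ne_iff.mp hα
    have h := ph_int (α j - β j)
    rw [if_neg (sub_ne_zero.mpr hj)] at h
    rw [Finset.prod_eq_zero (Finset.mem_univ j), mul_zero]
    simpa [zc] using h
  · intro h
    exact absurd hβ h

theorem norm_exp_le (ζ : Cn n) (θ : Rn n) {ρ : ℝ} (hθ : ‖θ‖ ≤ ρ) :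
    ‖Complex.exp (-(Complex.I * ∑ j, ζ j * (θ j : ℂ)))‖ ≤ Real.exp (n * ρ * ‖imV ζ‖) := by
  rw [Complex.norm_exp]
  apply Real.exp_le_exp.mpr
  have h1 : (-(Complex.I * ∑ j, ζ j * (θ j : ℂ))).re = ∑ j, (ζ j).im * θ j := by
    simp [Complex.im_sum]
  rw [h1]
  calc ∑ j, (ζ j).im * θ j ≤ ∑ _j : Fin n, ρ * ‖imV ζ‖ := by
        refine Finset.sum_le_sum fun j _ => ?_
        have h2 : |(ζ j).im| ≤ ‖imV ζ‖ := norm_le_pi_norm (imV ζ) j
        have h3 : |θ j| ≤ ρ := (norm_le_pi_norm θ j).trans hθ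
        calc (ζ j).im * θ j ≤ |(ζ j).im * θ j| := le_abs_self _
          _ = |θ j| * |(ζ j).im| := by rw [abs_mul, mul_comm]
          _ ≤ ρ * ‖imV ζ‖ := mul_le_mul h3 h2 (abs_nonneg _) ((abs_nonneg _).trans h3)
    _ = n * ρ * ‖imV ζ‖ := by simp [mul_assoc]

theorem diff_prod (s : Finset (Fin n)) (f : Fin n → Cn n → ℂ) (hf : ∀ j, Differentiable ℂ (f j)) :
    Differentiable ℂ fun ζ => ∏ j ∈ s, f j ζ := by
  induction s using Finset.induction_on with
  | empty => simp
  | insert j s hj ih =>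
    simp only [Finset.prod_insert hj]
    exact (hf j).mul ih

theorem vol_ball {ρ : ℝ} (hρ : 0 ≤ ρ) :
    (volume : Measure (Rn n)).real (closedBall 0 ρ) = (2 * ρ) ^ n := by
  rw [Measure.real, Real.volume_pi_closedBall _ hρ, Fintype.card_fin,
    ENNReal.toReal_ofReal (by positivity)]

end GgX

open GgX in
theorem gg : GG := by
  intro n Λ a δ A e hδ hδπ he hA hsmall
  have hπ := Real.pi_pos
  have hA0 : 0 ≤ A := (norm_nonneg _).trans (hA 0)
  have hP : (0 : ℝ) < (2 * Real.pi) ^ n := by positivity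
  have hPc : ‖((2 * Real.pi : ℝ) : ℂ) ^ n‖ = (2 * Real.pi) ^ n := by
    rw [norm_pow, Complex.norm_real, Real.norm_of_nonneg (by positivity)]
  have hP0 : ((2 * Real.pi : ℝ) : ℂ) ^ n ≠ 0 := by
    rw [← norm_pos_iff, hPc]
    exact hP
  refine ⟨fun ζ => (∫ θ in closedBall (0 : Rn n) δ, ig Λ a ζ θ) / ((2 * Real.pi : ℝ) : ℂ) ^ n,
    ?_, ?_, ?_⟩
  · simp_rw [int_eq Λ a _ hδ.le]
    have h1 : ∀ α : Zn n, Differentiable ℂ fun ζ : Cn n => ∏ j, ph δ ((α j : ℂ) - ζ j) :=
      fun α => diff_prod _ (fun j ζ => ph δ ((α j : ℂ) - ζ j)) fun j =>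
        (ph_diff δ).comp (by fun_prop)
    have h2 : Differentiable ℂ fun ζ : Cn n => ∑ α ∈ Λ, a α * ∏ j, ph δ ((α j : ℂ) - ζ j) :=
      Differentiable.fun_sum fun α _ => (h1 α).const_mul _
    simp only [div_eq_mul_inv]
    exact h2.mul_const _
  · intro ζ
    rw [norm_div, hPc, div_le_iff₀ hP]
    have h1 := norm_setIntegral_le_of_norm_le_const (μ := (volume : Measure (Rn n)))
      (s := closedBall (0 : Rn n) δ) (f := ig Λ a ζ) (C := A * Real.exp (n * δ * ‖imV ζ‖))
      (isCompact_closedBall _ _).measure_lt_top (fun θ hθ => by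
        rw [ig, norm_mul]
        exact mul_le_mul (hA θ) (norm_exp_le ζ θ (mem_closedBall_zero_iff.mp hθ))
          (norm_nonneg _) hA0)
    rw [vol_ball hδ.le] at h1
    refine h1.trans (mul_le_mul_of_nonneg_left ?_ (by positivity))
    exact pow_le_pow_left₀ (by positivity) (by linarith) n
  · intro β hβ
    have hsub : closedBall (0 : Rn n) δ ⊆ closedBall 0 Real.pi := closedBall_subset_closedBall hδπ
    have hint : IntegrableOn (ig Λ a (zc β)) (closedBall (0 : Rn n) Real.pi) :=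
      (ig_cont Λ a _).continuousOn.integrableOn_compact (isCompact_closedBall _ _)
    have h1 := setIntegral_sdiff measurableSet_closedBall hint hsub
    rw [int_pi Λ a hβ] at h1
    have hfin : (volume : Measure (Rn n)) (closedBall 0 Real.pi) < ⊤ :=
      (isCompact_closedBall _ _).measure_lt_top
    have h2 := norm_setIntegral_le_of_norm_le_const (μ := (volume : Measure (Rn n)))
      (s := closedBall (0 : Rn n) Real.pi \ closedBall 0 δ) (f := ig Λ a (zc β)) (C := e)
      ((measure_mono sdiff_subset).trans_lt hfin) (fun θ hθ => by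
        have h3 : ‖θ‖ ≤ Real.pi := mem_closedBall_zero_iff.mp hθ.1
        have h4 : δ ≤ ‖θ‖ := le_of_lt (not_le.mp fun h => hθ.2 (mem_closedBall_zero_iff.mpr h))
        have h5 := norm_exp_le (zc β) θ h3
        have h6 : imV (zc β) = 0 := by
          funext j
          simp [imV, zc]
        rw [h6, norm_zero, mul_zero, Real.exp_zero] at h5
        rw [ig, norm_mul]
        calc _ ≤ e * 1 := mul_le_mul (hsmall θ h3 h4) h5 (norm_nonneg _) he
          _ = e := mul_one e)
    have h7 : (volume : Measure (Rn n)).real (closedBall (0 : Rn n) Real.pi \ closedBall 0 δ)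
        ≤ (2 * Real.pi) ^ n := by
      rw [← vol_ball hπ.le]
      exact measureReal_mono sdiff_subset hfin.ne
    have h8 : (∫ θ in closedBall (0 : Rn n) δ, ig Λ a (zc β) θ) / ((2 * Real.pi : ℝ) : ℂ) ^ n - a β
        = -(∫ θ in closedBall (0 : Rn n) Real.pi \ closedBall 0 δ, ig Λ a (zc β) θ)
          / ((2 * Real.pi : ℝ) : ℂ) ^ n := by
      rw [h1]
      field_simp
      ring
    show ‖(∫ θ in closedBall (0 : Rn n) δ, ig Λ a (zc β) θ) / ((2 * Real.pi : ℝ) : ℂ) ^ n - a β‖ ≤ e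
    rw [h8, norm_div, norm_neg, hPc, div_le_iff₀ hP]
    exact h2.trans (mul_le_mul_of_nonneg_left h7 he)

end Pool.Agent.MP_6c43ae_an.Tr
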