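import Pool.Agent.MP_6c43ae_an.Defs
import Mathlib.MeasureTheory.Constructions.Pi

/-! Hermitian holomorphic line bundles on a complex manifold of dimension `n`, toric charts.
The inner product `innerProd` and the kernel norm `bergmanNorm` are those of the file `Defs`. -/

set_option autoImplicit false

open scoped Manifold ContDiff

namespace Pool.Agent.MP_6c43ae_an

variable (n : ℕ) {M : Type} [TopologicalSpace M] [ChartedSpace (Fin n → ℂ) M] {ι : Type}

/-- The functions `h i = h (e i, e i)` form a smooth Hermitian metric on `L` with positive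
curvature: in every chart `- log (h i)` has positive Laplacian along every complex line. -/
structure IsPosMetric (L : VectorBundleCore ℂ M ℂ ι) (h : ι → M → ℝ) : Prop where
  pos : ∀ i, ∀ x ∈ L.baseSet i, 0 < h i x
  smooth : ∀ i, ∀ c ∈ atlas (Fin n → ℂ) M,
    ContDiffOn ℝ ∞ (fun y => h i (c.symm y)) (c.target ∩ c.symm ⁻¹' L.baseSet i)
  compat : ∀ i j, ∀ x ∈ L.baseSet i ∩ L.baseSet j, h i x = ‖L.coordChange i j x 1‖ ^ 2 * h j x
  curvature_pos : ∀ i, ∀ c ∈ atlas (Fin n → ℂ) M, ∀ x ∈ c.source ∩ L.baseSet i,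
    ∀ v : Fin n → ℂ, v ≠ 0 →
      0 < Laplacian.laplacian (fun t : ℂ => -Real.log (h i (c.symm (c x + t • v)))) 0

/-- `μ` is the measure of a smooth volume form: in every chart it has a smooth positive density
with respect to Lebesgue measure. -/
def IsSmoothVol [MeasurableSpace M] (μ : MeasureTheory.Measure M) : Prop :=
  ∀ c ∈ atlas (Fin n → ℂ) M, ∃ ρ : (Fin n → ℂ) → ℝ, ContDiffOn ℝ ∞ ρ c.target ∧
    (∀ y ∈ c.target, 0 < ρ y) ∧ ∀ A : Set (Fin n → ℂ), MeasurableSet A → A ⊆ c.target →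
      μ (c.symm '' A) = ∫⁻ y in A, ENNReal.ofReal (ρ y)

/-- The functions `s i` are the coordinates, in the frames `(e i) ^ k`, of a holomorphic section
of `L ^ k`. -/
structure IsHolSec (L : VectorBundleCore ℂ M ℂ ι) (k : ℕ) (s : ι → M → ℂ) : Prop where
  hol : ∀ i, MDifferentiableOn 𝓘(ℂ, Fin n → ℂ) 𝓘(ℂ, ℂ) (s i) (L.baseSet i)
  compat : ∀ i j, ∀ x ∈ L.baseSet i ∩ L.baseSet j, s j x = (L.coordChange i j x 1) ^ k * s i x

/-- `s 0, …, s (N - 1)` is an orthonormal basis of the space of holomorphic sections of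
`L ^ k`. -/
structure IsOnb [MeasurableSpace M] (L : VectorBundleCore ℂ M ℂ ι) (h : ι → M → ℝ)
    (μ : MeasureTheory.Measure M) (k N : ℕ) (s : Fin N → ι → M → ℂ) : Prop where
  hol : ∀ a, IsHolSec n L k (s a)
  orthonormal : ∀ a b, innerProd L h μ k (s a) (s b) = if a = b then 1 else 0
  span : ∀ t, IsHolSec n L k t →
    ∃ c : Fin N → ℂ, ∀ i, ∀ x ∈ L.baseSet i, t i x = ∑ a, c a * s a i x

/-- The chart `c` identifies an open set of full measure with the complex torus, `e i` is a frame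
over it, `h i` and `μ` are invariant under the compact torus, and the sections of `L ^ k` are the
linear combinations of the monomials of bounded norm. -/
structure IsToricChart [MeasurableSpace M] (L : VectorBundleCore ℂ M ℂ ι) (h : ι → M → ℝ)
    (μ : MeasureTheory.Measure M) (c : OpenPartialHomeomorph M (Fin n → ℂ)) (i : ι) : Prop where
  mem : c ∈ atlas (Fin n → ℂ) M
  target : c.target = {z | ∀ j, z j ≠ 0}
  frame : c.source ⊆ L.baseSet i
  full : μ c.sourceᶜ = 0
  inv_h : ∀ u : Fin n → ℂ, (∀ j, ‖u j‖ = 1) → ∀ z ∈ c.target, h i (c.symm (u * z)) = h i (c.symm z)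
  inv_vol : ∀ u : Fin n → ℂ, (∀ j, ‖u j‖ = 1) → ∀ A : Set (Fin n → ℂ), MeasurableSet A →
    A ⊆ c.target → μ (c.symm '' ((fun z => u * z) '' A)) = μ (c.symm '' A)
  sections : ∀ k : ℕ, ∃ Λ : Finset (Fin n → ℤ),
    (∀ α, (∃ C : ℝ, ∀ z ∈ c.target, ‖∏ j, z j ^ α j‖ ^ 2 * h i (c.symm z) ^ k ≤ C) → α ∈ Λ) ∧
    (∀ α ∈ Λ, ∃ s, IsHolSec n L k s ∧ ∀ z ∈ c.target, s i (c.symm z) = ∏ j, z j ^ α j) ∧
    ∀ s, IsHolSec n L k s → ∃ a : (Fin n → ℤ) → ℂ,
      ∀ z ∈ c.target, s i (c.symm z) = ∑ α ∈ Λ, a α * ∏ j, z j ^ α j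

end Pool.Agent.MP_6c43ae_an
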