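import Mathlib
import Pool.Agent.MP_6c43ae_an.tr.Defs
import Pool.Agent.MP_6c43ae_an.ct.Hol

/-! Project TORIC: shared definitions and the list of statements. -/

set_option autoImplicit false

open MeasureTheory Set Filter Topology Metric
open scoped ComplexConjugate ContDiff

namespace Pool.Agent.MP_6c43ae_an.Tr

abbrev Rn (n : ℕ) : Type := Fin n → ℝ
abbrev Cn (n : ℕ) : Type := Fin n → ℂ
abbrev Zn (n : ℕ) : Type := Fin n → ℤ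

section defs

variable {n : ℕ}

def dotR (a b : Rn n) : ℝ := ∑ j, a j * b j

/-- real vectors as complex vectors -/
def rc (η : Rn n) : Cn n := fun j => (η j : ℂ)

/-- integer vectors as complex vectors -/
def zc (α : Zn n) : Cn n := fun j => (α j : ℂ)

/-- real part -/
def reV (ζ : Cn n) : Rn n := fun j => (ζ j).re

/-- imaginary part -/
def imV (ζ : Cn n) : Rn n := fun j => (ζ j).im

noncomputable def grad (g : Rn n → ℝ) (s : Rn n) : Rn n := fun j => fderiv ℝ g s (Pi.single j 1)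

/-- the Legendre transform, normalized at `s₀` -/
noncomputable def Leg (g : Rn n → ℝ) (s₀ η : Rn n) : ℝ := ⨆ s, (dotR η (s - s₀) - g s + g s₀)

noncomputable def ex (g : Rn n → ℝ) (s₀ : Rn n) (k : ℕ) (ζ : Cn n) (s : Rn n) : ℂ :=
  Complex.exp (∑ j, ζ j * ((s j - s₀ j : ℝ) : ℂ) - k * ((g s - g s₀ : ℝ) : ℂ))

/-- the normalized Laplace transform -/
noncomputable def HH (g : Rn n → ℝ) (ν : Measure (Rn n)) (s₀ : Rn n) (k : ℕ) (ζ : Cn n) : ℂ :=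
  ∫ s, ex g s₀ k ζ s ∂ν

/-- a trigonometric polynomial -/
noncomputable def tp (Λ : Finset (Zn n)) (a : Zn n → ℂ) (θ : Rn n) : ℂ :=
  ∑ α ∈ Λ, a α * Complex.exp (Complex.I * ∑ j, (α j : ℂ) * (θ j : ℂ))

/-- strictly convex functions of class two -/
structure Cv (g : Rn n → ℝ) : Prop where
  sm : ContDiff ℝ 2 g
  pd : ∀ s v, v ≠ 0 → 0 < fderiv ℝ (fderiv ℝ g) s v v

/-- quadratic bound for the Legendre transform near the gradient at `s₀` -/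
def Qd (g : Rn n → ℝ) (s₀ : Rn n) (r₀ B : ℝ) : Prop :=
  ∀ η, ‖η - grad g s₀‖ ≤ r₀ → ∀ s, dotR η (s - s₀) - g s + g s₀ ≤ B * ‖η - grad g s₀‖ ^ 2

/-- the point of the torus with logarithmic coordinates `s` and angles `θ` -/
noncomputable def pt (s θ : Rn n) : Cn n :=
  fun j => Complex.exp (Complex.I * (θ j : ℂ)) * (Real.exp (s j / 2) : ℝ)

/-- logarithmic coordinates -/
noncomputable def lg (z : Cn n) : Rn n := fun j => Real.log (‖z j‖ ^ 2)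

end defs

/-- convexity -/
def CV : Prop := ∀ (n : ℕ) (g : Rn n → ℝ), Cv g →
  (∀ s₁ s, g s₁ + dotR (grad g s₁) (s - s₁) ≤ g s) ∧
    ∀ s₀, ∃ r₀ B : ℝ, 0 < r₀ ∧ 0 < B ∧ Qd g s₀ r₀ B

/-- back from the Legendre transform -/
def LE : Prop := ∀ (n : ℕ) (g : Rn n → ℝ) (s₀ : Rn n), Cv g →
  AnalyticAt ℝ (Leg g s₀) (grad g s₀) → AnalyticAt ℝ g s₀

/-- the Laplace transform: holomorphy, upper bound, positivity and the Laplace principle -/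
def HB : Prop := ∀ (n : ℕ) (g : Rn n → ℝ) (ν : Measure (Rn n)) (s₀ : Rn n) (r₀ B : ℝ),
  Continuous g → IsFiniteMeasure ν → ν.IsOpenPosMeasure → 0 < r₀ → 0 < B → Qd g s₀ r₀ B →
  (∀ k : ℕ, 1 ≤ k →
    DifferentiableOn ℂ (HH g ν s₀ k) {ζ | ‖reV ζ - (k : ℝ) • grad g s₀‖ < r₀ * k} ∧
    ∀ ζ, ‖reV ζ - (k : ℝ) • grad g s₀‖ ≤ r₀ * k →
      ‖HH g ν s₀ k ζ‖ ≤ ν.real univ * Real.exp (B * ‖reV ζ - (k : ℝ) • grad g s₀‖ ^ 2 / k) ∧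
      (imV ζ = 0 → HH g ν s₀ k ζ ≠ 0)) ∧
  ∀ η, ‖η - grad g s₀‖ ≤ r₀ →
    Tendsto (fun k : ℕ => Real.log ‖HH g ν s₀ k ((k : ℂ) • rc η)‖ / k) atTop (𝓝 (Leg g s₀ η))

/-- subexponential bound for the sum of the coefficients -/
def SU : Prop := ∀ (n : ℕ) (g : Rn n → ℝ) (ν : Measure (Rn n)) (s₀ : Rn n), Continuous g →
  IsFiniteMeasure ν → ν.IsOpenPosMeasure → ∀ ε : ℝ, 0 < ε → ∃ C : ℝ, 0 < C ∧
    ∀ (k : ℕ) (Λ : Finset (Zn n)), ∑ α ∈ Λ, ‖(HH g ν s₀ k (zc α))⁻¹‖ ≤ C * Real.exp (ε * k)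

/-- an entire function of small type that almost interpolates the coefficients -/
def GG : Prop := ∀ (n : ℕ) (Λ : Finset (Zn n)) (a : Zn n → ℂ) (δ A e : ℝ), 0 < δ → δ ≤ Real.pi →
  0 ≤ e → (∀ θ, ‖tp Λ a θ‖ ≤ A) → (∀ θ, ‖θ‖ ≤ Real.pi → δ ≤ ‖θ‖ → ‖tp Λ a θ‖ ≤ e) →
  ∃ G : Cn n → ℂ, Differentiable ℂ G ∧ (∀ ζ, ‖G ζ‖ ≤ A * Real.exp (n * δ * ‖imV ζ‖)) ∧
    ∀ β ∈ Λ, ‖G (zc β) - a β‖ ≤ e

/-- a local theorem of Carlson type in one variable -/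
def C1 : Prop := ∃ Λ : ℝ, 1 ≤ Λ ∧ ∀ (m : ℕ) (j₀ : ℤ) (E : ℂ → ℂ) (M₀ M₁ : ℝ), 1 ≤ m →
  DifferentiableOn ℂ E (ball (j₀ : ℂ) (5 * m)) → (∀ ζ ∈ closedBall (j₀ : ℂ) (4 * m), ‖E ζ‖ ≤ M₁) →
  (∀ j : ℤ, |j - j₀| ≤ m → ‖E j‖ ≤ M₀) →
  ∀ ζ ∈ closedBall (j₀ : ℂ) (m / 2), ‖E ζ‖ ≤ Λ ^ m * M₀ + M₁ / 4 ^ m

/-- a local theorem of Carlson type in several variables -/
def MC : Prop := ∀ n : ℕ, ∃ τ γ κ Λ C : ℝ, 0 < τ ∧ 0 < γ ∧ γ ≤ 1 ∧ 0 < κ ∧ 1 ≤ Λ ∧ 0 < C ∧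
  ∀ (m : ℕ) (j₀ : Zn n) (E : Cn n → ℂ) (A M₀ : ℝ), 1 ≤ m → 0 ≤ A →
    DifferentiableOn ℂ E (ball (zc j₀) (5 * m)) →
    (∀ ζ ∈ ball (zc j₀) (5 * m), ‖E ζ‖ ≤ A * Real.exp (τ * ‖ζ - zc j₀‖)) →
    (∀ β : Zn n, zc β ∈ ball (zc j₀) (5 * m) → ‖E (zc β)‖ ≤ M₀) →
    ∀ ζ ∈ closedBall (zc j₀) (γ * m), ‖E ζ‖ ≤ Λ ^ m * M₀ + C * A * Real.exp (-κ * m)

/-- a bounded pointwise limit of holomorphic functions is holomorphic -/
def HL : Prop := ∀ (n : ℕ) (ι : Type) (l : Filter ι) (V : Set (Cn n)) (F : ι → Cn n → ℂ)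
  (f : Cn n → ℂ) (K : ℝ), l.NeBot → IsOpen V →
  (∀ᶠ i in l, DifferentiableOn ℂ (F i) V ∧ ∀ z ∈ V, ‖F i z‖ ≤ K) →
  (∀ z ∈ V, Tendsto (fun i => F i z) l (𝓝 (f z))) → DifferentiableOn ℂ f V

/-- holomorphic functions of several variables are analytic -/
def AN : Prop := ∀ (n : ℕ) (V : Set (Cn n)) (f : Cn n → ℂ), IsOpen V → DifferentiableOn ℂ f V →
  AnalyticOnNhd ℂ f V

/-- limits of logarithms of functions without zeros -/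
def LG : Prop := ∀ (n : ℕ) (η₀ : Rn n) (r K : ℝ) (f : ℕ → Cn n → ℂ) (Ψ : Rn n → ℝ), 0 < r →
  (∀ᶠ k : ℕ in atTop, DifferentiableOn ℂ (f k) (ball (rc η₀) r) ∧ ∀ ζ ∈ ball (rc η₀) r,
    Real.exp (-(K * k)) ≤ ‖f k ζ‖ ∧ ‖f k ζ‖ ≤ Real.exp (K * k)) →
  (∀ η ∈ ball η₀ r, Tendsto (fun k : ℕ => Real.log ‖f k (rc η)‖ / k) atTop (𝓝 (Ψ η))) →
  AnalyticAt ℝ Ψ η₀

/-- decay of the kernel along the orbit through `s₀` -/
def Orb {n : ℕ} (g : Rn n → ℝ) (ν : Measure (Rn n)) (s₀ : Rn n) (Λ : ℕ → Finset (Zn n)) : Prop :=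
  ∀ δ : ℝ, 0 < δ → ∃ c₁ c₂ : ℝ, 0 < c₁ ∧ 0 < c₂ ∧ ∀ k : ℕ, 1 ≤ k → ∀ θ : Rn n, ‖θ‖ ≤ Real.pi →
    δ ≤ ‖θ‖ → ‖tp (Λ k) (fun α => (HH g ν s₀ k (zc α))⁻¹) θ‖ ≤ c₁ * Real.exp (-c₂ * k)

/-- the Laplace transform has no zeros near the real point -/
def ZF : Prop := ∀ (n : ℕ) (g : Rn n → ℝ) (ν : Measure (Rn n)) (s₀ : Rn n) (r₀ B : ℝ)
  (Λ : ℕ → Finset (Zn n)), Continuous g → IsFiniteMeasure ν → ν.IsOpenPosMeasure → 0 < r₀ →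
  0 < B → Qd g s₀ r₀ B →
  (∀ (k : ℕ) (α : Zn n), (∃ C : ℝ, ∀ s, dotR (fun j => (α j : ℝ)) s - k * g s ≤ C) → α ∈ Λ k) →
  Orb g ν s₀ Λ → ∃ r K : ℝ, 0 < r ∧ r ≤ r₀ ∧ ∀ᶠ k : ℕ in atTop, ∀ ζ ∈ ball (rc (grad g s₀)) r,
    Real.exp (-(K * k)) ≤ ‖HH g ν s₀ k ((k : ℂ) • ζ)‖ ∧
      ‖HH g ν s₀ k ((k : ℂ) • ζ)‖ ≤ Real.exp (K * k)

section geom

variable {n : ℕ} {M : Type} [TopologicalSpace M] [MeasurableSpace M] {ι : Type}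

/-- the potential in logarithmic coordinates -/
noncomputable def pot (h : ι → M → ℝ) (c : OpenPartialHomeomorph M (Cn n)) (i : ι) (s : Rn n) : ℝ :=
  -Real.log (h i (c.symm (pt s 0)))

/-- the volume in logarithmic coordinates -/
noncomputable def vol (μ : Measure M) (c : OpenPartialHomeomorph M (Cn n)) : Measure (Rn n) :=
  (μ.restrict c.source).map fun x => lg (c x)

end geom

/-- the potential is strictly convex, and the metric is analytic where the potential is -/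
def W1 : Prop := ∀ (n : ℕ) (M : Type) [TopologicalSpace M] [ChartedSpace (Cn n) M]
  [MeasurableSpace M] (ι : Type) (L : VectorBundleCore ℂ M ℂ ι) (h : ι → M → ℝ) (μ : Measure M)
  (c : OpenPartialHomeomorph M (Cn n)) (i : ι), IsPosMetric n L h → IsToricChart n L h μ c i →
  Cv (pot h c i) ∧ (∀ z ∈ c.target, h i (c.symm z) = Real.exp (-pot h c i (lg z))) ∧
    ∀ z ∈ c.target, AnalyticAt ℝ (pot h c i) (lg z) → AnalyticAt ℝ (fun y => h i (c.symm y)) z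

/-- the measures -/
def W2 : Prop := ∀ (n : ℕ) (M : Type) [TopologicalSpace M] [ChartedSpace (Cn n) M]
  [CompactSpace M] [MeasurableSpace M] [BorelSpace M] (μ : Measure M)
  (c : OpenPartialHomeomorph M (Cn n)), IsSmoothVol n μ → c ∈ atlas (Cn n) M →
  c.target = {z | ∀ j, z j ≠ 0} →
  IsFiniteMeasure μ ∧ μ.IsOpenPosMeasure ∧ IsFiniteMeasure (vol μ c) ∧ (vol μ c).IsOpenPosMeasure ∧
    ∀ F : Rn n → ℂ, Continuous F → ∫ s, F s ∂(vol μ c) = ∫ x in c.source, F (lg (c x)) ∂μ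

/-- the monomial basis and the kernel along an orbit -/
def W3 : Prop := ∀ (n : ℕ) (M : Type) [TopologicalSpace M] [ChartedSpace (Cn n) M]
  [CompactSpace M] [MeasurableSpace M] [BorelSpace M] (ι : Type) (L : VectorBundleCore ℂ M ℂ ι)
  (h : ι → M → ℝ) (μ : Measure M) (c : OpenPartialHomeomorph M (Cn n)) (i : ι),
  IsPosMetric n L h → IsSmoothVol n μ → IsToricChart n L h μ c i → ∀ k : ℕ,
    ∃ (Λ : Finset (Zn n)) (N : ℕ) (s : Fin N → ι → M → ℂ), IsOnb n L h μ k N s ∧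
      (∀ α : Zn n, (∃ C : ℝ, ∀ s, dotR (fun j => (α j : ℝ)) s - k * pot h c i s ≤ C) → α ∈ Λ) ∧
      ∀ s₀ θ : Rn n, bergmanNorm L h k N s (c.symm (pt s₀ θ)) (c.symm (pt s₀ 0))
        = ‖tp Λ (fun α => (HH (pot h c i) (vol μ c) s₀ k (zc α))⁻¹) θ‖

end Pool.Agent.MP_6c43ae_an.Tr
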