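import Mathlib
import Pool.Agent.MP_6c43ae_an.tr.Spec

/-! Project TORIC, row HB: the normalized Laplace transform. -/

set_option autoImplicit false

open MeasureTheory Set Filter Topology Metric

namespace Pool.Agent.MP_6c43ae_an.Tr

namespace HbX

variable {n : ℕ}

/-- the real exponent -/
def ph (g : Rn n → ℝ) (s₀ : Rn n) (k : ℕ) (x s : Rn n) : ℝ :=
  dotR x (s - s₀) - k * (g s - g s₀)

theorem re_expo (g : Rn n → ℝ) (s₀ : Rn n) (k : ℕ) (ζ : Cn n) (s : Rn n) :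
    (∑ j, ζ j * ((s j - s₀ j : ℝ) : ℂ) - k * ((g s - g s₀ : ℝ) : ℂ)).re
      = ph g s₀ k (reV ζ) s := by
  simp only [ph, dotR, reV, Complex.sub_re, Complex.re_sum, Complex.mul_re, Complex.ofReal_re,
    Complex.ofReal_im, mul_zero, sub_zero, Complex.natCast_re, Complex.natCast_im, Pi.sub_apply]

theorem norm_ex (g : Rn n → ℝ) (s₀ : Rn n) (k : ℕ) (ζ : Cn n) (s : Rn n) :
    ‖ex g s₀ k ζ s‖ = Real.exp (ph g s₀ k (reV ζ) s) := by
  rw [ex, Complex.norm_exp, re_expo]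

theorem ex_real (g : Rn n → ℝ) (s₀ : Rn n) (k : ℕ) (ζ : Cn n) (h : imV ζ = 0) (s : Rn n) :
    ex g s₀ k ζ s = ((Real.exp (ph g s₀ k (reV ζ) s) : ℝ) : ℂ) := by
  rw [ex, Complex.ofReal_exp, ← re_expo]
  congr 1
  apply Complex.ext
  · simp only [Complex.ofReal_re]
  · have h' : ∀ j, (ζ j).im = 0 := fun j => congrFun h j
    simp only [Complex.sub_im, Complex.im_sum, Complex.mul_im, Complex.ofReal_re,
      Complex.ofReal_im, mul_zero, h', zero_mul, add_zero, Finset.sum_const_zero,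
      Complex.natCast_re, Complex.natCast_im, sub_zero]

theorem cont_ph {g : Rn n → ℝ} (hg : Continuous g) (s₀ : Rn n) (k : ℕ) (x : Rn n) :
    Continuous (ph g s₀ k x) := by
  unfold ph dotR
  fun_prop

theorem cont_ex {g : Rn n → ℝ} (hg : Continuous g) (s₀ : Rn n) (k : ℕ) (ζ : Cn n) :
    Continuous (ex g s₀ k ζ) := by
  unfold ex
  fun_prop

theorem ph_le {g : Rn n → ℝ} {s₀ : Rn n} {r₀ B : ℝ} (hQ : Qd g s₀ r₀ B) {k : ℕ} (hk : 1 ≤ k)
    {x : Rn n} (hx : ‖x - (k : ℝ) • grad g s₀‖ ≤ r₀ * k) (s : Rn n) :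
    ph g s₀ k x s ≤ B * ‖x - (k : ℝ) • grad g s₀‖ ^ 2 / k := by
  have hk0 : (0 : ℝ) < k := by exact_mod_cast hk
  have h1 : (k : ℝ)⁻¹ • x - grad g s₀ = (k : ℝ)⁻¹ • (x - (k : ℝ) • grad g s₀) := by
    rw [smul_sub, smul_smul, inv_mul_cancel₀ hk0.ne', one_smul]
  have h2 : ‖(k : ℝ)⁻¹ • x - grad g s₀‖ = ‖x - (k : ℝ) • grad g s₀‖ / k := by
    rw [h1, norm_smul, norm_inv, Real.norm_natCast, inv_mul_eq_div]
  have h3 := hQ ((k : ℝ)⁻¹ • x) (by rw [h2, div_le_iff₀ hk0]; exact hx) s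
  rw [h2] at h3
  have h4 : dotR ((k : ℝ)⁻¹ • x) (s - s₀) = dotR x (s - s₀) / k := by
    simp only [dotR, Pi.smul_apply, smul_eq_mul, Finset.sum_div]
    refine Finset.sum_congr rfl fun j _ => ?_
    ring
  rw [h4] at h3
  have h5 := mul_le_mul_of_nonneg_left h3 hk0.le
  have h6 : (k : ℝ) * (dotR x (s - s₀) / k - g s + g s₀) = ph g s₀ k x s := by
    unfold ph
    field_simp
    ring
  have h7 : (k : ℝ) * (B * (‖x - (k : ℝ) • grad g s₀‖ / k) ^ 2)
      = B * ‖x - (k : ℝ) • grad g s₀‖ ^ 2 / k := by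
    field_simp
  rwa [h6, h7] at h5

theorem ph_le' {g : Rn n → ℝ} {s₀ : Rn n} {r₀ B : ℝ} (hB : 0 < B) (hQ : Qd g s₀ r₀ B) {k : ℕ}
    (hk : 1 ≤ k) {x : Rn n} (hx : ‖x - (k : ℝ) • grad g s₀‖ ≤ r₀ * k) (s : Rn n) :
    ph g s₀ k x s ≤ B * (r₀ * k) ^ 2 / k := by
  refine (ph_le hQ hk hx s).trans ?_
  have hk0 : (0 : ℝ) < k := by exact_mod_cast hk
  gcongr

theorem integrable_ex {g : Rn n → ℝ} (hg : Continuous g) (ν : Measure (Rn n)) [IsFiniteMeasure ν]
    {s₀ : Rn n} {k : ℕ} {ζ : Cn n} {M : ℝ} (hM : ∀ s, ph g s₀ k (reV ζ) s ≤ M) :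
    Integrable (ex g s₀ k ζ) ν := by
  refine Integrable.of_bound (cont_ex hg s₀ k ζ).aestronglyMeasurable (Real.exp M) ?_
  refine Eventually.of_forall fun s => ?_
  rw [norm_ex]
  exact Real.exp_le_exp.2 (hM s)

/-- the linear part of the exponent -/
noncomputable def lin (s₀ s : Rn n) : Cn n →L[ℂ] ℂ :=
  ∑ j, ((s j - s₀ j : ℝ) : ℂ) • ContinuousLinearMap.proj (R := ℂ) (φ := fun _ : Fin n => ℂ) j

theorem lin_apply (s₀ s : Rn n) (ζ : Cn n) :
    lin s₀ s ζ = ∑ j, ζ j * ((s j - s₀ j : ℝ) : ℂ) := by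
  simp only [lin, sum_apply, smul_apply,
    ContinuousLinearMap.proj_apply, smul_eq_mul]
  exact Finset.sum_congr rfl fun j _ => mul_comm _ _

theorem norm_lin (s₀ s : Rn n) : ‖lin s₀ s‖ ≤ ∑ j, |s j - s₀ j| := by
  refine ContinuousLinearMap.opNorm_le_bound _ (by positivity) fun ζ => ?_
  rw [lin_apply, Finset.sum_mul]
  refine (norm_sum_le _ _).trans (Finset.sum_le_sum fun j _ => ?_)
  rw [norm_mul, Complex.norm_real, Real.norm_eq_abs, mul_comm]
  exact mul_le_mul_of_nonneg_left (norm_le_pi_norm ζ j) (abs_nonneg _)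

theorem cont_lin (s₀ : Rn n) : Continuous (lin s₀) := by
  unfold lin
  fun_prop

theorem hasFDerivAt_ex (g : Rn n → ℝ) (s₀ : Rn n) (k : ℕ) (s : Rn n) (ζ : Cn n) :
    HasFDerivAt (fun z => ex g s₀ k z s) (ex g s₀ k ζ s • lin s₀ s) ζ := by
  have h1 : HasFDerivAt (fun z : Cn n => lin s₀ s z - k * ((g s - g s₀ : ℝ) : ℂ)) (lin s₀ s) ζ :=
    (lin s₀ s).hasFDerivAt.sub_const _
  have h2 := h1.cexp
  simpa only [lin_apply, ex] using h2

theorem norm_reV_sub (ζ ζ' : Cn n) : ‖reV ζ - reV ζ'‖ ≤ ‖ζ - ζ'‖ := by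
  refine (pi_norm_le_iff_of_nonneg (norm_nonneg _)).2 fun j => ?_
  have h1 : (reV ζ - reV ζ') j = ((ζ - ζ') j).re := by
    simp only [reV, Pi.sub_apply, Complex.sub_re]
  rw [h1, Real.norm_eq_abs]
  exact (Complex.abs_re_le_norm _).trans (norm_le_pi_norm (ζ - ζ') j)

theorem deriv_bound {g : Rn n → ℝ} {s₀ : Rn n} {k : ℕ} {c : Rn n} {R M δ : ℝ} (hδ : 0 < δ)
    (hM : ∀ x, ‖x - c‖ ≤ R → ∀ s, ph g s₀ k x s ≤ M) {x : Rn n} (hx : ‖x - c‖ + δ ≤ R)
    (s : Rn n) : Real.exp (ph g s₀ k x s) * ∑ j, |s j - s₀ j| ≤ Real.exp M / δ := by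
  set v : Rn n := fun j => if 0 ≤ s j - s₀ j then δ else -δ with hv
  have hv1 : ‖v‖ ≤ δ := by
    refine (pi_norm_le_iff_of_nonneg hδ.le).2 fun j => ?_
    simp only [hv]
    split_ifs
    · rw [Real.norm_eq_abs, abs_of_pos hδ]
    · rw [Real.norm_eq_abs, abs_neg, abs_of_pos hδ]
  have hv2 : ‖x + v - c‖ ≤ R := by
    have : x + v - c = (x - c) + v := by abel
    rw [this]
    exact (norm_add_le _ _).trans (by linarith)
  have hv3 : ph g s₀ k (x + v) s = ph g s₀ k x s + δ * ∑ j, |s j - s₀ j| := by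
    have : dotR (x + v) (s - s₀) = dotR x (s - s₀) + δ * ∑ j, |s j - s₀ j| := by
      simp only [dotR, Finset.mul_sum, ← Finset.sum_add_distrib, Pi.add_apply, Pi.sub_apply]
      refine Finset.sum_congr rfl fun j _ => ?_
      simp only [hv]
      split_ifs with h
      · rw [abs_of_nonneg h]; ring
      · rw [abs_of_neg (not_le.1 h)]; ring
    unfold ph
    rw [this]
    ring
  have h1 := Real.exp_le_exp.2 (hM _ hv2 s)
  rw [hv3, Real.exp_add] at h1
  have h2 : δ * ∑ j, |s j - s₀ j| ≤ Real.exp (δ * ∑ j, |s j - s₀ j|) := by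
    have := Real.add_one_le_exp (δ * ∑ j, |s j - s₀ j|)
    linarith
  rw [le_div_iff₀ hδ]
  have h3 := mul_le_mul_of_nonneg_left h2 (Real.exp_pos (ph g s₀ k x s)).le
  calc Real.exp (ph g s₀ k x s) * (∑ j, |s j - s₀ j|) * δ
      = Real.exp (ph g s₀ k x s) * (δ * ∑ j, |s j - s₀ j|) := by ring
    _ ≤ _ := h3.trans h1

theorem hol {g : Rn n → ℝ} (hg : Continuous g) (ν : Measure (Rn n)) [IsFiniteMeasure ν]
    {s₀ : Rn n} {k : ℕ} {c : Rn n} {R M : ℝ}
    (hM : ∀ x, ‖x - c‖ ≤ R → ∀ s, ph g s₀ k x s ≤ M) :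
    DifferentiableOn ℂ (HH g ν s₀ k) {ζ | ‖reV ζ - c‖ < R} := by
  intro ζ₀ hζ₀
  have hζ₀' : ‖reV ζ₀ - c‖ < R := hζ₀
  set δ : ℝ := (R - ‖reV ζ₀ - c‖) / 2 with hδ
  have hδ0 : 0 < δ := by rw [hδ]; linarith
  have key : HasFDerivAt (fun z => ∫ s, ex g s₀ k z s ∂ν)
      (∫ s, ex g s₀ k ζ₀ s • lin s₀ s ∂ν) ζ₀ := by
    refine hasFDerivAt_integral_of_dominated_of_fderiv_le (𝕜 := ℂ)
      (F := fun z s => ex g s₀ k z s) (F' := fun z s => ex g s₀ k z s • lin s₀ s)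
      (bound := fun _ => Real.exp M / δ) (ball_mem_nhds ζ₀ hδ0) ?_ ?_ ?_ ?_ ?_ ?_
    · exact Eventually.of_forall fun z => (cont_ex hg s₀ k z).aestronglyMeasurable
    · exact integrable_ex hg ν (hM _ hζ₀'.le)
    · exact ((cont_ex hg s₀ k ζ₀).smul (cont_lin s₀)).aestronglyMeasurable
    · refine Eventually.of_forall fun s z hz => ?_
      have h1 : ‖reV z - c‖ + δ ≤ R := by
        have h2 : reV z - c = (reV z - reV ζ₀) + (reV ζ₀ - c) := by abel
        have h3 := norm_reV_sub z ζ₀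
        have h4 : ‖z - ζ₀‖ < δ := by simpa only [mem_ball, dist_eq_norm] using hz
        have h5 := norm_add_le (reV z - reV ζ₀) (reV ζ₀ - c)
        rw [← h2] at h5
        linarith
      rw [norm_smul, norm_ex]
      exact (mul_le_mul_of_nonneg_left (norm_lin s₀ s) (Real.exp_pos _).le).trans
        (deriv_bound hδ0 hM h1 s)
    · exact integrable_const _
    · exact Eventually.of_forall fun s z _ => hasFDerivAt_ex g s₀ k s z
  exact key.differentiableAt.differentiableWithinAt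

theorem integrable_exp {f : Rn n → ℝ} (hf : Continuous f) (ν : Measure (Rn n)) [IsFiniteMeasure ν]
    {M : ℝ} (hM : ∀ s, f s ≤ M) : Integrable (fun s => Real.exp (f s)) ν := by
  refine Integrable.of_bound (Real.continuous_exp.comp hf).aestronglyMeasurable (Real.exp M) ?_
  refine Eventually.of_forall fun s => ?_
  rw [Real.norm_eq_abs, abs_of_pos (Real.exp_pos _)]
  exact Real.exp_le_exp.2 (hM s)

theorem int_le {f : Rn n → ℝ} (hf : Continuous f) (ν : Measure (Rn n)) [IsFiniteMeasure ν]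
    {M : ℝ} (hM : ∀ s, f s ≤ M) : ∫ s, Real.exp (f s) ∂ν ≤ ν.real univ * Real.exp M := by
  have := integral_mono (integrable_exp hf ν hM) (integrable_const (Real.exp M))
    fun s => Real.exp_le_exp.2 (hM s)
  simpa only [integral_const, smul_eq_mul] using this

theorem le_int {f : Rn n → ℝ} (hf : Continuous f) (ν : Measure (Rn n)) [IsFiniteMeasure ν]
    {M : ℝ} (hM : ∀ s, f s ≤ M) {O : Set (Rn n)} (hO : MeasurableSet O) {m : ℝ}
    (hm : ∀ s ∈ O, m ≤ f s) : ν.real O * Real.exp m ≤ ∫ s, Real.exp (f s) ∂ν := by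
  have h1 : ∫ s in O, Real.exp (f s) ∂ν ≤ ∫ s, Real.exp (f s) ∂ν :=
    setIntegral_le_integral (integrable_exp hf ν hM)
      (Eventually.of_forall fun s => (Real.exp_pos _).le)
  have h2 : ∫ _ in O, Real.exp m ∂ν ≤ ∫ s in O, Real.exp (f s) ∂ν :=
    setIntegral_mono_on (integrable_const _) (integrable_exp hf ν hM).integrableOn hO
      fun s hs => Real.exp_le_exp.2 (hm s hs)
  rw [setIntegral_const, smul_eq_mul] at h2
  exact h2.trans h1

theorem real_pos (ν : Measure (Rn n)) [IsFiniteMeasure ν] [ν.IsOpenPosMeasure] {O : Set (Rn n)}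
    (hO : IsOpen O) (hne : O.Nonempty) : 0 < ν.real O :=
  ENNReal.toReal_pos (hO.measure_pos ν hne).ne' (measure_ne_top ν O)

theorem int_pos {f : Rn n → ℝ} (hf : Continuous f) (ν : Measure (Rn n)) [IsFiniteMeasure ν]
    [ν.IsOpenPosMeasure] {M : ℝ} (hM : ∀ s, f s ≤ M) : 0 < ∫ s, Real.exp (f s) ∂ν := by
  have hO : IsOpen {s | f 0 - 1 < f s} := isOpen_lt continuous_const hf
  have h1 := le_int hf ν hM hO.measurableSet (m := f 0 - 1) fun s hs => le_of_lt hs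
  have h2 := real_pos ν hO ⟨0, by simp⟩
  exact lt_of_lt_of_le (mul_pos h2 (Real.exp_pos _)) h1

theorem laplace {ψ : Rn n → ℝ} (hψ : Continuous ψ) (ν : Measure (Rn n)) [IsFiniteMeasure ν]
    [ν.IsOpenPosMeasure] {M : ℝ} (hM : ∀ s, ψ s ≤ M) :
    Tendsto (fun k : ℕ => Real.log (∫ s, Real.exp (k * ψ s) ∂ν) / k) atTop (𝓝 (⨆ s, ψ s)) := by
  set L : ℝ := ⨆ s, ψ s with hL
  have hb : BddAbove (range ψ) := ⟨M, by rintro _ ⟨s, rfl⟩; exact hM s⟩
  have hle : ∀ s, ψ s ≤ L := fun s => le_ciSup hb s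
  have hc : ∀ k : ℕ, Continuous fun s => (k : ℝ) * ψ s := fun k => continuous_const.mul hψ
  have hk : ∀ (k : ℕ) s, (k : ℝ) * ψ s ≤ k * L := fun k s =>
    mul_le_mul_of_nonneg_left (hle s) (Nat.cast_nonneg k)
  have hdiv : ∀ a b : ℝ, Tendsto (fun k : ℕ => a / k + b) atTop (𝓝 b) := fun a b => by
    simpa using (tendsto_const_div_atTop_nhds_zero_nat a).add_const b
  have hlog : ∀ (a b : ℝ) (k : ℕ), 0 < a → 1 ≤ k →
      Real.log (a * Real.exp (k * b)) / k = Real.log a / k + b := by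
    intro a b k ha hk1
    have hk0 : (0 : ℝ) < k := by exact_mod_cast hk1
    rw [Real.log_mul ha.ne' (Real.exp_pos _).ne', Real.log_exp]
    field_simp
  rw [tendsto_order]
  constructor
  · intro a ha
    obtain ⟨b, hab, hbL⟩ := exists_between ha
    obtain ⟨s₁, hs₁⟩ := exists_lt_of_lt_ciSup hbL
    have hO : IsOpen {s | b < ψ s} := isOpen_lt continuous_const hψ
    have hp := real_pos ν hO ⟨s₁, hs₁⟩
    have h1 := (hdiv (Real.log (ν.real {s | b < ψ s})) b).eventually (lt_mem_nhds hab)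
    filter_upwards [h1, eventually_ge_atTop 1] with k h2 hk1
    refine lt_of_lt_of_le h2 ?_
    rw [← hlog _ _ k hp hk1]
    have h3 := le_int (hc k) ν (hk k) hO.measurableSet (m := k * b) fun s hs =>
      mul_le_mul_of_nonneg_left (le_of_lt hs) (Nat.cast_nonneg k)
    exact div_le_div_of_nonneg_right
      (Real.log_le_log (mul_pos hp (Real.exp_pos _)) h3) (Nat.cast_nonneg k)
  · intro a ha
    have hp := real_pos ν (isOpen_univ (X := Rn n)) univ_nonempty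
    have h1 := (hdiv (Real.log (ν.real univ)) L).eventually (gt_mem_nhds ha)
    filter_upwards [h1, eventually_ge_atTop 1] with k h2 hk1
    refine lt_of_le_of_lt ?_ h2
    rw [← hlog _ _ k hp hk1]
    exact div_le_div_of_nonneg_right
      (Real.log_le_log (int_pos (hc k) ν (hk k)) (int_le (hc k) ν (hk k))) (Nat.cast_nonneg k)

theorem HH_real (g : Rn n → ℝ) (ν : Measure (Rn n)) (s₀ : Rn n) (k : ℕ) (ζ : Cn n)
    (h : imV ζ = 0) :
    HH g ν s₀ k ζ = ((∫ s, Real.exp (ph g s₀ k (reV ζ) s) ∂ν : ℝ) : ℂ) := by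
  rw [HH, ← integral_complex_ofReal]
  exact integral_congr_ae (Eventually.of_forall fun s => ex_real g s₀ k ζ h s)

end HbX

open HbX in
theorem hb : HB := by
  intro n g ν s₀ r₀ B hg hν hνo _ hB hQ
  refine ⟨fun k hk => ⟨hol hg ν (M := B * (r₀ * k) ^ 2 / k) fun x hx s => ph_le' hB hQ hk hx s,
    fun ζ hζ => ⟨?_, fun him => ?_⟩⟩, fun η hη => ?_⟩
  · refine (norm_integral_le_integral_norm _).trans ?_
    simp only [norm_ex]
    exact int_le (cont_ph hg s₀ k _) ν (ph_le hQ hk hζ)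
  · rw [HH_real g ν s₀ k ζ him]
    exact_mod_cast (int_pos (cont_ph hg s₀ k _) ν (ph_le hQ hk hζ)).ne'
  · have hψ : Continuous fun s => dotR η (s - s₀) - g s + g s₀ := by
      unfold dotR
      fun_prop
    refine (laplace hψ ν (hQ η hη)).congr fun k => ?_
    have him : imV ((k : ℂ) • rc η) = 0 := by
      funext j
      simp [imV, rc]
    have hre : ∀ s, ph g s₀ k (reV ((k : ℂ) • rc η)) s
        = k * (dotR η (s - s₀) - g s + g s₀) := by
      intro s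
      have : dotR (reV ((k : ℂ) • rc η)) (s - s₀) = k * dotR η (s - s₀) := by
        simp only [dotR, Finset.mul_sum]
        refine Finset.sum_congr rfl fun j _ => ?_
        simp [reV, rc, mul_assoc]
      unfold ph
      rw [this]
      ring
    rw [HH_real g ν s₀ k _ him, Complex.norm_real, Real.norm_eq_abs, Real.log_abs]
    simp only [hre]

end Pool.Agent.MP_6c43ae_an.Tr
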