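import Pool.Agent.MP_6c43ae_an.tr.Spec

/-! Project TORIC: bounded pointwise limits of holomorphic functions of several variables are
holomorphic, and holomorphic functions are analytic. -/

set_option autoImplicit false

open Set Filter Topology Metric
open scoped ContDiff Nat NNReal ENNReal

namespace Pool.Agent.MP_6c43ae_an.Tr

open Ct

theorem hl : HL := by
  intro n ι l V F f K hl hV hF hf c hc
  obtain ⟨R, hR, hs⟩ := Metric.isOpen_iff.1 hV c hc
  let u : Ultrafilter ι := Ultrafilter.of l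
  have hu : (u : Filter ι) ≤ l := Ultrafilter.of_le l
  have h1 : ∀ᶠ i in l, fderiv ℂ (F i) c ∈ closedBall (0 : Cn n →L[ℂ] ℂ) (K / R) := by
    filter_upwards [hF] with i hi
    rw [mem_closedBall_zero_iff]
    exact cauchy hR (hi.1.mono hs) fun z hz => hi.2 z (hs hz)
  obtain ⟨D, -, hD⟩ := (isCompact_closedBall (0 : Cn n →L[ℂ] ℂ) (K / R)).ultrafilter_le_nhds
    (u.map fun i => fderiv ℂ (F i) c) (by
      rw [Ultrafilter.coe_map, le_principal_iff, mem_map]
      exact hu h1)
  have hD' : Tendsto (fun i => fderiv ℂ (F i) c) u (𝓝 D) := hD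
  have est : ∀ z ∈ ball c R, ‖f z - f c - D (z - c)‖ ≤ 3 * K / R ^ 2 * ‖z - c‖ ^ 2 := by
    intro z hz
    have h2 : Tendsto (fun i => fderiv ℂ (F i) c (z - c)) u (𝓝 (D (z - c))) :=
      ((ContinuousLinearMap.apply ℂ ℂ (z - c)).continuous.tendsto D).comp hD'
    have h3 := ((((hf z (hs hz)).mono_left hu).sub ((hf c hc).mono_left hu)).sub h2).norm
    refine le_of_tendsto h3 (hu ?_)
    filter_upwards [hF] with i hi
    exact schwarz2 (hi.1.mono hs) (fun w hw => hi.2 w (hs hw)) hz
  have hO : (fun z => f z - f c - D (z - c)) =O[𝓝 c] fun z => ‖z - c‖ ^ 2 := by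
    refine Asymptotics.IsBigO.of_bound (3 * K / R ^ 2) ?_
    filter_upwards [ball_mem_nhds c hR] with z hz
    simpa using est z hz
  have hF : HasFDerivAt f D c := by
    rw [hasFDerivAt_iff_isLittleO]
    exact hO.trans_isLittleO (Asymptotics.isLittleO_pow_sub_sub c one_lt_two)
  exact hF.differentiableAt.differentiableWithinAt

namespace HlX

variable {d : ℕ}

theorem bdd_ball {V : Set (Cn d)} (hV : IsOpen V) {f : Cn d → ℂ} (hc : ContinuousOn f V) {y : Cn d}
    (hy : y ∈ V) : ∃ R M : ℝ, 0 < R ∧ ball y R ⊆ V ∧ ∀ z ∈ ball y R, ‖f z‖ ≤ M := by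
  have h1 : ∀ᶠ z in 𝓝 y, ‖f z‖ < ‖f y‖ + 1 :=
    (hc.continuousAt (hV.mem_nhds hy)).norm.eventually (gt_mem_nhds (lt_add_one _))
  obtain ⟨R, hR, h⟩ := Metric.eventually_nhds_iff_ball.1 (h1.and (hV.mem_nhds hy))
  exact ⟨R, ‖f y‖ + 1, hR, fun z hz => (h z hz).2, fun z hz => (h z hz).1.le⟩

theorem hol_fderiv (h : HL) {V : Set (Cn d)} (hV : IsOpen V) {f : Cn d → ℂ}
    (hf : DifferentiableOn ℂ f V) (w : Cn d) :
    DifferentiableOn ℂ (fun z => fderiv ℂ f z w) V := by
  intro y hy
  obtain ⟨R, M, hR, hs, hM⟩ := HlX.bdd_ball hV hf.continuousOn hy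
  have hR2 : 0 < R / 2 := by positivity
  have hsub : ∀ z ∈ ball y (R / 2), ball z (R / 2) ⊆ ball y R := fun z hz =>
    ball_subset_ball' (by linarith [mem_ball.1 hz])
  have hsm : ∀ᶠ t : ℂ in 𝓝[≠] 0, ‖t • w‖ < R / 2 := by
    have : Tendsto (fun t : ℂ => ‖t • w‖) (𝓝 0) (𝓝 0) := by
      simpa using (Continuous.tendsto (f := fun t : ℂ => ‖t • w‖) (by fun_prop) 0)
    exact (this.eventually (gt_mem_nhds hR2)).filter_mono nhdsWithin_le_nhds
  have hmem : ∀ (z : Cn d) (t : ℂ), ‖t • w‖ < R / 2 → z + t • w ∈ ball z (R / 2) :=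
    fun z t ht => by simpa using ht
  have hD : DifferentiableOn ℂ (fun z => fderiv ℂ f z w) (ball y (R / 2)) := by
    refine h d ℂ (𝓝[≠] (0 : ℂ)) _ (fun t z => t⁻¹ * (f (z + t • w) - f z)) _
      (2 * M / (R / 2) * ‖w‖) inferInstance isOpen_ball ?_ fun z hz => ?_
    · filter_upwards [hsm, self_mem_nhdsWithin] with t ht ht0
      refine ⟨DifferentiableOn.const_mul (DifferentiableOn.sub ?_ ?_) _, fun z hz => ?_⟩
      · exact hf.comp (by fun_prop) fun z hz => hs (hsub z hz (hmem z t ht))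
      · exact hf.mono fun z hz => hs (hsub z hz (mem_ball_self hR2))
      · have ht0' : t ≠ 0 := ht0
        have hn : 0 < ‖t‖ := norm_pos_iff.2 ht0'
        have e := schwarz1 (hf.mono ((hsub z hz).trans hs)) (fun v hv => hM v (hsub z hz hv))
          (hmem z t ht)
        rw [add_sub_cancel_left, norm_smul] at e
        rw [norm_mul, norm_inv, inv_mul_le_iff₀ hn]
        refine e.trans_eq ?_
        ring
    · have hz' : z ∈ V := hs (hsub z hz (mem_ball_self hR2))
      have h1 : HasDerivAt (fun t : ℂ => z + t • w) w 0 := by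
        simpa using ((hasDerivAt_id (0 : ℂ)).smul_const w).const_add z
      have h2 : HasDerivAt (fun t : ℂ => f (z + t • w)) (fderiv ℂ f z w) 0 :=
        HasFDerivAt.comp_hasDerivAt_of_eq (0 : ℂ)
          (hf.differentiableAt (hV.mem_nhds hz')).hasFDerivAt h1 (by simp)
      simpa using h2.tendsto_slope_zero
  exact (hD.differentiableAt (ball_mem_nhds y hR2)).differentiableWithinAt

theorem hol_contDiffOn (h : HL) {V : Set (Cn d)} (hV : IsOpen V) {f : Cn d → ℂ} (hf : DifferentiableOn ℂ f V) :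
    ContDiffOn ℂ ∞ f V := by
  rw [contDiffOn_infty]
  intro n
  induction n generalizing f with
  | zero => exact contDiffOn_zero.2 hf.continuousOn
  | succ n ih =>
    rw [Nat.cast_succ, contDiffOn_succ_iff_fderiv_of_isOpen hV]
    exact ⟨hf, by simp, contDiffOn_clm_apply.2 fun w => ih (HlX.hol_fderiv h hV hf w)⟩

lemma iter_diff (h : HL) {V : Set (Cn d)} (hV : IsOpen V) {f : Cn d → ℂ} (hf : DifferentiableOn ℂ f V) (n : ℕ)
    {z : Cn d} (hz : z ∈ V) : DifferentiableAt ℂ (iteratedFDeriv ℂ n f) z :=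
  ((HlX.hol_contDiffOn h hV hf).contDiffAt (hV.mem_nhds hz)).differentiableAt_iteratedFDeriv
    (by exact_mod_cast ENat.natCast_lt_top n)

lemma iter_bound (hl : HL) {f : Cn d → ℂ} {y : Cn d} {R M δ : ℝ} (hδ : 0 < δ)
    (hf : DifferentiableOn ℂ f (ball y R)) (hM : ∀ z ∈ ball y R, ‖f z‖ ≤ M) (n : ℕ) :
    ∀ z : Cn d, dist z y + n * δ < R → ‖iteratedFDeriv ℂ n f z‖ ≤ M * (2 / δ) ^ n := by
  induction n with
  | zero =>
    intro z hz
    rw [norm_iteratedFDeriv_zero]
    simpa using hM z (by simpa using hz)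
  | succ n ih =>
    intro z hz
    have hn : (0 : ℝ) ≤ n * δ := by positivity
    have hw : ∀ w ∈ ball z δ, dist w y + n * δ < R := fun w hw => by
      have h1 := dist_triangle w z y
      have h2 := mem_ball.1 hw
      push_cast at hz
      linarith
    rw [← norm_fderiv_iteratedFDeriv]
    refine (Complex.norm_fderiv_le_div_of_mapsTo_ball (R₁ := δ) (R₂ := 2 * (M * (2 / δ) ^ n))
      (fun w h => (iter_diff hl isOpen_ball hf n
        (mem_ball.2 (by linarith [hw w h]))).differentiableWithinAt) (fun w h => ?_) hδ).trans_eq ?_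
    · rw [mem_closedBall, dist_eq_norm]
      have h1 := norm_sub_le (iteratedFDeriv ℂ n f w) (iteratedFDeriv ℂ n f z)
      linarith [ih w (hw w h), ih z (hw z (mem_ball_self hδ))]
    · rw [pow_succ]
      ring

lemma iter_line (h : HL) {V : Set (Cn d)} (hV : IsOpen V) {f : Cn d → ℂ} (hf : DifferentiableOn ℂ f V)
    (y v : Cn d) (n : ℕ) : ∀ t : ℂ, y + t • v ∈ V →
      iteratedDeriv n (fun s : ℂ => f (y + s • v)) t =
        iteratedFDeriv ℂ n f (y + t • v) fun _ => v := by
  induction n with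
  | zero => intro t _; simp
  | succ n ih =>
    intro t ht
    have hc : Continuous fun s : ℂ => y + s • v := by fun_prop
    have he : iteratedDeriv n (fun s : ℂ => f (y + s • v)) =ᶠ[𝓝 t]
        fun s => iteratedFDeriv ℂ n f (y + s • v) fun _ => v := by
      filter_upwards [(hV.preimage hc).mem_nhds ht] with s hs using ih s hs
    have h1 : HasDerivAt (fun s : ℂ => y + s • v) v t := by
      simpa using ((hasDerivAt_id t).smul_const v).const_add y
    have h2 := (iter_diff h hV hf n ht).hasFDerivAt.comp_hasDerivAt t h1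
    have h3 := (ContinuousMultilinearMap.apply ℂ (fun _ : Fin n => Cn d) ℂ
      fun _ => v).hasFDerivAt.comp_hasDerivAt t h2
    rw [iteratedDeriv_succ, he.deriv_eq, iteratedFDeriv_succ_apply_left]
    exact h3.deriv

end HlX

open HlX

theorem an (h : HL) : AN := by
  intro d V f hV hf y hy
  obtain ⟨R, M, hR, hs, hM⟩ := HlX.bdd_ball hV hf.continuousOn hy
  have hM0 : 0 ≤ M := (norm_nonneg _).trans (hM y (mem_ball_self hR))
  have hfb := hf.mono hs
  have he : 1 ≤ Real.exp 1 := Real.one_le_exp zero_le_one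
  let r : ℝ≥0 := ⟨R / (4 * Real.exp 1), by positivity⟩
  have hr : (r : ℝ) = R / (4 * Real.exp 1) := rfl
  have hr0 : (0 : ℝ) < r := by rw [hr]; positivity
  refine ⟨fun n => (n ! : ℂ)⁻¹ • iteratedFDeriv ℂ n f y, r,
    FormalMultilinearSeries.le_radius_of_bound _ M fun n => ?_, by exact_mod_cast hr0,
    fun {v} hv => ?_⟩
  · rcases Nat.eq_zero_or_pos n with rfl | hn
    · simpa using hM y (mem_ball_self hR)
    have hn' : (0 : ℝ) < n := by exact_mod_cast hn
    have h1 := iter_bound h (δ := R / (2 * n)) (by positivity) hfb hM n y (by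
      have : (n : ℝ) * (R / (2 * n)) = R / 2 := by field_simp
      rw [dist_self, zero_add, this]
      linarith)
    have h2 : (n : ℝ) ^ n / n ! ≤ Real.exp 1 ^ n := by
      rw [← Real.exp_nat_mul, mul_one]
      exact Real.pow_div_factorial_le_exp _ hn'.le n
    have h3 : 2 / (R / (2 * n)) * (R / (4 * Real.exp 1)) = n / Real.exp 1 := by
      field_simp
      ring
    rw [norm_smul, norm_inv, Complex.norm_natCast, hr]
    calc (n ! : ℝ)⁻¹ * ‖iteratedFDeriv ℂ n f y‖ * (R / (4 * Real.exp 1)) ^ n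
        ≤ (n ! : ℝ)⁻¹ * (M * (2 / (R / (2 * n))) ^ n) * (R / (4 * Real.exp 1)) ^ n := by gcongr
      _ = M * (((n : ℝ) ^ n / n !) / Real.exp 1 ^ n) := by
          rw [mul_assoc, mul_assoc, ← mul_pow, h3, div_pow]
          ring
      _ ≤ M * 1 := mul_le_mul_of_nonneg_left ((div_le_one (by positivity)).2 h2) hM0
      _ = M := mul_one M
  · rw [Metric.eball_coe, mem_ball_zero_iff, hr] at hv
    have hv' : ‖v‖ < R / 4 :=
      hv.trans_le (div_le_div_of_nonneg_left hR.le (by norm_num) (by linarith))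
    have hm : ∀ t ∈ ball (0 : ℂ) 2, y + t • v ∈ ball y R := fun t ht => by
      rw [mem_ball_zero_iff] at ht
      rw [add_mem_ball_iff_norm, norm_smul]
      nlinarith [norm_nonneg t, norm_nonneg v]
    have hg : DifferentiableOn ℂ (fun s : ℂ => f (y + s • v)) (ball 0 2) :=
      hfb.comp (by fun_prop) hm
    have h1 := Complex.hasSum_taylorSeries_on_ball hg (z := 1) (by simp)
    simp only [sub_zero, one_pow, one_smul] at h1
    have h2 : ∀ n : ℕ, iteratedDeriv n (fun s : ℂ => f (y + s • v)) 0 =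
        iteratedFDeriv ℂ n f y fun _ => v := fun n => by
      simpa using iter_line h hV hf y v n 0 (by simpa using hy)
    simp only [h2] at h1
    exact h1

end Pool.Agent.MP_6c43ae_an.Tr
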