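import Mathlib
import Pool.Agent.MP_6c43ae_an.tr.Spec

/-! Project TORIC: limits of logarithms of functions without zeros. -/

set_option autoImplicit false

open MeasureTheory Set Filter Topology Metric

namespace Pool.Agent.MP_6c43ae_an.Tr

namespace LgX

variable {n : ℕ}

theorem holLog {U : Set (Cn n)} (hU : IsOpen U) {l f : Cn n → ℂ} (hl : ContinuousOn l U)
    (he : EqOn (Complex.exp ∘ l) f U) (hf : DifferentiableOn ℂ f U) :
    DifferentiableOn ℂ l U := by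
  intro z hz
  have hUz : U ∈ 𝓝 z := hU.mem_nhds hz
  have hlz : ContinuousAt l z := hl.continuousAt hUz
  have hfz : DifferentiableAt ℂ f z := hf.differentiableAt hUz
  have hf0 : f z ≠ 0 := by
    rw [← he hz]; exact Complex.exp_ne_zero _
  have h1 : ∀ᶠ w in 𝓝 z, dist (l w) (l z) < 1 := hlz.eventually (ball_mem_nhds _ one_pos)
  have h2 : l =ᶠ[𝓝 z] fun w => l z + Complex.log (f w / f z) := by
    filter_upwards [h1, hUz] with w hw hwU
    have e1 : f w / f z = Complex.exp (l w - l z) := by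
      rw [Complex.exp_sub, ← he hwU, ← he hz]; rfl
    have e2 : |(l w - l z).im| < 1 := by
      rw [dist_eq_norm] at hw
      exact (Complex.abs_im_le_norm _).trans_lt hw
    have e3 := abs_lt.mp e2
    rw [e1, Complex.log_exp (by linarith [Real.pi_gt_three]) (by linarith [Real.pi_gt_three])]
    ring
  have h3 : DifferentiableAt ℂ (fun w => l z + Complex.log (f w / f z)) z := by
    have hq : DifferentiableAt ℂ (fun w => f w / f z) z := by
      simp only [div_eq_mul_inv]; exact hfz.mul_const _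
    refine (DifferentiableAt.clog hq ?_).const_add _
    rw [div_self hf0]; exact Complex.one_mem_slitPlane
  exact (h3.congr_of_eventuallyEq h2).differentiableWithinAt

theorem root (c : Cn n) {r K : ℝ} (hr : 0 < r) (f : Cn n → ℂ) (k : ℕ) (hk : 1 ≤ k)
    (hf : DifferentiableOn ℂ f (ball c r))
    (hb : ∀ ζ ∈ ball c r, Real.exp (-(K * k)) ≤ ‖f ζ‖ ∧ ‖f ζ‖ ≤ Real.exp (K * k)) :
    ∃ w : Cn n → ℂ, DifferentiableOn ℂ w (ball c r) ∧ ∀ ζ ∈ ball c r,
      Real.exp (-K) ≤ ‖w ζ‖ ∧ ‖w ζ‖ ≤ Real.exp K ∧ Real.log ‖w ζ‖ = Real.log ‖f ζ‖ / k := by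
  have hc : ContractibleSpace (ball c r) :=
    (convex_ball c r).contractibleSpace ⟨c, mem_ball_self hr⟩
  have hs : IsSimplyConnected (ball c r) := by
    unfold IsSimplyConnected; infer_instance
  have h0 : (0 : ℂ) ∉ f '' ball c r := by
    rintro ⟨ζ, hζ, h⟩
    have := (hb ζ hζ).1
    rw [h, norm_zero] at this
    exact absurd this (not_le.mpr (Real.exp_pos _))
  obtain ⟨l, hl, he⟩ := Complex.exists_continuousOn_eqOn_exp_comp hs isOpen_ball hf.continuousOn h0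
  have hd := holLog isOpen_ball hl he hf
  have hk0 : (0 : ℝ) < k := by exact_mod_cast hk
  have hq : DifferentiableOn ℂ (fun ζ => l ζ / (k : ℂ)) (ball c r) := by
    simp only [div_eq_mul_inv]; exact hd.mul_const _
  refine ⟨fun ζ => Complex.exp (l ζ / (k : ℂ)), hq.cexp, fun ζ hζ => ?_⟩
  have e1 : ‖f ζ‖ = Real.exp (l ζ).re := by
    rw [← he hζ]; exact Complex.norm_exp _
  have e2 : ‖Complex.exp (l ζ / (k : ℂ))‖ = Real.exp ((l ζ).re / k) := by
    rw [Complex.norm_exp, Complex.div_natCast_re]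
  obtain ⟨b1, b2⟩ := hb ζ hζ
  rw [e1, Real.exp_le_exp] at b1 b2
  rw [e2, e1, Real.log_exp, Real.log_exp, Real.exp_le_exp, Real.exp_le_exp]
  refine ⟨?_, ?_, rfl⟩
  · rw [le_div_iff₀ hk0]; linarith
  · rw [div_le_iff₀ hk0]; linarith

/-- the inclusion of real vectors as a continuous linear map -/
noncomputable def rcL (n : ℕ) : Rn n →L[ℝ] Cn n :=
  ContinuousLinearMap.pi fun j => Complex.ofRealCLM.comp (ContinuousLinearMap.proj j)

theorem rcL_apply (η : Rn n) : rcL n η = rc η := rfl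

theorem rc_mem {η₀ η : Rn n} {r : ℝ} (hr : 0 < r) (h : η ∈ ball η₀ r) :
    rc η ∈ ball (rc η₀) r := by
  rw [mem_ball, dist_pi_lt_iff hr] at h ⊢
  intro j
  have := h j
  rw [Real.dist_eq] at this
  rw [dist_eq_norm]
  show ‖(η j : ℂ) - (η₀ j : ℂ)‖ < r
  rw [← Complex.ofReal_sub, Complex.norm_real, Real.norm_eq_abs]
  exact this

theorem analytic_log_norm {w : Cn n → ℂ} {η₀ : Rn n} (hw : AnalyticAt ℂ w (rc η₀))
    (h0 : w (rc η₀) ≠ 0) : AnalyticAt ℝ (fun η => Real.log ‖w (rc η)‖) η₀ := by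
  have h1 : AnalyticAt ℝ (fun η => w (rc η)) η₀ := by
    have a : AnalyticAt ℝ w (rcL n η₀) := hw.restrictScalars
    exact a.comp ((rcL n).analyticAt η₀)
  have h2 : AnalyticAt ℝ (fun η => (w (rc η)).re) η₀ :=
    (Complex.reCLM.analyticAt _).comp h1
  have h3 : AnalyticAt ℝ (fun η => (w (rc η)).im) η₀ :=
    (Complex.imCLM.analyticAt _).comp h1
  have h4 : AnalyticAt ℝ (fun η => (w (rc η)).re * (w (rc η)).re
      + (w (rc η)).im * (w (rc η)).im) η₀ := (h2.mul h2).add (h3.mul h3)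
  have h5 : 0 < (w (rc η₀)).re * (w (rc η₀)).re + (w (rc η₀)).im * (w (rc η₀)).im := by
    rw [← Complex.normSq_apply]; exact Complex.normSq_pos.mpr h0
  have h7 : AnalyticAt ℝ (fun η => Real.log ((w (rc η)).re * (w (rc η)).re
      + (w (rc η)).im * (w (rc η)).im)) η₀ :=
    AnalyticAt.comp (g := Real.log) (f := fun η => (w (rc η)).re * (w (rc η)).re
      + (w (rc η)).im * (w (rc η)).im) (analyticAt_log h5) h4
  have h6 := h7.const_smul (c := (1 / 2 : ℝ))
  refine h6.congr (Eventually.of_forall fun η => ?_)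
  show (1 / 2 : ℝ) • Real.log _ = Real.log _
  rw [← Complex.normSq_apply, Complex.normSq_eq_norm_sq, Real.log_pow, smul_eq_mul]
  push_cast; ring

end LgX

open LgX in
theorem lg' (h1 : HL) (h2 : AN) : LG := by
  intro n η₀ r K f Ψ hr hf hΨ
  classical
  have hW : ∀ k : ℕ, ∃ w : Cn n → ℂ, (1 ≤ k ∧ DifferentiableOn ℂ (f k) (ball (rc η₀) r) ∧
      ∀ ζ ∈ ball (rc η₀) r, Real.exp (-(K * k)) ≤ ‖f k ζ‖ ∧ ‖f k ζ‖ ≤ Real.exp (K * k)) →
      DifferentiableOn ℂ w (ball (rc η₀) r) ∧ ∀ ζ ∈ ball (rc η₀) r,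
        Real.exp (-K) ≤ ‖w ζ‖ ∧ ‖w ζ‖ ≤ Real.exp K ∧ Real.log ‖w ζ‖ = Real.log ‖f k ζ‖ / k := by
    intro k
    by_cases h : 1 ≤ k ∧ DifferentiableOn ℂ (f k) (ball (rc η₀) r) ∧
      ∀ ζ ∈ ball (rc η₀) r, Real.exp (-(K * k)) ≤ ‖f k ζ‖ ∧ ‖f k ζ‖ ≤ Real.exp (K * k)
    · obtain ⟨w, hw⟩ := root (rc η₀) hr (f k) k h.1 h.2.1 h.2.2
      exact ⟨w, fun _ => hw⟩
    · exact ⟨0, fun h' => absurd h' h⟩
  choose W hW using hW
  let U : Ultrafilter ℕ := hyperfilter ℕ
  have hU : (U : Filter ℕ) ≤ atTop := Nat.hyperfilter_le_atTop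
  have hev : ∀ᶠ k in (U : Filter ℕ), DifferentiableOn ℂ (W k) (ball (rc η₀) r) ∧
      ∀ ζ ∈ ball (rc η₀) r, Real.exp (-K) ≤ ‖W k ζ‖ ∧ ‖W k ζ‖ ≤ Real.exp K ∧
        Real.log ‖W k ζ‖ = Real.log ‖f k ζ‖ / k := by
    refine Eventually.filter_mono hU ?_
    filter_upwards [hf, eventually_ge_atTop 1] with k hk hk1
    exact hW k ⟨hk1, hk⟩
  have hlim : ∀ z : Cn n, ∃ y : ℂ, z ∈ ball (rc η₀) r →
      Tendsto (fun k => W k z) (U : Filter ℕ) (𝓝 y) := by
    intro z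
    by_cases hz : z ∈ ball (rc η₀) r
    · have hle : (↑(U.map fun k => W k z) : Filter ℂ) ≤ 𝓟 (closedBall (0 : ℂ) (Real.exp K)) := by
        rw [Ultrafilter.coe_map, le_principal_iff, Filter.mem_map]
        filter_upwards [hev] with k hk
        simpa using (hk.2 z hz).2.1
      obtain ⟨y, -, hy⟩ := (isCompact_closedBall (0 : ℂ) (Real.exp K)).ultrafilter_le_nhds _ hle
      exact ⟨y, fun _ => hy⟩
    · exact ⟨0, fun h => absurd h hz⟩
  choose w hw using hlim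
  have hd : DifferentiableOn ℂ w (ball (rc η₀) r) :=
    h1 n ℕ U _ W w (Real.exp K) inferInstance isOpen_ball
      (hev.mono fun k hk => ⟨hk.1, fun z hz => (hk.2 z hz).2.1⟩) hw
  have han := h2 n _ w isOpen_ball hd
  have hne : ∀ z ∈ ball (rc η₀) r, w z ≠ 0 := by
    intro z hz
    have : Real.exp (-K) ≤ ‖w z‖ :=
      ge_of_tendsto (hw z hz).norm (hev.mono fun k hk => (hk.2 z hz).1)
    exact norm_pos_iff.mp ((Real.exp_pos _).trans_le this)
  have hc : rc η₀ ∈ ball (rc η₀) r := mem_ball_self hr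
  refine (analytic_log_norm (han _ hc) (hne _ hc)).congr ?_
  filter_upwards [ball_mem_nhds η₀ hr] with η hη
  have hz := rc_mem hr hη
  have t1 : Tendsto (fun k => Real.log ‖W k (rc η)‖) (U : Filter ℕ)
      (𝓝 (Real.log ‖w (rc η)‖)) :=
    (hw _ hz).norm.log (norm_ne_zero_iff.mpr (hne _ hz))
  have t2 : Tendsto (fun k => Real.log ‖W k (rc η)‖) (U : Filter ℕ) (𝓝 (Ψ η)) :=
    ((hΨ η hη).mono_left hU).congr' (hev.mono fun k hk => ((hk.2 _ hz).2.2).symm)
  exact tendsto_nhds_unique t1 t2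

end Pool.Agent.MP_6c43ae_an.Tr
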