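import Pool.Agent.MP_6c43ae_an.tr.Spec

/-! Project TORIC: the local theorem of Carlson type in several variables. -/

set_option autoImplicit false

open Set Metric

namespace Pool.Agent.MP_6c43ae_an.Tr

namespace McX

variable {n : ℕ}

lemma norm_cons_le (w : ℂ) (z : Cn n) (j : Zn (n + 1)) {r : ℝ} (h1 : ‖w - (j 0 : ℂ)‖ ≤ r)
    (h2 : ‖z - zc (Fin.tail j)‖ ≤ r) : ‖(Fin.cons w z : Cn (n + 1)) - zc j‖ ≤ r := by
  refine (pi_norm_le_iff_of_nonneg ((norm_nonneg _).trans h1)).2 fun i => ?_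
  refine Fin.cases ?_ (fun i => ?_) i
  · simpa [zc] using h1
  · simpa [zc, Fin.tail] using (norm_le_pi_norm (z - zc (Fin.tail j)) i).trans h2

lemma cons_mem (w : ℂ) (z : Cn n) (j : Zn (n + 1)) {r : ℝ} (h1 : ‖w - (j 0 : ℂ)‖ < r)
    (h2 : ‖z - zc (Fin.tail j)‖ < r) : (Fin.cons w z : Cn (n + 1)) ∈ ball (zc j) r := by
  rw [mem_ball, dist_eq_norm]
  exact (norm_cons_le w z j (le_max_left _ _) (le_max_right _ _)).trans_lt (max_lt h1 h2)

lemma head_le (z : Cn (n + 1)) (j : Zn (n + 1)) : ‖z 0 - (j 0 : ℂ)‖ ≤ ‖z - zc j‖ := by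
  simpa [zc] using norm_le_pi_norm (z - zc j) 0

lemma tail_le (z : Cn (n + 1)) (j : Zn (n + 1)) :
    ‖(Fin.tail z : Cn n) - zc (Fin.tail j)‖ ≤ ‖z - zc j‖ :=
  (pi_norm_le_iff_of_nonneg (norm_nonneg _)).2 fun i => by
    simpa [zc, Fin.tail] using norm_le_pi_norm (z - zc j) i.succ

lemma diff_left (z : Cn n) : Differentiable ℂ fun w : ℂ => (Fin.cons w z : Cn (n + 1)) :=
  differentiable_pi.2 fun i => by
    refine Fin.cases ?_ (fun i => ?_) i
    · simp
    · simp

lemma diff_right (w : ℂ) : Differentiable ℂ fun z : Cn n => (Fin.cons w z : Cn (n + 1)) :=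
  differentiable_pi.2 fun i => by
    refine Fin.cases ?_ (fun i => ?_) i
    · simp
    · simpa using differentiable_apply i

lemma zc_cons (a : ℤ) (β : Zn n) :
    (Fin.cons (a : ℂ) (zc β) : Cn (n + 1)) = zc (Fin.cons a β) := by
  funext i
  refine Fin.cases ?_ (fun i => ?_) i <;> simp [zc]

end McX

open McX

theorem mc (h : C1) : MC := by
  obtain ⟨Λ₁, hΛ₁, h1⟩ := h
  intro n
  induction n with
  | zero =>
    refine ⟨1, 1, 1, 1, 1, one_pos, one_pos, le_rfl, one_pos, le_rfl, one_pos, ?_⟩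
    intro m j₀ E A M₀ hm hA _ _ hl ζ _
    have hm' : (1 : ℝ) ≤ m := by exact_mod_cast hm
    have := hl j₀ (mem_ball_self (by linarith))
    rw [Subsingleton.elim ζ (zc j₀), one_pow, one_mul]
    have : 0 ≤ 1 * A * Real.exp (-1 * m) := by positivity
    linarith
  | succ n ih =>
    obtain ⟨τ, γ, κ, Λ, C, hτ, hγ, hγ1, hκ, hΛ, hC, ih⟩ := ih
    obtain ⟨L, hL⟩ := exists_nat_ge (max 1 (2 * (Real.log Λ₁ + 1) / κ))
    have hL1 : (1 : ℝ) ≤ L := (le_max_left _ _).trans hL
    have hL0 : (0 : ℝ) < L := by linarith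
    have hL2 : Real.log Λ₁ + 1 ≤ κ * L / 2 := by
      have := (div_le_iff₀ hκ).1 ((le_max_right _ _).trans hL)
      linarith
    have q16 : 1 / (16 * (L : ℝ)) ≤ 1 := by
      rw [div_le_one (by positivity)]
      linarith
    have q4 : 1 / (4 * (L : ℝ)) ≤ 1 := by
      rw [div_le_one (by positivity)]
      linarith
    obtain ⟨τ', t0, t1, t2⟩ : ∃ t : ℝ, 0 < t ∧ t ≤ τ ∧ t ≤ 1 / (16 * (L : ℝ)) :=
      ⟨min τ (1 / (16 * L)), lt_min hτ (by positivity), min_le_left _ _, min_le_right _ _⟩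
    obtain ⟨γ', g0, g1, g2⟩ : ∃ t : ℝ, 0 < t ∧ t ≤ γ ∧ t ≤ 1 / (4 * (L : ℝ)) :=
      ⟨min γ (1 / (4 * L)), lt_min hγ (by positivity), min_le_left _ _, min_le_right _ _⟩
    obtain ⟨κ', k0, k1, k2⟩ : ∃ t : ℝ, 0 < t ∧ t ≤ κ / 2 ∧ t ≤ 1 / (4 * (L : ℝ)) :=
      ⟨min (κ / 2) (1 / (4 * L)), lt_min (by positivity) (by positivity), min_le_left _ _,
        min_le_right _ _⟩
    have hΛΛ : 1 ≤ Λ₁ * Λ := one_le_mul_of_one_le_of_one_le hΛ₁ hΛ
    refine ⟨τ', γ', κ', Λ₁ * Λ, C + 1 + Real.exp (2 * L), t0, g0, g1.trans hγ1, k0, hΛΛ,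
      by positivity, ?_⟩
    intro m j₀ E A M₀ hm hA hE hg hl ζ hζ
    have hm' : (1 : ℝ) ≤ m := by exact_mod_cast hm
    have hM₀ : 0 ≤ M₀ := (norm_nonneg _).trans (hl j₀ (mem_ball_self (by linarith)))
    rw [mem_closedBall, dist_eq_norm] at hζ
    have hζm : ‖ζ - zc j₀‖ ≤ m := hζ.trans (mul_le_of_le_one_left (by linarith) (g1.trans hγ1))
    have ex0 : 0 < Real.exp (-κ' * m) := Real.exp_pos _
    have p0 : 0 ≤ (Λ₁ * Λ) ^ m * M₀ := by positivity
    by_cases hmL : m < L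
    · have hmL' : (m : ℝ) ≤ L := by exact_mod_cast hmL.le
      have b1 := hg ζ (by rw [mem_ball, dist_eq_norm]; linarith)
      have b2 : Real.exp (τ' * ‖ζ - zc j₀‖) ≤ Real.exp (2 * L) * Real.exp (-κ' * m) := by
        rw [← Real.exp_add, Real.exp_le_exp]
        have e1 : τ' * ‖ζ - zc j₀‖ ≤ 1 * m :=
          mul_le_mul (t2.trans q16) hζm (norm_nonneg _) zero_le_one
        have e2 : κ' * m ≤ 1 * m := mul_le_mul_of_nonneg_right (k2.trans q4) (by linarith)
        linarith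
      have b3 := mul_le_mul_of_nonneg_left b2 hA
      have b4 : 0 ≤ (C + 1) * A * Real.exp (-κ' * m) := by positivity
      nlinarith
    push Not at hmL
    have hLn : 0 < L := by exact_mod_cast hL0
    obtain ⟨m₁, hm₁⟩ : ∃ m₁ : ℕ, m₁ = m / L := ⟨_, rfl⟩
    have a1 : 1 ≤ m₁ := hm₁ ▸ (Nat.one_le_div_iff hLn).2 hmL
    have a1' : (1 : ℝ) ≤ m₁ := by exact_mod_cast a1
    have a2 : (m₁ : ℝ) * L ≤ m := by exact_mod_cast hm₁ ▸ Nat.div_mul_le_self m L
    have a3 : (m : ℝ) ≤ 2 * m₁ * L := by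
      have : m < (m₁ + 1) * L := by
        rw [hm₁, mul_comm]
        exact Nat.lt_mul_div_succ m hLn
      have : (m : ℝ) ≤ (m₁ + 1) * L := by exact_mod_cast this.le
      nlinarith
    have a4 : (m₁ : ℝ) ≤ m := le_trans (le_mul_of_one_le_right (by linarith) hL1) a2
    have a4' : m₁ ≤ m := by exact_mod_cast a4
    have a5 : 1 / (4 * (L : ℝ)) * m ≤ m₁ / 2 := by
      rw [div_mul_eq_mul_div, div_le_iff₀ (by positivity)]
      linarith
    have ht := (tail_le ζ j₀).trans hζ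
    have htm := (tail_le ζ j₀).trans hζm
    have key := h1 m₁ (j₀ 0) (fun w => E (Fin.cons w (Fin.tail ζ)))
      (Λ ^ m * M₀ + C * (A * Real.exp m₁) * Real.exp (-κ * m)) (A * Real.exp (τ' * (4 * m))) a1
      (hE.comp (diff_left _).differentiableOn fun w hw => cons_mem _ _ _
        (by rw [mem_ball, dist_eq_norm] at hw; linarith) (by linarith))
      (fun w hw => by
        rw [mem_closedBall, dist_eq_norm] at hw
        refine (hg _ (cons_mem _ _ _ (by linarith) (by linarith))).trans ?_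
        have := norm_cons_le w (Fin.tail ζ) j₀ (r := 4 * m) (by linarith) (by linarith)
        gcongr)
      (fun j hj => by
        have hj' : ‖(j : ℂ) - (j₀ 0 : ℂ)‖ ≤ m₁ := by
          rw [← Int.cast_sub, Complex.norm_intCast]
          exact_mod_cast hj
        refine ih m (Fin.tail j₀) (fun z => E (Fin.cons (j : ℂ) z)) (A * Real.exp m₁) M₀ hm
          (by positivity)
          (hE.comp (diff_right _).differentiableOn fun z hz => cons_mem _ _ _ (by linarith)
            (by rwa [mem_ball, dist_eq_norm] at hz))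
          (fun z hz => ?_) (fun β hβ => ?_) _ ?_
        · rw [mem_ball, dist_eq_norm] at hz
          refine (hg _ (cons_mem _ _ _ (by linarith) hz)).trans ?_
          have n0 := norm_nonneg (z - zc (Fin.tail j₀))
          have := norm_cons_le (j : ℂ) z j₀ (r := m₁ + ‖z - zc (Fin.tail j₀)‖) (by linarith)
            (by linarith)
          rw [mul_assoc, ← Real.exp_add]
          refine mul_le_mul_of_nonneg_left (Real.exp_le_exp.2 ?_) hA
          have e1 := mul_le_mul_of_nonneg_left this t0.le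
          have e2 : τ' * m₁ ≤ 1 * m₁ := mul_le_mul_of_nonneg_right (t2.trans q16) (by linarith)
          have e3 := mul_le_mul_of_nonneg_right t1 n0
          linarith
        · rw [mem_ball, dist_eq_norm] at hβ
          have := cons_mem (j : ℂ) (zc β) j₀ (by linarith) hβ
          rw [zc_cons] at this ⊢
          exact hl _ this
        · rw [mem_closedBall, dist_eq_norm]
          exact ht.trans (mul_le_mul_of_nonneg_right g1 (by linarith)))
      (ζ 0) (by
        rw [mem_closedBall, dist_eq_norm]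
        exact ((head_le ζ j₀).trans hζ).trans
          ((mul_le_mul_of_nonneg_right g2 (by linarith)).trans a5))
    simp only [Fin.cons_self_tail] at key
    refine key.trans ?_
    have c1 : Λ₁ ^ m₁ * (Λ ^ m * M₀) ≤ (Λ₁ * Λ) ^ m * M₀ := by
      rw [mul_pow, mul_assoc]
      exact mul_le_mul_of_nonneg_right (pow_le_pow_right₀ hΛ₁ a4') (by positivity)
    have c2 : Λ₁ ^ m₁ * Real.exp m₁ * Real.exp (-κ * m) ≤ Real.exp (-κ' * m) := by
      rw [← Real.exp_log (show 0 < Λ₁ by linarith), ← Real.exp_nat_mul, ← Real.exp_add,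
        ← Real.exp_add, Real.exp_le_exp]
      have e1 := mul_le_mul_of_nonneg_left hL2 (show (0 : ℝ) ≤ m₁ by linarith)
      have e2 := mul_le_mul_of_nonneg_left a2 hκ.le
      have e3 := mul_le_mul_of_nonneg_right k1 (show (0 : ℝ) ≤ m by linarith)
      nlinarith
    have c3 : Real.exp (τ' * (4 * m)) / 4 ^ m₁ ≤ Real.exp (-κ' * m) := by
      have e0 : Real.exp m₁ ≤ 4 ^ m₁ := by
        rw [← Real.exp_one_pow]
        exact pow_le_pow_left₀ (Real.exp_pos _).le (by linarith [Real.exp_one_lt_d9]) _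
      refine (div_le_div_of_nonneg_left (Real.exp_pos _).le (Real.exp_pos _) e0).trans ?_
      rw [← Real.exp_sub, Real.exp_le_exp]
      have e1 := mul_le_mul_of_nonneg_right t2 (show (0 : ℝ) ≤ 4 * m by linarith)
      have e2 := mul_le_mul_of_nonneg_right k2 (show (0 : ℝ) ≤ m by linarith)
      have e3 : 1 / (16 * (L : ℝ)) * (4 * m) = 1 / (4 * L) * m := by
        field_simp
        ring
      linarith
    have d2 := mul_le_mul_of_nonneg_left c2 (mul_nonneg hC.le hA)
    have d3 := mul_le_mul_of_nonneg_left c3 hA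
    have d4 : 0 ≤ Real.exp (2 * L) * A * Real.exp (-κ' * m) := by positivity
    calc Λ₁ ^ m₁ * (Λ ^ m * M₀ + C * (A * Real.exp m₁) * Real.exp (-κ * m))
          + A * Real.exp (τ' * (4 * m)) / 4 ^ m₁
        = Λ₁ ^ m₁ * (Λ ^ m * M₀) + C * A * (Λ₁ ^ m₁ * Real.exp m₁ * Real.exp (-κ * m))
          + A * (Real.exp (τ' * (4 * m)) / 4 ^ m₁) := by ring
      _ ≤ (Λ₁ * Λ) ^ m * M₀ + C * A * Real.exp (-κ' * m) + A * Real.exp (-κ' * m)
          + Real.exp (2 * L) * A * Real.exp (-κ' * m) := by linarith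
      _ = _ := by ring

end Pool.Agent.MP_6c43ae_an.Tr
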