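import Pool.Agent.MP_6c43ae_an.tr.Spec

/-! Subexponential bound for the sum of the coefficients. -/

set_option autoImplicit false

open MeasureTheory Set Filter Topology Metric

namespace Pool.Agent.MP_6c43ae_an.Tr

namespace SuX

variable {n : ℕ}

lemma summable_f {c : ℝ} (hc : 0 < c) : Summable fun a : ℤ => Real.exp (-(c * |(a : ℝ)|)) := by
  have h : Summable fun m : ℕ => Real.exp (-(c * (m : ℝ))) :=
    (Real.summable_exp_nat_mul_iff.2 (neg_lt_zero.2 hc)).congr fun m => by congr 1; ring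
  exact Summable.of_nat_of_neg (by simpa using h) (by simpa using h)

lemma sum_prod_le {f : ℤ → ℝ} (hf : Summable f) (h0 : ∀ a, 0 ≤ f a) (Λ : Finset (Zn n)) :
    ∑ α ∈ Λ, ∏ j, f (α j) ≤ (∑' a, f a) ^ n := by
  classical
  have h1 : Λ ⊆ Fintype.piFinset fun j => Λ.image fun α => α j := fun α hα =>
    Fintype.mem_piFinset.2 fun j => Finset.mem_image_of_mem _ hα
  refine (Finset.sum_le_sum_of_subset_of_nonneg h1 fun α _ _ =>
    Finset.prod_nonneg fun j _ => h0 _).trans ?_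
  rw [← Finset.prod_univ_sum (fun j => Λ.image fun α => α j) fun _ a => f a]
  refine (Finset.prod_le_prod (fun j _ => Finset.sum_nonneg fun a _ => h0 a)
    fun j _ => hf.sum_le_tsum _ fun a _ => h0 a).trans (le_of_eq ?_)
  rw [Finset.prod_const, Finset.card_univ, Fintype.card_fin]

/-- a small ball in the orthant given by a sign vector -/
def box (s₀ : Rn n) (η : ℝ) (sg : Fin n → Bool) : Set (Rn n) :=
  ball (fun j => s₀ j + if sg j then η / 2 else -(η / 2)) (η / 4)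

lemma box_abs {s₀ s : Rn n} {η : ℝ} {sg : Fin n → Bool} (hs : s ∈ box s₀ η sg) (j : Fin n) :
    |s j - (s₀ j + if sg j then η / 2 else -(η / 2))| < η / 4 :=
  (dist_le_pi_dist s (fun j => s₀ j + if sg j then η / 2 else -(η / 2)) j).trans_lt hs

lemma box_sub {s₀ : Rn n} {η : ℝ} (hη : 0 < η) (sg : Fin n → Bool) : box s₀ η sg ⊆ ball s₀ η := by
  intro s hs
  refine (dist_pi_lt_iff hη).2 fun j => ?_
  have h := abs_lt.1 (box_abs hs j)
  rw [Real.dist_eq, abs_lt]
  split_ifs at h <;> constructor <;> linarith [h.1, h.2]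

lemma box_ge {s₀ s : Rn n} {η : ℝ} {α : Zn n} (hs : s ∈ box s₀ η fun j => decide (0 ≤ α j))
    (j : Fin n) : η / 4 * |(α j : ℝ)| ≤ α j * (s j - s₀ j) := by
  have h := abs_lt.1 (box_abs hs j)
  by_cases h0 : 0 ≤ α j
  · have h1 : (0 : ℝ) ≤ α j := by exact_mod_cast h0
    simp only [h0, decide_true, if_true] at h
    rw [abs_of_nonneg h1]
    nlinarith [h.1]
  · have h1 : (α j : ℝ) < 0 := by exact_mod_cast not_le.1 h0
    simp only [h0, decide_false, Bool.false_eq_true, if_false] at h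
    rw [abs_of_neg h1]
    nlinarith [h.2]

lemma HH_eq (g : Rn n → ℝ) (ν : Measure (Rn n)) (s₀ : Rn n) (k : ℕ) (α : Zn n) :
    HH g ν s₀ k (zc α) =
      ((∫ s, Real.exp (∑ j, α j * (s j - s₀ j) - k * (g s - g s₀)) ∂ν : ℝ) : ℂ) := by
  rw [HH, ← integral_complex_ofReal]
  refine integral_congr_ae (Eventually.of_forall fun s => ?_)
  simp only [ex, zc]
  push_cast
  rfl

lemma term_le {g : Rn n → ℝ} {ν : Measure (Rn n)} [IsFiniteMeasure ν] [ν.IsOpenPosMeasure]
    {s₀ : Rn n} {η ε : ℝ} (hη : 0 < η) (hg : ∀ s ∈ ball s₀ η, g s - g s₀ ≤ ε) (k : ℕ) (α : Zn n) :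
    ‖(HH g ν s₀ k (zc α))⁻¹‖ ≤ (∑ sg, (ν.real (box s₀ η sg))⁻¹) * Real.exp (ε * k) *
      ∏ j, Real.exp (-(η / 4 * |(α j : ℝ)|)) := by
  have hpos : ∀ sg, 0 < ν.real (box s₀ η sg) := fun sg =>
    ENNReal.toReal_pos (measure_ball_pos ν _ (by positivity)).ne' (measure_ne_top _ _)
  have hD : ∀ sg, (ν.real (box s₀ η sg))⁻¹ ≤ ∑ sg, (ν.real (box s₀ η sg))⁻¹ := fun sg =>
    Finset.single_le_sum (f := fun sg => (ν.real (box s₀ η sg))⁻¹)
      (fun sg _ => (inv_pos.2 (hpos sg)).le) (Finset.mem_univ sg)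
  have hD0 := (inv_pos.2 (hpos fun _ => true)).le.trans (hD _)
  rw [HH_eq, norm_inv, Complex.norm_real]
  by_cases hi : Integrable (fun s => Real.exp (∑ j, α j * (s j - s₀ j) - k * (g s - g s₀))) ν
  · have h1 : Real.exp (∑ j, η / 4 * |(α j : ℝ)| - ε * k) *
        ν.real (box s₀ η fun j => decide (0 ≤ α j)) ≤
        ∫ s, Real.exp (∑ j, α j * (s j - s₀ j) - k * (g s - g s₀)) ∂ν := by
      refine (setIntegral_ge_of_const_le_real measurableSet_ball (measure_ne_top _ _)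
        (fun s hs => Real.exp_le_exp.2 ?_) hi.integrableOn).trans
        (setIntegral_le_integral hi (Eventually.of_forall fun s => (Real.exp_pos _).le))
      have h2 := Finset.sum_le_sum fun j (_ : j ∈ Finset.univ) => box_ge hs j
      have h3 := mul_le_mul_of_nonneg_left (hg s (box_sub hη _ hs)) (Nat.cast_nonneg (α := ℝ) k)
      linarith
    have h2 := mul_pos (Real.exp_pos (∑ j, η / 4 * |(α j : ℝ)| - ε * k))
      (hpos fun j => decide (0 ≤ α j))
    rw [Real.norm_of_nonneg (h2.le.trans h1)]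
    refine (inv_anti₀ h2 h1).trans ?_
    rw [mul_inv, mul_comm, mul_assoc, ← Real.exp_sum, ← Real.exp_add, ← Real.exp_neg,
      Finset.sum_neg_distrib]
    refine mul_le_mul (hD _) (le_of_eq ?_) (Real.exp_pos _).le hD0
    congr 1
    ring
  · rw [integral_undef hi, norm_zero, inv_zero]
    positivity

end SuX

open SuX in
theorem su : SU := by
  intro n g ν s₀ hg hν hν' ε hε
  obtain ⟨η, hη, h⟩ := Metric.continuous_iff.1 hg s₀ ε hε
  have h1 : ∀ s ∈ ball s₀ η, g s - g s₀ ≤ ε := fun s hs =>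
    (le_abs_self _).trans (le_of_lt (h s hs))
  have hD : 0 ≤ ∑ sg, (ν.real (box s₀ η sg))⁻¹ :=
    Finset.sum_nonneg fun _ _ => inv_nonneg.2 measureReal_nonneg
  have hT : 0 ≤ (∑' a : ℤ, Real.exp (-(η / 4 * |(a : ℝ)|))) ^ n :=
    pow_nonneg (tsum_nonneg fun _ => (Real.exp_pos _).le) n
  refine ⟨(∑ sg, (ν.real (box s₀ η sg))⁻¹) * (∑' a : ℤ, Real.exp (-(η / 4 * |(a : ℝ)|))) ^ n + 1,
    by positivity, fun k Λ => ?_⟩
  refine (Finset.sum_le_sum fun α _ => term_le hη h1 k α).trans ?_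
  rw [← Finset.mul_sum]
  have h2 := sum_prod_le (summable_f (c := η / 4) (by positivity))
    (fun _ => (Real.exp_pos _).le) Λ
  have h3 := Real.exp_pos (ε * k)
  refine (mul_le_mul_of_nonneg_left h2 (mul_nonneg hD h3.le)).trans ?_
  nlinarith

end Pool.Agent.MP_6c43ae_an.Tr
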