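import Pool.Agent.MP_6c43ae_an.tr.Spec

/-! Project TORIC: the potential in logarithmic coordinates is strictly convex. -/

set_option autoImplicit false

open Set Filter Topology
open scoped ContDiff

namespace Pool.Agent.MP_6c43ae_an.Tr

namespace W1X

/-- second derivative along a curve -/
theorem second {E : Type} [NormedAddCommGroup E] [NormedSpace ℝ E] {F : E → ℝ} {γ γ' : ℝ → E}
    {γ'' : E} (hF : ContDiffAt ℝ 2 F (γ 0)) (h1 : ∀ᶠ τ in 𝓝 (0 : ℝ), HasDerivAt γ (γ' τ) τ)
    (h2 : HasDerivAt γ' γ'' 0) :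
    deriv (deriv fun τ => F (γ τ)) 0
      = fderiv ℝ (fderiv ℝ F) (γ 0) (γ' 0) (γ' 0) + fderiv ℝ F (γ 0) γ'' := by
  have hc : ContinuousAt γ 0 := h1.self_of_nhds.continuousAt
  have e1 : ∀ᶠ τ in 𝓝 (0 : ℝ), DifferentiableAt ℝ F (γ τ) :=
    hc.eventually ((hF.eventually (by simp)).mono fun y hy => hy.differentiableAt (by simp))
  have e2 : (deriv fun τ => F (γ τ)) =ᶠ[𝓝 0] fun τ => fderiv ℝ F (γ τ) (γ' τ) := by
    filter_upwards [h1, e1] with τ a b
    exact (b.hasFDerivAt.comp_hasDerivAt τ a).deriv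
  rw [e2.deriv_eq]
  have d : DifferentiableAt ℝ (fderiv ℝ F) (γ 0) :=
    (hF.fderiv_right (m := 1) (by norm_num)).differentiableAt (by simp)
  have a := (d.hasFDerivAt.comp_hasDerivAt 0 h1.self_of_nhds).clm_apply h2
  exact a.deriv

/-- the curve in logarithmic coordinates -/
noncomputable def cur {n : ℕ} (s v : Rn n) (a τ : ℝ) : Rn n :=
  fun j => s j + Real.log (1 + 2 * a * τ * v j + τ ^ 2 * v j ^ 2)

theorem ev {n : ℕ} (v : Rn n) (a : ℝ) :
    ∀ᶠ τ in 𝓝 (0 : ℝ), ∀ j, 1 + 2 * a * τ * v j + τ ^ 2 * v j ^ 2 ≠ 0 := by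
  refine eventually_all.2 fun j => ContinuousAt.eventually_ne (by fun_prop) (by simp)

theorem cur2 {n : ℕ} {g : Rn n → ℝ} (hg : ContDiff ℝ 2 g) (s v : Rn n) (a : ℝ) :
    deriv (deriv fun τ => g (cur s v a τ)) 0
      = 4 * a ^ 2 * fderiv ℝ (fderiv ℝ g) s v v
        + (2 - 4 * a ^ 2) * fderiv ℝ g s (fun j => v j ^ 2) := by
  have c0 : cur s v a 0 = s := by
    funext j
    simp [cur]
  have q : ∀ τ j, HasDerivAt (fun τ : ℝ => 1 + 2 * a * τ * v j + τ ^ 2 * v j ^ 2)
      (2 * a * v j + 2 * τ * v j ^ 2) τ := fun τ j => by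
    have := ((((hasDerivAt_id' τ).const_mul (2 * a)).mul_const (v j)).const_add 1).fun_add
      ((hasDerivAt_pow 2 τ).mul_const (v j ^ 2))
    exact this.congr_deriv (by simp)
  have := second (F := g) (γ := cur s v a)
    (γ' := fun τ j => (2 * a * v j + 2 * τ * v j ^ 2) / (1 + 2 * a * τ * v j + τ ^ 2 * v j ^ 2))
    (γ'' := (2 - 4 * a ^ 2) • fun j => v j ^ 2) hg.contDiffAt
    ((ev v a).mono fun τ hτ => hasDerivAt_pi.2 fun j => ((q τ j).log (hτ j)).const_add (s j))
    (hasDerivAt_pi.2 fun j => by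
      have p : HasDerivAt (fun τ : ℝ => 2 * a * v j + 2 * τ * v j ^ 2) (2 * v j ^ 2) 0 := by
        have := (((hasDerivAt_id' (0 : ℝ)).const_mul 2).mul_const (v j ^ 2)).const_add (2 * a * v j)
        exact this.congr_deriv (by simp)
      refine (p.fun_div (q 0 j) (by simp)).congr_deriv ?_
      simp
      ring)
  rw [this, c0]
  have e : (fun j => (2 * a * v j + 2 * 0 * v j ^ 2) / (1 + 2 * a * 0 * v j + 0 ^ 2 * v j ^ 2))
      = (2 * a) • v := by
    funext j
    simp
  rw [e]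
  simp only [map_smul, smul_apply, smul_eq_mul]
  ring

theorem norm_pt {n : ℕ} (s : Rn n) (j : Fin n) : pt s 0 j = (Real.exp (s j / 2) : ℝ) := by
  simp [pt]

theorem pt_ne {n : ℕ} (s : Rn n) (j : Fin n) : pt s 0 j ≠ 0 := by
  rw [norm_pt]
  exact_mod_cast (Real.exp_pos _).ne'

theorem pt_lg {n : ℕ} {z : Cn n} (hz : ∀ j, z j ≠ 0) (j : Fin n) : pt (lg z) 0 j = (‖z j‖ : ℝ) := by
  rw [norm_pt]
  congr 1
  have : 0 < ‖z j‖ := norm_pos_iff.2 (hz j)
  simp only [lg]
  rw [Real.log_pow, show ((2 : ℕ) : ℝ) * Real.log ‖z j‖ / 2 = Real.log ‖z j‖ by push_cast; ring,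
    Real.exp_log this]

theorem smooth_pt {n : ℕ} : ContDiff ℝ 2 fun s : Rn n => pt s 0 := by
  refine contDiff_pi.2 fun j => ?_
  simp only [norm_pt]
  have a : ContDiff ℝ 2 fun s : Rn n => Real.exp (s j / 2) := by fun_prop
  exact Complex.ofRealCLM.contDiff.comp a

theorem an_lg {n : ℕ} {z : Cn n} (hz : ∀ j, z j ≠ 0) : AnalyticAt ℝ (lg (n := n)) z := by
  refine analyticAt_pi_iff.2 fun j => ?_
  have a1 : AnalyticAt ℝ (fun y : Cn n => (y j).re) z :=
    (Complex.reCLM.comp (ContinuousLinearMap.proj (R := ℝ) (φ := fun _ : Fin n => ℂ) j)).analyticAt z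
  have a2 : AnalyticAt ℝ (fun y : Cn n => (y j).im) z :=
    (Complex.imCLM.comp (ContinuousLinearMap.proj (R := ℝ) (φ := fun _ : Fin n => ℂ) j)).analyticAt z
  have e : (fun y : Cn n => lg y j)
      = fun y => Real.log ((y j).re * (y j).re + (y j).im * (y j).im) := by
    funext y
    simp only [lg]
    rw [Complex.sq_norm, Complex.normSq_apply]
  rw [e]
  have a3 : AnalyticAt ℝ (fun y : Cn n => (y j).re * (y j).re + (y j).im * (y j).im) z :=
    (a1.mul a1).add (a2.mul a2)
  have := Complex.normSq_pos.2 (hz j)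
  rw [Complex.normSq_apply] at this
  exact AnalyticAt.fun_comp (g := Real.log)
    (f := fun y : Cn n => (y j).re * (y j).re + (y j).im * (y j).im) (analyticAt_log this) a3

theorem lg_line {n : ℕ} (s v : Rn n) {w : ℂ} (hw : ‖w‖ = 1) {τ : ℝ}
    (hτ : ∀ j, 1 + 2 * w.re * τ * v j + τ ^ 2 * v j ^ 2 ≠ 0) :
    (∀ j, (pt s 0 + (τ • w) • fun j => pt s 0 j * v j) j ≠ 0) ∧
      lg (pt s 0 + (τ • w) • fun j => pt s 0 j * v j) = cur s v w.re τ := by
  have hw2 : w.re * w.re + w.im * w.im = 1 := by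
    rw [← Complex.normSq_apply, ← Complex.sq_norm, hw]
    norm_num
  have e : ∀ j, ‖(pt s 0 + (τ • w) • fun j => pt s 0 j * v j) j‖ ^ 2
      = Real.exp (s j) * (1 + 2 * w.re * τ * v j + τ ^ 2 * v j ^ 2) := fun j => by
    have e1 : (pt s 0 + (τ • w) • fun j => pt s 0 j * v j) j
        = pt s 0 j * (1 + (τ : ℂ) * w * v j) := by
      simp only [Pi.add_apply, Pi.smul_apply, smul_eq_mul, Complex.real_smul]
      ring
    have e2 : Real.exp (s j / 2) ^ 2 = Real.exp (s j) := by
      rw [← Real.exp_nat_mul]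
      congr 1
      push_cast
      ring
    rw [e1, norm_mul, mul_pow, norm_pt, Complex.norm_real, Real.norm_eq_abs, sq_abs, e2,
      Complex.sq_norm, Complex.normSq_apply]
    congr 1
    simp only [Complex.add_re, Complex.add_im, Complex.mul_re, Complex.mul_im, Complex.one_re,
      Complex.one_im, Complex.ofReal_re, Complex.ofReal_im]
    linear_combination τ ^ 2 * v j ^ 2 * hw2
  refine ⟨fun j hj => ?_, funext fun j => ?_⟩
  · have := e j
    rw [hj] at this
    simp only [norm_zero, ne_eq, OfNat.ofNat_ne_zero, not_false_eq_true, zero_pow] at this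
    exact mul_ne_zero (Real.exp_pos _).ne' (hτ j) this.symm
  · simp only [lg, cur]
    rw [e j, Real.log_mul (Real.exp_pos _).ne' (hτ j), Real.log_exp]

end W1X

open W1X in
theorem w1 : W1 := by
  intro n M _ _ _ ι L h μ c i hp ht
  have mem : ∀ z : Cn n, z ∈ c.target ↔ ∀ j, z j ≠ 0 := fun z => by rw [ht.target]; rfl
  have base : ∀ z ∈ c.target, c.symm z ∈ L.baseSet i := fun z hz => ht.frame (c.map_target hz)
  have pos : ∀ z ∈ c.target, 0 < h i (c.symm z) := fun z hz => hp.pos i _ (base z hz)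
  have sm : ∀ z ∈ c.target, ContDiffAt ℝ 2 (fun y => -Real.log (h i (c.symm y))) z :=
    fun z hz => by
      have a : ContDiffOn ℝ ∞ (fun y => h i (c.symm y)) c.target :=
        (hp.smooth i c ht.mem).mono fun y hy => ⟨hy, base y hy⟩
      have b := (a.contDiffAt (c.open_target.mem_nhds hz)).of_le
        (show (2 : WithTop ℕ∞) ≤ ∞ from WithTop.coe_le_coe.2 le_top)
      exact (b.log (pos z hz).ne').neg
  have p2 : ∀ z ∈ c.target, h i (c.symm z) = Real.exp (-pot h c i (lg z)) := fun z hz => by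
    have hz' := (mem z).1 hz
    have hm := (mem _).2 (pt_ne (lg z))
    have a := ht.inv_h (fun j => z j / (‖z j‖ : ℝ)) (fun j => by
      rw [norm_div, Complex.norm_real, norm_norm, div_self (norm_ne_zero_iff.2 (hz' j))]) _ hm
    have e : (fun j => z j / (‖z j‖ : ℝ)) * pt (lg z) 0 = z := by
      funext j
      rw [Pi.mul_apply, pt_lg hz', div_mul_cancel₀]
      exact_mod_cast norm_ne_zero_iff.2 (hz' j)
    rw [e] at a
    rw [pot, neg_neg, Real.exp_log (pos _ hm), a]
  have g2 : ContDiff ℝ 2 (pot h c i) := contDiff_iff_contDiffAt.2 fun s =>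
    ContDiffAt.comp (g := fun y => -Real.log (h i (c.symm y))) (f := fun s : Rn n => pt s 0) s
      (sm _ ((mem _).2 (pt_ne s))) smooth_pt.contDiffAt
  refine ⟨⟨g2, fun s v hv => ?_⟩, p2, fun z hz ha => ?_⟩
  · have hm := (mem _).2 (pt_ne s)
    have hv' : (fun j => pt s 0 j * v j) ≠ 0 := fun h0 => hv (funext fun j => by
      have := congrFun h0 j
      simp only [Pi.zero_apply, mul_eq_zero, pt_ne s j, false_or] at this
      exact_mod_cast this)
    have k := hp.curvature_pos i c ht.mem (c.symm (pt s 0)) ⟨c.map_target hm, base _ hm⟩ _ hv'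
    rw [c.right_inv hm, InnerProductSpace.laplacian_eq_iteratedFDeriv_complexPlane] at k
    set F : ℂ → ℝ := fun t => -Real.log (h i (c.symm (pt s 0 + t • fun j => pt s 0 j * v j)))
      with hF
    have F2 : ContDiffAt ℝ 2 F 0 := by
      refine ContDiffAt.comp (g := fun y => -Real.log (h i (c.symm y))) 0 (by simpa using sm _ hm) ?_
      fun_prop
    have key : ∀ w : ℂ, ‖w‖ = 1 → fderiv ℝ (fderiv ℝ F) 0 w w
        = 4 * w.re ^ 2 * fderiv ℝ (fderiv ℝ (pot h c i)) s v v
          + (2 - 4 * w.re ^ 2) * fderiv ℝ (pot h c i) s (fun j => v j ^ 2) := fun w hw => by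
      have a := second (F := F) (γ := fun τ : ℝ => τ • w) (γ' := fun _ => w) (γ'' := 0)
        (by simpa using F2)
        (Eventually.of_forall fun τ => by simpa using (hasDerivAt_id τ).smul_const w)
        (hasDerivAt_const _ _)
      have e : (fun τ : ℝ => F (τ • w)) =ᶠ[𝓝 0] fun τ => pot h c i (cur s v w.re τ) := by
        filter_upwards [ev v w.re] with τ hτ
        obtain ⟨b1, b2⟩ := lg_line s v hw hτ
        simp only [hF]
        rw [p2 _ ((mem _).2 b1), Real.log_exp, neg_neg, b2]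
      rw [e.deriv.deriv_eq, cur2 g2] at a
      simpa using a.symm
    simp only [iteratedFDeriv_two_apply, Matrix.cons_val_zero, Matrix.cons_val_one] at k
    rw [key 1 norm_one, key Complex.I Complex.norm_I] at k
    simp only [Complex.one_re, Complex.I_re] at k
    linarith
  · have a : AnalyticAt ℝ (fun y => Real.exp (-pot h c i (lg y))) z :=
      (ha.comp (an_lg ((mem z).1 hz))).neg.rexp
    refine a.congr ?_
    filter_upwards [c.open_target.mem_nhds hz] with y hy
    exact (p2 y hy).symm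

end Pool.Agent.MP_6c43ae_an.Tr
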