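import Pool.Agent.MP_6c43ae_an.tr.Spec

/-! Project TORIC: the measures. -/

set_option autoImplicit false

open MeasureTheory Set Filter Topology Metric

namespace Pool.Agent.MP_6c43ae_an.Tr

namespace W2X

variable {n : ℕ} {M : Type} [TopologicalSpace M] [ChartedSpace (Cn n) M] [MeasurableSpace M]
  {μ : Measure M}

lemma locFin (h : IsSmoothVol n μ) : IsLocallyFiniteMeasure μ := by
  refine ⟨fun x => ?_⟩
  obtain ⟨ρ, h1, -, h3⟩ := h (chartAt (Cn n) x) (chart_mem_atlas _ x)
  set c := chartAt (Cn n) x with hc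
  have hx : x ∈ c.source := mem_chart_source _ x
  obtain ⟨K, k1, k2, k3⟩ := local_compact_nhds (c.open_target.mem_nhds (c.map_source hx))
  refine ⟨c.symm '' K, ?_, ?_⟩
  · have := c.symm.image_mem_nhds (c.map_source hx) k1
    rwa [c.left_inv hx] at this
  · rw [h3 K k3.measurableSet k2]
    obtain ⟨C, hC⟩ := k3.exists_bound_of_continuousOn (h1.continuousOn.mono k2)
    refine lt_of_le_of_lt (setLIntegral_mono' k3.measurableSet
      (g := fun _ => ENNReal.ofReal C) fun y hy =>
        ENNReal.ofReal_le_ofReal ((le_abs_self _).trans (hC y hy))) ?_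
    rw [setLIntegral_const]
    exact ENNReal.mul_lt_top ENNReal.ofReal_lt_top k3.measure_lt_top

lemma openPos (h : IsSmoothVol n μ) : μ.IsOpenPosMeasure := by
  refine ⟨fun U hU ⟨x, hxU⟩ h0 => ?_⟩
  obtain ⟨ρ, h1, h2, h3⟩ := h (chartAt (Cn n) x) (chart_mem_atlas _ x)
  set c := chartAt (Cn n) x with hc
  have hx : x ∈ c.source := mem_chart_source _ x
  have hA : IsOpen (c.target ∩ c.symm ⁻¹' U) := c.isOpen_inter_preimage_symm hU
  have hz : μ (c.symm '' (c.target ∩ c.symm ⁻¹' U)) = 0 :=
    measure_mono_null (by rintro _ ⟨y, hy, rfl⟩; exact hy.2) h0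
  rw [h3 _ hA.measurableSet inter_subset_left] at hz
  have hm : AEMeasurable (fun y => ENNReal.ofReal (ρ y))
      (volume.restrict (c.target ∩ c.symm ⁻¹' U)) :=
    ENNReal.measurable_ofReal.comp_aemeasurable
      ((h1.continuousOn.mono inter_subset_left).aemeasurable hA.measurableSet)
  rw [lintegral_eq_zero_iff' hm, Filter.EventuallyEq, ae_restrict_iff' hA.measurableSet] at hz
  have : volume (c.target ∩ c.symm ⁻¹' U) = 0 := by
    refine measure_mono_null (fun y hy => ?_) hz
    intro g
    exact absurd (ENNReal.ofReal_eq_zero.1 (g hy)) (not_le.2 (h2 y hy.1))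
  exact hA.measure_ne_zero volume ⟨c x, c.map_source hx, by
    show c.symm (c x) ∈ U
    rwa [c.left_inv hx]⟩ this

omit [ChartedSpace (Cn n) M] [MeasurableSpace M] in
lemma contOn {c : OpenPartialHomeomorph M (Cn n)} (hc : c.target = {z | ∀ j, z j ≠ 0}) :
    ContinuousOn (fun x => lg (c x)) c.source := by
  refine continuousOn_pi.2 fun j => ?_
  have h1 : ContinuousOn (fun x => c x j) c.source :=
    (continuous_apply j).comp_continuousOn c.continuousOn
  refine (h1.norm.pow 2).log fun x hx => ?_
  have : c x ∈ c.target := c.map_source hx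
  rw [hc] at this
  exact pow_ne_zero _ (norm_ne_zero_iff.2 (this j))

lemma lg_pt (s : Rn n) : lg (pt s 0) = s := by
  funext j
  simp only [lg, pt, Pi.zero_apply, Complex.ofReal_zero, mul_zero, Complex.exp_zero, one_mul,
    Complex.norm_real, Real.norm_eq_abs, sq_abs]
  rw [← Real.exp_nat_mul, Real.log_exp]
  push_cast
  ring

lemma pt_ne (s : Rn n) (j : Fin n) : pt s 0 j ≠ 0 :=
  mul_ne_zero (Complex.exp_ne_zero _) (Complex.ofReal_ne_zero.2 (Real.exp_pos _).ne')

end W2X

open W2X

theorem w2 : W2 := by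
  intro n M _ _ _ _ _ μ c h _ hc
  have h1 := locFin h
  have h2 := openPos h
  have h3 : IsFiniteMeasure μ := inferInstance
  have hs := c.open_source.measurableSet
  have hm : AEMeasurable (fun x => lg (c x)) (μ.restrict c.source) :=
    (contOn hc).aemeasurable hs
  refine ⟨h3, h2, ?_, ⟨fun U hU ⟨s, hsU⟩ => ?_⟩, fun F hF => ?_⟩
  · unfold vol
    infer_instance
  · unfold vol
    rw [Measure.map_apply_of_aemeasurable hm hU.measurableSet, Measure.restrict_apply' hs,
      inter_comm]
    have ht : pt s 0 ∈ c.target := by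
      rw [hc]
      exact pt_ne s
    refine ((contOn hc).isOpen_inter_preimage c.open_source hU).measure_ne_zero μ
      ⟨c.symm (pt s 0), c.map_target ht, ?_⟩
    show lg (c (c.symm (pt s 0))) ∈ U
    rwa [c.right_inv ht, lg_pt]
  · unfold vol
    exact integral_map hm hF.aestronglyMeasurable

end Pool.Agent.MP_6c43ae_an.Tr
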