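import Pool.Agent.MP_6c43ae_an.tr.Spec

/-! The monomial basis and the kernel along an orbit. -/

set_option autoImplicit false

open MeasureTheory Set Filter Topology Metric
open scoped ComplexConjugate ContDiff Manifold

namespace Pool.Agent.MP_6c43ae_an.Tr

namespace W3X

variable {n : ℕ}

/-- the monomial -/
noncomputable def mono (α : Zn n) (z : Cn n) : ℂ := ∏ j, z j ^ α j

/-- the weight of a monomial in logarithmic coordinates -/
noncomputable def wt (g : Rn n → ℝ) (k : ℕ) (α : Zn n) (s : Rn n) : ℝ :=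
  Real.exp (dotR (fun j => (α j : ℝ)) s - k * g s)

lemma pt_ne (s θ : Rn n) (j : Fin n) : pt s θ j ≠ 0 :=
  mul_ne_zero (Complex.exp_ne_zero _) (by exact_mod_cast (Real.exp_pos _).ne')

lemma lg_pt (s θ : Rn n) : lg (pt s θ) = s := by
  funext j
  simp only [lg, pt, norm_mul, Complex.norm_exp_I_mul_ofReal, one_mul, Complex.norm_real,
    Real.norm_eq_abs, sq_abs]
  rw [← Real.exp_nat_mul, Real.log_exp]
  push_cast
  ring

lemma norm_mono_sq (α : Zn n) {z : Cn n} (hz : ∀ j, z j ≠ 0) :
    ‖mono α z‖ ^ 2 = Real.exp (dotR (fun j => (α j : ℝ)) (lg z)) := by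
  rw [mono, norm_prod, ← Finset.prod_pow, dotR, Real.exp_sum]
  refine Finset.prod_congr rfl fun j _ => ?_
  have h : 0 < ‖z j‖ ^ 2 := pow_pos (norm_pos_iff.2 (hz j)) 2
  rw [norm_zpow, lg, ← Real.log_zpow, Real.exp_log (zpow_pos h _), ← zpow_natCast, ← zpow_natCast,
    ← zpow_mul, ← zpow_mul, mul_comm]

lemma mono_pt (α : Zn n) (s θ : Rn n) : mono α (pt s θ) * conj (mono α (pt s 0)) =
    (Real.exp (dotR (fun j => (α j : ℝ)) s) : ℝ) *
      Complex.exp (Complex.I * ∑ j, (α j : ℂ) * (θ j : ℂ)) := by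
  rw [mono, mono, map_prod, ← Finset.prod_mul_distrib, dotR, Real.exp_sum, Finset.mul_sum,
    Complex.exp_sum, Complex.ofReal_prod, ← Finset.prod_mul_distrib]
  refine Finset.prod_congr rfl fun j _ => ?_
  simp only [pt, Pi.zero_apply, Complex.ofReal_zero, mul_zero, Complex.exp_zero, one_mul, map_zpow₀,
    Complex.conj_ofReal]
  simp only [Complex.ofReal_exp, ← Complex.exp_add, ← Complex.exp_int_mul]
  congr 1
  push_cast
  ring

lemma cont_wt {g : Rn n → ℝ} (hg : Continuous g) (k : ℕ) (α : Zn n) : Continuous (wt g k α) := by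
  unfold wt dotR
  fun_prop

lemma HH_eq (g : Rn n → ℝ) (ν : Measure (Rn n)) (s₀ : Rn n) (k : ℕ) (α : Zn n) :
    HH g ν s₀ k (zc α) = ((∫ s, wt g k α s ∂ν : ℝ) : ℂ) * ((wt g k α s₀ : ℝ) : ℂ)⁻¹ := by
  rw [← integral_complex_ofReal, ← integral_mul_const]
  refine integral_congr_ae (Eventually.of_forall fun s => ?_)
  simp only [ex, wt, dotR, zc, Complex.ofReal_exp, ← Complex.exp_neg, ← Complex.exp_add]
  congr 1
  push_cast
  simp only [mul_sub, Finset.sum_sub_distrib]
  ring

lemma vanish (ν : Measure (Cn n)) (hν : ∀ u : Cn n, (∀ j, ‖u j‖ = 1) → ν.map (fun z => u * z) = ν)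
    {G : Rn n → ℂ} (hG : Continuous G) {α β : Zn n} (hne : α ≠ β) :
    ∫ z, mono α z * conj (mono β z) * G (lg z) ∂ν = 0 := by
  obtain ⟨j₀, hj⟩ := Function.ne_iff.1 hne
  have hd : ((α j₀ : ℝ) - β j₀) ≠ 0 := by
    rw [sub_ne_zero]
    exact_mod_cast hj
  set t : ℝ := Real.pi / ((α j₀ : ℝ) - β j₀) with ht
  set u : Cn n := Function.update 1 j₀ (Complex.exp (t * Complex.I)) with hu
  have hu1 : ∀ j, ‖u j‖ = 1 := fun j => by
    by_cases e : j = j₀
    · subst e
      simp [hu]
    · simp [hu, e]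
  have hm : ∀ γ : Zn n, mono γ u = Complex.exp (γ j₀ * (t * Complex.I)) := fun γ => by
    rw [mono, Finset.prod_eq_single j₀ (fun j _ e => by simp [hu, e]) (by simp),
      Complex.exp_int_mul]
    simp [hu]
  have hχ : mono α u * conj (mono β u) = -1 := by
    rw [hm, hm, ← Complex.exp_conj, ← Complex.exp_add, ← Complex.exp_pi_mul_I]
    congr 1
    have : (Real.pi : ℂ) = (t : ℂ) * ((α j₀ : ℂ) - β j₀) := by
      have : Real.pi = t * ((α j₀ : ℝ) - β j₀) := by rw [ht]; field_simp
      exact_mod_cast this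
    rw [this]
    simp only [map_mul, map_intCast, Complex.conj_ofReal, Complex.conj_I]
    ring
  have hmeas : Measurable fun z : Cn n => mono α z * conj (mono β z) * G (lg z) := by
    have a : ∀ γ : Zn n, Measurable (mono γ) := fun γ =>
      Finset.measurable_prod _ fun j _ => (measurable_pi_apply j).pow_const _
    have b : Measurable (lg : Cn n → Rn n) :=
      measurable_pi_lambda _ fun j => ((measurable_pi_apply j).norm.pow_const 2).log
    exact ((a α).mul (Complex.continuous_conj.measurable.comp (a β))).mul (hG.measurable.comp b)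
  have hmu : Measurable fun z : Cn n => u * z := (continuous_const.mul continuous_id).measurable
  have key : ∫ z, mono α z * conj (mono β z) * G (lg z) ∂ν =
      -∫ z, mono α z * conj (mono β z) * G (lg z) ∂ν := by
    conv_lhs => rw [← hν u hu1]
    rw [integral_map hmu.aemeasurable hmeas.aestronglyMeasurable, ← integral_neg]
    refine integral_congr_ae (Eventually.of_forall fun z => ?_)
    have a : ∀ γ : Zn n, mono γ (u * z) = mono γ u * mono γ z := fun γ => by
      simp [mono, mul_zpow, Finset.prod_mul_distrib]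
    have b : lg (u * z) = lg z := by
      funext j
      simp [lg, hu1]
    simp only [a, b, map_mul]
    linear_combination (mono α z * conj (mono β z) * G (lg z)) * hχ
  linear_combination (1 / 2 : ℂ) * key

section geom

variable {M : Type} [TopologicalSpace M] [ChartedSpace (Cn n) M] {ι : Type}
  {L : VectorBundleCore ℂ M ℂ ι} {h : ι → M → ℝ} {k : ℕ}

lemma frame (hP : IsPosMetric n L h) {s t : ι → M → ℂ} (hs : IsHolSec n L k s)
    (ht : IsHolSec n L k t) {i : ι} {x : M} (hx : x ∈ L.baseSet i) :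
    s (L.indexAt x) x * conj (t (L.indexAt x) x) * (h (L.indexAt x) x : ℂ) ^ k =
      s i x * conj (t i x) * (h i x : ℂ) ^ k := by
  have hx' : x ∈ L.baseSet i ∩ L.baseSet (L.indexAt x) := ⟨hx, L.mem_baseSet_at x⟩
  rw [hs.compat i _ x hx', ht.compat i _ x hx', hP.compat i _ x hx']
  push_cast
  rw [← Complex.mul_conj', map_mul, map_pow]
  ring

lemma cont_h (hP : IsPosMetric n L h) (j : ι) : ContinuousOn (h j) (L.baseSet j) := by
  intro x hx
  have he := mem_chart_source (Cn n) x
  have h1 := (hP.smooth j _ (chart_mem_atlas (Cn n) x)).continuousOn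
  have h2 : ContinuousOn (h j) ((chartAt (Cn n) x).source ∩ L.baseSet j) := by
    refine ((h1.comp ((chartAt (Cn n) x).continuousOn.mono inter_subset_left)) fun y hy =>
      ⟨(chartAt (Cn n) x).map_source hy.1, ?_⟩).congr fun y hy => ?_
    · rw [mem_preimage, (chartAt (Cn n) x).left_inv hy.1]
      exact hy.2
    · simp only [Function.comp, (chartAt (Cn n) x).left_inv hy.1]
  exact (h2.continuousAt (((chartAt (Cn n) x).open_source.inter (L.isOpen_baseSet j)).mem_nhds
    ⟨he, hx⟩)).continuousWithinAt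

lemma cont_dens (hP : IsPosMetric n L h) {s : ι → M → ℂ} (hs : IsHolSec n L k s) :
    Continuous fun x =>
      s (L.indexAt x) x * conj (s (L.indexAt x) x) * (h (L.indexAt x) x : ℂ) ^ k := by
  refine continuous_iff_continuousAt.2 fun x => ?_
  have hn := (L.isOpen_baseSet (L.indexAt x)).mem_nhds (L.mem_baseSet_at x)
  have a := (hs.hol (L.indexAt x)).continuousOn.continuousAt hn
  have b := (cont_h hP (L.indexAt x)).continuousAt hn
  refine ContinuousAt.congr (f := fun y => s (L.indexAt x) y * conj (s (L.indexAt x) y) *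
    (h (L.indexAt x) y : ℂ) ^ k) ?_ ?_
  · exact (a.mul (Complex.continuous_conj.continuousAt.comp a)).mul
      ((Complex.continuous_ofReal.continuousAt.comp b).pow k)
  · filter_upwards [hn] with y hy using (frame hP hs hs hy).symm

lemma berg (hP : IsPosMetric n L h) {N : ℕ} {s : Fin N → ι → M → ℂ}
    (hs : ∀ a, IsHolSec n L k (s a)) {i : ι} {z w : M} (hz : z ∈ L.baseSet i)
    (hw : w ∈ L.baseSet i) : bergmanNorm L h k N s z w =
      ‖∑ a, s a i z * conj (s a i w)‖ * √(h i z) ^ k * √(h i w) ^ k := by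
  have hz' : z ∈ L.baseSet i ∩ L.baseSet (L.indexAt z) := ⟨hz, L.mem_baseSet_at z⟩
  have hw' : w ∈ L.baseSet i ∩ L.baseSet (L.indexAt w) := ⟨hw, L.mem_baseSet_at w⟩
  have e : ∑ a, s a (L.indexAt z) z * conj (s a (L.indexAt w) w) =
      (L.coordChange i (L.indexAt z) z 1 ^ k * conj (L.coordChange i (L.indexAt w) w 1) ^ k) *
        ∑ a, s a i z * conj (s a i w) := by
    rw [Finset.mul_sum]
    refine Finset.sum_congr rfl fun a _ => ?_
    rw [(hs a).compat i _ z hz', (hs a).compat i _ w hw', map_mul, map_pow]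
    ring
  rw [bergmanNorm, e, hP.compat i _ z hz', hP.compat i _ w hw', Real.sqrt_mul (sq_nonneg _),
    Real.sqrt_mul (sq_nonneg _), Real.sqrt_sq (norm_nonneg _), Real.sqrt_sq (norm_nonneg _)]
  simp only [norm_mul, norm_pow, Complex.norm_conj]
  ring

lemma sec_smul {s : ι → M → ℂ} (hs : IsHolSec n L k s) (a : ℂ) :
    IsHolSec n L k fun j x => a * s j x :=
  ⟨fun j => mdifferentiableOn_const.mul (hs.hol j), fun i j x hx => by
    rw [hs.compat i j x hx]
    ring⟩

variable [MeasurableSpace M] [BorelSpace M] {μ : Measure M} {c : OpenPartialHomeomorph M (Cn n)}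
  {i : ι}

lemma inner_eq (hP : IsPosMetric n L h) (hT : IsToricChart n L h μ c i) {s t : ι → M → ℂ}
    (hs : IsHolSec n L k s) (ht : IsHolSec n L k t) :
    innerProd L h μ k s t = ∫ x in c.source, s i x * conj (t i x) * (h i x : ℂ) ^ k ∂μ := by
  have : μ.restrict c.source = μ := Measure.restrict_eq_self_of_ae_mem hT.full
  rw [innerProd]
  conv_lhs => rw [← this]
  exact setIntegral_congr_fun c.open_source.measurableSet fun x hx => frame hP hs ht (hT.frame hx)

lemma push_inv (hT : IsToricChart n L h μ c i) (u : Cn n) (hu : ∀ j, ‖u j‖ = 1) :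
    ((μ.restrict c.source).map c).map (fun z => u * z) = (μ.restrict c.source).map c := by
  have hc : AEMeasurable c (μ.restrict c.source) :=
    c.continuousOn.aemeasurable c.open_source.measurableSet
  have hmu : Measurable fun z : Cn n => u * z := (continuous_const.mul continuous_id).measurable
  have hu0 : ∀ j, u j ≠ 0 := fun j e => by simpa [e] using hu j
  have ap : ∀ A : Set (Cn n), MeasurableSet A →
      ((μ.restrict c.source).map c) A = μ (c.symm '' (c.target ∩ A)) := fun A hA => by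
    rw [Measure.map_apply_of_aemeasurable hc hA, Measure.restrict_apply' c.open_source.measurableSet,
      c.symm_image_target_inter_eq, inter_comm, c.source_inter_preimage_target_inter]
  ext A hA
  rw [Measure.map_apply hmu hA, ap _ (hmu hA), ap _ hA,
    ← hT.inv_vol u hu _ (c.open_target.measurableSet.inter (hmu hA)) inter_subset_left]
  congr 2
  ext z
  simp only [hT.target, mem_image, mem_inter_iff, mem_ofPred_eq, mem_preimage]
  constructor
  · rintro ⟨y, ⟨a, b⟩, rfl⟩
    exact ⟨fun j => mul_ne_zero (hu0 j) (a j), b⟩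
  · rintro ⟨a, b⟩
    have e : u * (fun j => (u j)⁻¹ * z j) = z := by
      funext j
      simp [hu0 j]
    exact ⟨fun j => (u j)⁻¹ * z j, ⟨fun j => mul_ne_zero (inv_ne_zero (hu0 j)) (a j), by rwa [e]⟩, e⟩

end geom

end W3X

open W3X in
theorem w3 (h1 : W1) (h2 : W2) : W3 := by
  intro n M _ _ _ _ _ ι L h μ c i hP hV hT k
  classical
  obtain ⟨hcv, hh, -⟩ := h1 n M ι L h μ c i hP hT
  obtain ⟨f1, f2, f3, f4, hint⟩ := h2 n M μ c hV hT.mem hT.target
  obtain ⟨Λ, l1, l2, l3⟩ := hT.sections k
  have hg : Continuous (pot h c i) := hcv.sm.continuous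
  choose! S hS hS' using l2
  have tg : ∀ {z : Cn n}, z ∈ c.target ↔ ∀ j, z j ≠ 0 := by
    intro z
    rw [hT.target]
    rfl
  have hw : ∀ (α : Zn n), ∀ z ∈ c.target,
      ‖mono α z‖ ^ 2 * h i (c.symm z) ^ k = wt (pot h c i) k α (lg z) := fun α z hz => by
    rw [norm_mono_sq α (tg.1 hz), hh z hz, ← Real.exp_nat_mul, ← Real.exp_add, wt]
    congr 1
    ring
  have hSx : ∀ α ∈ Λ, ∀ x ∈ c.source, S α i x = mono α (c x) := fun α hα x hx => by
    have := hS' α hα (c x) (c.map_source hx)
    rwa [c.left_inv hx] at this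
  have hdiag : ∀ α ∈ Λ, ∀ x ∈ c.source, S α i x * conj (S α i x) * (h i x : ℂ) ^ k =
      (wt (pot h c i) k α (lg (c x)) : ℝ) := fun α hα x hx => by
    rw [← hw α _ (c.map_source hx), c.left_inv hx, hSx α hα x hx, Complex.mul_conj']
    push_cast
    rfl
  obtain ⟨J, hJ⟩ : ∃ J : Zn n → ℝ, ∀ α, J α = ∫ s, wt (pot h c i) k α s ∂(vol μ c) :=
    ⟨_, fun _ => rfl⟩
  have hJ0 : ∀ α ∈ Λ, 0 < J α := fun α hα => by
    obtain ⟨C, hC⟩ := isCompact_univ.exists_bound_of_continuousOn
      (cont_dens hP (hS α hα)).continuousOn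
    rw [hJ]
    refine integral_pos_of_integrable_nonneg_nonzero (x := 0) (cont_wt hg k α)
      (Integrable.of_bound (cont_wt hg k α).aestronglyMeasurable C
        (Eventually.of_forall fun s => ?_)) (fun s => (Real.exp_pos _).le) (Real.exp_pos _).ne'
    have hz : pt s 0 ∈ c.target := tg.2 (pt_ne s 0)
    have := hC (c.symm (pt s 0)) (mem_univ _)
    rwa [frame hP (hS α hα) (hS α hα) (hT.frame (c.map_target hz)),
      hdiag α hα _ (c.map_target hz), c.right_inv hz, lg_pt, Complex.norm_real] at this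
  have hin : ∀ α ∈ Λ, ∀ β ∈ Λ,
      innerProd L h μ k (S α) (S β) = if α = β then (J α : ℂ) else 0 := by
    intro α hα β hβ
    rw [inner_eq hP hT (hS α hα) (hS β hβ)]
    split_ifs with e
    · subst e
      rw [hJ, ← integral_complex_ofReal,
        hint (fun s => (wt (pot h c i) k α s : ℝ))
          (Complex.continuous_ofReal.comp (cont_wt hg k α))]
      exact setIntegral_congr_fun c.open_source.measurableSet fun x hx => hdiag α hα x hx
    · have hG : Continuous fun s => ((Real.exp (-pot h c i s) : ℝ) : ℂ) ^ k := by fun_prop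
      have hc : AEMeasurable c (μ.restrict c.source) :=
        c.continuousOn.aemeasurable c.open_source.measurableSet
      have a : ∀ γ : Zn n, Measurable (mono γ) := fun γ =>
        Finset.measurable_prod _ fun j _ => (measurable_pi_apply j).pow_const _
      have b : Measurable (lg : Cn n → Rn n) :=
        measurable_pi_lambda _ fun j => ((measurable_pi_apply j).norm.pow_const 2).log
      refine Eq.trans ?_ ((integral_map hc (((a α).mul
        (Complex.continuous_conj.measurable.comp (a β))).mul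
          (hG.measurable.comp b)).aestronglyMeasurable).symm.trans (vanish _ (push_inv hT) hG e))
      refine setIntegral_congr_fun c.open_source.measurableSet fun x hx => ?_
      have := hh _ (c.map_source hx)
      rw [c.left_inv hx] at this
      simp only [hSx α hα x hx, hSx β hβ x hx, this]
      rfl
  have hr : ∀ α ∈ Λ, ((√(J α) : ℝ) : ℂ) ≠ 0 := fun α hα => by
    exact_mod_cast (Real.sqrt_pos.2 (hJ0 α hα)).ne'
  have hr2 : ∀ α ∈ Λ, ((√(J α) : ℝ) : ℂ) * ((√(J α) : ℝ) : ℂ) = J α := fun α hα => by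
    exact_mod_cast Real.mul_self_sqrt (hJ0 α hα).le
  obtain ⟨e, -⟩ : ∃ _ : Fin Λ.card ≃ Λ, True := ⟨Λ.equivFin.symm, trivial⟩
  have hsec : ∀ a, IsHolSec n L k fun j x => ((√(J (e a)) : ℝ) : ℂ)⁻¹ * S (e a) j x :=
    fun a => sec_smul (hS _ (e a).2) _
  refine ⟨Λ, Λ.card, fun a j x => ((√(J (e a)) : ℝ) : ℂ)⁻¹ * S (e a) j x,
    ⟨hsec, fun a b => ?_, fun t ht => ?_⟩, fun α ⟨C, hC⟩ => ?_, fun s₀ θ => ?_⟩
  · have : innerProd L h μ k (fun j x => ((√(J (e a)) : ℝ) : ℂ)⁻¹ * S (e a) j x)
        (fun j x => ((√(J (e b)) : ℝ) : ℂ)⁻¹ * S (e b) j x) =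
        (((√(J (e a)) : ℝ) : ℂ)⁻¹ * ((√(J (e b)) : ℝ) : ℂ)⁻¹) *
          innerProd L h μ k (S (e a)) (S (e b)) := by
      rw [innerProd, innerProd, ← integral_const_mul]
      refine integral_congr_ae (Eventually.of_forall fun x => ?_)
      simp only [map_mul, map_inv₀, Complex.conj_ofReal]
      ring
    rw [this, hin _ (e a).2 _ (e b).2]
    by_cases hab : a = b
    · subst hab
      rw [if_pos rfl, if_pos rfl, ← hr2 _ (e a).2]
      have := hr _ (e a).2
      field_simp
    · rw [if_neg hab, if_neg fun q => hab (e.injective (Subtype.ext q)), mul_zero]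
  · obtain ⟨A, hA⟩ := l3 t ht
    refine ⟨fun a => A (e a) * ((√(J (e a)) : ℝ) : ℂ), fun j => ?_⟩
    have hd : Dense c.source := Measure.dense_of_ae (μ := μ) (p := fun x => x ∈ c.source) hT.full
    refine EqOn.of_subset_closure (s := L.baseSet j ∩ c.source) (fun x hx => ?_)
      (ht.hol j).continuousOn (continuousOn_finsetSum _ fun a _ =>
        continuousOn_const.mul ((hsec a).hol j).continuousOn) inter_subset_left
      (hd.open_subset_closure_inter (L.isOpen_baseSet j))
    have hx' : x ∈ L.baseSet i ∩ L.baseSet j := ⟨hT.frame hx.2, hx.1⟩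
    have := hA _ (c.map_source hx.2)
    rw [c.left_inv hx.2] at this
    rw [ht.compat i j x hx', this, Finset.mul_sum, ← Finset.sum_coe_sort Λ, ← e.sum_comp]
    refine Finset.sum_congr rfl fun a _ => ?_
    rw [(hS _ (e a).2).compat i j x hx', hSx _ (e a).2 x hx.2, mono]
    have := hr _ (e a).2
    field_simp
  · refine l1 α ⟨Real.exp C, fun z hz => ?_⟩
    exact (hw α z hz).le.trans (Real.exp_le_exp.2 (hC _))
  · have hz : pt s₀ θ ∈ c.target := tg.2 (pt_ne s₀ θ)
    have hz0 : pt s₀ 0 ∈ c.target := tg.2 (pt_ne s₀ 0)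
    rw [berg hP hsec (hT.frame (c.map_target hz)) (hT.frame (c.map_target hz0)), hh _ hz, hh _ hz0,
      lg_pt, lg_pt, mul_assoc, ← mul_pow, Real.mul_self_sqrt (Real.exp_pos _).le,
      ← Real.exp_nat_mul, ← Real.norm_of_nonneg (Real.exp_pos (k * -pot h c i s₀)).le,
      ← Complex.norm_real, ← norm_mul, tp, Finset.sum_mul, ← Finset.sum_coe_sort Λ, ← e.sum_comp]
    congr 1
    refine Finset.sum_congr rfl fun a _ => ?_
    have q := mono_pt (e a) s₀ θ
    have q1 := hS' _ (e a).2 _ hz
    have q2 := hS' _ (e a).2 _ hz0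
    rw [HH_eq, ← hJ, ← hr2 _ (e a).2, q1, q2, map_mul, map_inv₀, Complex.conj_ofReal, mul_inv,
      inv_inv, wt, sub_eq_add_neg, Real.exp_add, ← mul_neg, Complex.ofReal_mul, mul_inv]
    simp only [mono] at q
    linear_combination (((√(J (e a)) : ℝ) : ℂ)⁻¹ * ((√(J (e a)) : ℝ) : ℂ)⁻¹ *
      ((Real.exp (k * -pot h c i s₀) : ℝ) : ℂ)) * q

end Pool.Agent.MP_6c43ae_an.Tr
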