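import Pool.Agent.MP_6c43ae_an.tr.C1
import Pool.Agent.MP_6c43ae_an.tr.Cv
import Pool.Agent.MP_6c43ae_an.tr.Gg
import Pool.Agent.MP_6c43ae_an.tr.Hb
import Pool.Agent.MP_6c43ae_an.tr.Hl
import Pool.Agent.MP_6c43ae_an.tr.Lg
import Pool.Agent.MP_6c43ae_an.tr.Mc
import Pool.Agent.MP_6c43ae_an.tr.Su
import Pool.Agent.MP_6c43ae_an.tr.W1
import Pool.Agent.MP_6c43ae_an.tr.W2
import Pool.Agent.MP_6c43ae_an.tr.W3
import Pool.Agent.MP_6c43ae_an.tr.Zf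
import Pool.Agent.MP_6c43ae_an.tr.Fin

/-! The toric theorem with decay along infinitely many powers only. -/

set_option autoImplicit false

open MeasureTheory Set Filter Topology Metric

namespace Pool.Agent.MP_6c43ae_an.Tr

/-- decay of the kernel along the orbit through `s₀` for infinitely many powers -/
def Orb2 {n : ℕ} (g : Rn n → ℝ) (ν : Measure (Rn n)) (s₀ : Rn n) (Λ : ℕ → Finset (Zn n)) : Prop :=
  ∀ δ : ℝ, 0 < δ → ∃ c₁ c₂ : ℝ, 0 < c₁ ∧ 0 < c₂ ∧ ∃ᶠ k : ℕ in atTop, ∀ θ : Rn n, ‖θ‖ ≤ Real.pi →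
    δ ≤ ‖θ‖ → ‖tp (Λ k) (fun α => (HH g ν s₀ k (zc α))⁻¹) θ‖ ≤ c₁ * Real.exp (-c₂ * k)

open ZfX in
theorem zf2 (h1 : HB) (h2 : SU) (h3 : GG) (h4 : MC) {n : ℕ} {g : Rn n → ℝ} {ν : Measure (Rn n)}
    {s₀ : Rn n} {r₀ B : ℝ} {Λ : ℕ → Finset (Zn n)} (hg : Continuous g) (hfin : IsFiniteMeasure ν)
    (hpos : ν.IsOpenPosMeasure) (hr₀ : 0 < r₀) (hB : 0 < B) (hQ : Qd g s₀ r₀ B)
    (hΛ : ∀ (k : ℕ) (α : Zn n), (∃ C : ℝ, ∀ s, dotR (fun j => (α j : ℝ)) s - k * g s ≤ C) →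
      α ∈ Λ k) (hOrb : Orb2 g ν s₀ Λ) :
    ∃ r K : ℝ, 0 < r ∧ r ≤ r₀ ∧ ∃ᶠ k : ℕ in atTop, ∀ ζ ∈ ball (rc (grad g s₀)) r,
      Real.exp (-(K * k)) ≤ ‖HH g ν s₀ k ((k : ℂ) • ζ)‖ ∧
        ‖HH g ν s₀ k ((k : ℂ) • ζ)‖ ≤ Real.exp (K * k) := by
  obtain ⟨τ, γ, κ, L, C, hτ, hγ, hγ1, hκ, hL, hC, hMC⟩ := h4 n
  obtain ⟨hH, -⟩ := h1 n g ν s₀ r₀ B hg hfin hpos hr₀ hB hQ
  set δ : ℝ := min Real.pi (τ / (2 * n + 2)) with hδ
  have hδ0 : 0 < δ := lt_min Real.pi_pos (by positivity)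
  have hδπ : δ ≤ Real.pi := min_le_left _ _
  have hnδ : n * δ ≤ τ / 2 := by
    have h : δ ≤ τ / (2 * n + 2) := min_le_right _ _
    rw [le_div_iff₀ (by positivity)] at h
    nlinarith
  obtain ⟨c₁, c₂, hc₁, hc₂, hdec⟩ := hOrb δ hδ0
  have hlog : 0 ≤ Real.log L := Real.log_nonneg hL
  set r : ℝ := min (r₀ / 6) (min (τ / (12 * B)) (c₂ / (2 * (Real.log L + 3 * τ)))) with hr
  have hr0 : 0 < r := lt_min (by positivity) (lt_min (by positivity) (by positivity))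
  have hr1 : 6 * r ≤ r₀ := by
    have h : r ≤ r₀ / 6 := min_le_left _ _
    linarith
  have hr2 : 6 * B * r ≤ τ / 2 := by
    have h : r ≤ τ / (12 * B) := (min_le_right _ _).trans (min_le_left _ _)
    rw [le_div_iff₀ (by positivity)] at h
    linarith
  have hr3 : r * (Real.log L + 36 * B * r) ≤ c₂ / 2 := by
    have h : r ≤ c₂ / (2 * (Real.log L + 3 * τ)) := (min_le_right _ _).trans (min_le_right _ _)
    rw [le_div_iff₀ (by positivity)] at h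
    have h' : r * (36 * B * r) ≤ r * (3 * τ) := mul_le_mul_of_nonneg_left (by linarith) hr0.le
    nlinarith
  clear_value r δ
  set ε : ℝ := κ * r / 2 with hε
  have hε0 : 0 < ε := by positivity
  obtain ⟨D, hD, hsum⟩ := h2 n g ν s₀ hg hfin hpos ε hε0
  set N : ℝ := ν.real univ with hN
  have hN0 : 0 ≤ N := measureReal_nonneg
  set A₁ : ℝ := 1 + D * N * Real.exp (τ / 2) with hA₁
  have hA₁0 : 0 < A₁ := by positivity
  refine ⟨γ * r / 2, N + 36 * B * r ^ 2 + 2 * D + ε + τ * r, by positivity, by nlinarith, ?_⟩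
  refine hdec.mp ?_
  filter_upwards [ev_small (c₁ * N) (c₂ / 2) (by positivity),
    ev_small (C * A₁ * Real.exp κ) ε hε0, ev_large 1 r hr0,
    ev_large (1 / 2 + γ) (γ * r / 2) (by positivity), eventually_ge_atTop 1]
    with k hk1 hk2 hk3 hk4 hk hdk
  have hk0 : (0 : ℝ) < k := by exact_mod_cast hk
  obtain ⟨hdiff, hbd⟩ := hH k hk
  set m : ℕ := ⌊r * k⌋₊ with hm
  have hm1 : 1 ≤ m := Nat.le_floor (by simpa using hk3)
  have hmle : (m : ℝ) ≤ r * k := Nat.floor_le (by positivity)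
  have hmge : r * k - 1 ≤ (m : ℝ) := (Nat.sub_one_lt_floor _).le
  set j₀ : Zn n := fun j => round (((k : ℝ) • grad g s₀) j) with hj₀
  obtain ⟨G, hGd, hGb, hGi⟩ := h3 n (Λ k) (fun α => (HH g ν s₀ k (zc α))⁻¹) δ
    (D * Real.exp (ε * k)) (c₁ * Real.exp (-c₂ * k)) hδ0 hδπ (by positivity)
    (fun θ => (tp_le _ _ θ).trans (hsum k (Λ k))) hdk
  have hre : ∀ ζ : Cn n, ‖ζ - zc j₀‖ ≤ 5 * m →
      ‖reV ζ - (k : ℝ) • grad g s₀‖ < 6 * r * k := fun ζ hζ => by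
    have h := re_le ζ ((k : ℝ) • grad g s₀)
    linarith
  have hrk : 6 * r * k ≤ r₀ * k := mul_le_mul_of_nonneg_right hr1 hk0.le
  have hH1 : ∀ ζ : Cn n, ‖ζ - zc j₀‖ ≤ 5 * m →
      ‖HH g ν s₀ k ζ‖ ≤ N * Real.exp (6 * B * r * ‖reV ζ - (k : ℝ) • grad g s₀‖) := fun ζ hζ => by
    have h := hre ζ hζ
    refine (hbd ζ (h.le.trans hrk)).1.trans (mul_le_mul_of_nonneg_left ?_ hN0)
    refine Real.exp_le_exp.2 ?_
    rw [div_le_iff₀ hk0]
    have h0 := norm_nonneg (reV ζ - (k : ℝ) • grad g s₀)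
    have h' := mul_le_mul_of_nonneg_left h.le (mul_nonneg hB.le h0)
    linarith
  have hH2 : ∀ ζ : Cn n, ‖ζ - zc j₀‖ ≤ 5 * m →
      ‖HH g ν s₀ k ζ‖ ≤ N * Real.exp (36 * B * r ^ 2 * k) := fun ζ hζ => by
    refine (hH1 ζ hζ).trans (mul_le_mul_of_nonneg_left (Real.exp_le_exp.2 ?_) hN0)
    have h' := mul_le_mul_of_nonneg_left (hre ζ hζ).le (show 0 ≤ 6 * B * r by positivity)
    linarith
  have hH3 : ∀ ζ : Cn n, ‖ζ - zc j₀‖ ≤ 5 * m →
      ‖HH g ν s₀ k ζ‖ ≤ N * Real.exp (τ / 2 * (‖ζ - zc j₀‖ + 1)) := fun ζ hζ => by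
    refine (hH1 ζ hζ).trans (mul_le_mul_of_nonneg_left (Real.exp_le_exp.2 ?_) hN0)
    have h := re_le ζ ((k : ℝ) • grad g s₀)
    exact mul_le_mul hr2 (by linarith) (norm_nonneg _) (by positivity)
  have hG1 : ∀ ζ : Cn n, ‖G ζ‖ ≤ D * Real.exp (ε * k) * Real.exp (τ / 2 * ‖ζ - zc j₀‖) :=
    fun ζ => by
    refine (hGb ζ).trans (mul_le_mul_of_nonneg_left (Real.exp_le_exp.2 ?_) (by positivity))
    exact mul_le_mul hnδ (im_le ζ j₀) (norm_nonneg _) (by positivity)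
  have hball : ∀ ζ ∈ ball (zc j₀) (5 * (m : ℝ)), ‖ζ - zc j₀‖ ≤ 5 * m := fun ζ hζ => by
    rw [mem_ball, dist_eq_norm] at hζ
    exact hζ.le
  have hE := hMC m j₀ (fun ζ => G ζ * HH g ν s₀ k ζ - 1) (A₁ * Real.exp (ε * k))
    (c₁ * Real.exp (-c₂ * k) * (N * Real.exp (36 * B * r ^ 2 * k))) hm1 (by positivity)
    ((hGd.differentiableOn.mul (hdiff.mono fun ζ hζ =>
      (hre ζ (hball ζ hζ)).trans_le hrk)).sub_const 1)
    (fun ζ hζ => by
      have hz := hball ζ hζ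
      have e1 : (1 : ℝ) ≤ Real.exp (ε * k) := Real.one_le_exp (by positivity)
      have e2 : (1 : ℝ) ≤ Real.exp (τ * ‖ζ - zc j₀‖) := Real.one_le_exp (by positivity)
      have e3 : Real.exp (τ / 2 * ‖ζ - zc j₀‖) * Real.exp (τ / 2 * (‖ζ - zc j₀‖ + 1))
          = Real.exp (τ / 2) * Real.exp (τ * ‖ζ - zc j₀‖) := by
        rw [← Real.exp_add, ← Real.exp_add]
        congr 1
        ring
      have e4 : ‖G ζ * HH g ν s₀ k ζ‖ ≤ D * N * Real.exp (τ / 2)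
          * (Real.exp (ε * k) * Real.exp (τ * ‖ζ - zc j₀‖)) := by
        rw [norm_mul]
        refine (mul_le_mul (hG1 ζ) (hH3 ζ hz) (norm_nonneg _) (by positivity)).trans_eq ?_
        calc D * Real.exp (ε * k) * Real.exp (τ / 2 * ‖ζ - zc j₀‖)
              * (N * Real.exp (τ / 2 * (‖ζ - zc j₀‖ + 1)))
            = D * N * Real.exp (ε * k) * (Real.exp (τ / 2 * ‖ζ - zc j₀‖)
              * Real.exp (τ / 2 * (‖ζ - zc j₀‖ + 1))) := by ring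
          _ = _ := by rw [e3]; ring
      have e5 : (1 : ℝ) ≤ Real.exp (ε * k) * Real.exp (τ * ‖ζ - zc j₀‖) :=
        one_le_mul_of_one_le_of_one_le e1 e2
      calc ‖G ζ * HH g ν s₀ k ζ - 1‖ ≤ ‖G ζ * HH g ν s₀ k ζ‖ + ‖(1 : ℂ)‖ := norm_sub_le _ _
        _ ≤ D * N * Real.exp (τ / 2) * (Real.exp (ε * k) * Real.exp (τ * ‖ζ - zc j₀‖))
            + Real.exp (ε * k) * Real.exp (τ * ‖ζ - zc j₀‖) := by
          rw [norm_one]
          exact add_le_add e4 e5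
        _ = _ := by rw [hA₁]; ring)
    (fun β hβ => by
      have hz := hball _ hβ
      have hr' := (hre _ hz).le.trans hrk
      have hmem : β ∈ Λ k := hΛ k β (lattice hQ hk β hr')
      have hne : HH g ν s₀ k (zc β) ≠ 0 := (hbd _ hr').2 (by funext j; simp [imV, zc])
      have e : G (zc β) * HH g ν s₀ k (zc β) - 1
          = (G (zc β) - (HH g ν s₀ k (zc β))⁻¹) * HH g ν s₀ k (zc β) := by
        rw [sub_mul, inv_mul_cancel₀ hne]
      rw [e, norm_mul]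
      exact mul_le_mul (hGi β hmem) (hH2 _ hz) (norm_nonneg _) (by positivity))
  have hT1 : L ^ m * (c₁ * Real.exp (-c₂ * k) * (N * Real.exp (36 * B * r ^ 2 * k))) ≤ 1 / 4 := by
    refine le_trans ?_ hk1
    have e1 : L ^ m = Real.exp (m * Real.log L) := by
      rw [Real.exp_nat_mul, Real.exp_log (by linarith)]
    have e2 : L ^ m * (c₁ * Real.exp (-c₂ * k) * (N * Real.exp (36 * B * r ^ 2 * k)))
        = c₁ * N * Real.exp (m * Real.log L + (-c₂ * k + 36 * B * r ^ 2 * k)) := by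
      rw [e1, Real.exp_add, Real.exp_add]
      ring
    rw [e2]
    refine mul_le_mul_of_nonneg_left (Real.exp_le_exp.2 ?_) (by positivity)
    have e3 := mul_le_mul_of_nonneg_right hmle hlog
    have e4 := mul_le_mul_of_nonneg_right hr3 hk0.le
    linarith
  have hT2 : C * (A₁ * Real.exp (ε * k)) * Real.exp (-κ * m) ≤ 1 / 4 := by
    refine le_trans ?_ hk2
    have e2 : C * (A₁ * Real.exp (ε * k)) * Real.exp (-κ * m)
        = C * A₁ * Real.exp (ε * k + -κ * m) := by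
      rw [Real.exp_add]
      ring
    have e3 : C * A₁ * Real.exp κ * Real.exp (-ε * k) = C * A₁ * Real.exp (κ + -ε * k) := by
      rw [Real.exp_add]
      ring
    rw [e2, e3]
    refine mul_le_mul_of_nonneg_left (Real.exp_le_exp.2 ?_) (by positivity)
    have e4 := mul_le_mul_of_nonneg_left hmge hκ.le
    rw [hε]
    linarith
  intro ζ hζ
  rw [mem_ball, dist_eq_norm] at hζ
  have hz1 : ‖(k : ℂ) • ζ - zc j₀‖ ≤ γ * m := by
    have h := smul_le k ζ (grad g s₀)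
    have h' := mul_le_mul_of_nonneg_left hζ.le hk0.le
    have h'' := mul_le_mul_of_nonneg_left hmge hγ.le
    linarith
  have hm0 : (0 : ℝ) ≤ m := Nat.cast_nonneg m
  have hz2 : ‖(k : ℂ) • ζ - zc j₀‖ ≤ m := hz1.trans (mul_le_of_le_one_left hm0 hγ1)
  have hEζ := hE ((k : ℂ) • ζ) (by rwa [mem_closedBall, dist_eq_norm])
  have hhalf : 1 / 2 ≤ ‖G ((k : ℂ) • ζ)‖ * ‖HH g ν s₀ k ((k : ℂ) • ζ)‖ := by
    have h := norm_sub_norm_le (1 : ℂ) (G ((k : ℂ) • ζ) * HH g ν s₀ k ((k : ℂ) • ζ))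
    rw [norm_sub_rev, norm_one, norm_mul] at h
    linarith
  have p1 : 0 ≤ N * k := by positivity
  have p2 : 0 ≤ 36 * B * r ^ 2 * k := by positivity
  have p3 : 0 ≤ 2 * D * k := by positivity
  have p4 : 0 ≤ ε * k := by positivity
  have p5 : 0 ≤ τ * r * k := by positivity
  constructor
  · have e1 : 2 * ‖G ((k : ℂ) • ζ)‖
        ≤ Real.exp ((N + 36 * B * r ^ 2 + 2 * D + ε + τ * r) * k) := by
      have a1 := hG1 ((k : ℂ) • ζ)
      have a2 := le_exp_mul (2 * D) (by positivity) k hk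
      have a3 : Real.exp (τ / 2 * ‖(k : ℂ) • ζ - zc j₀‖) ≤ Real.exp (τ * r * k) := by
        refine Real.exp_le_exp.2 ?_
        have a4 := mul_le_mul_of_nonneg_left (hz2.trans hmle) hτ.le
        have a5 : 0 ≤ τ * ‖(k : ℂ) • ζ - zc j₀‖ := by positivity
        linarith
      calc 2 * ‖G ((k : ℂ) • ζ)‖
          ≤ 2 * D * (Real.exp (ε * k) * Real.exp (τ / 2 * ‖(k : ℂ) • ζ - zc j₀‖)) := by
            linarith
        _ ≤ Real.exp (2 * D * k) * (Real.exp (ε * k) * Real.exp (τ * r * k)) := by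
            refine mul_le_mul a2 ?_ (by positivity) (by positivity)
            exact mul_le_mul_of_nonneg_left a3 (by positivity)
        _ = Real.exp (2 * D * k + (ε * k + τ * r * k)) := by rw [Real.exp_add, Real.exp_add]
        _ ≤ _ := Real.exp_le_exp.2 (by linarith)
    rw [Real.exp_neg, inv_le_iff_one_le_mul₀ (Real.exp_pos _)]
    have e2 := mul_le_mul_of_nonneg_right e1 (norm_nonneg (HH g ν s₀ k ((k : ℂ) • ζ)))
    linarith
  · refine (hH2 _ (by linarith)).trans ?_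
    calc N * Real.exp (36 * B * r ^ 2 * k)
        ≤ Real.exp (N * k) * Real.exp (36 * B * r ^ 2 * k) :=
          mul_le_mul_of_nonneg_right (le_exp_mul N hN0 k hk) (Real.exp_pos _).le
      _ = Real.exp (N * k + 36 * B * r ^ 2 * k) := by rw [Real.exp_add]
      _ ≤ _ := Real.exp_le_exp.2 (by linarith)

open LgX in
theorem lg2 (h1 : HL) (h2 : AN) {n : ℕ} {η₀ : Rn n} {r K : ℝ} {f : ℕ → Cn n → ℂ} {Ψ : Rn n → ℝ}
    (hr : 0 < r)
    (hf : ∃ᶠ k : ℕ in atTop, DifferentiableOn ℂ (f k) (ball (rc η₀) r) ∧ ∀ ζ ∈ ball (rc η₀) r,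
      Real.exp (-(K * k)) ≤ ‖f k ζ‖ ∧ ‖f k ζ‖ ≤ Real.exp (K * k))
    (hΨ : ∀ η ∈ ball η₀ r, Tendsto (fun k : ℕ => Real.log ‖f k (rc η)‖ / k) atTop (𝓝 (Ψ η))) :
    AnalyticAt ℝ Ψ η₀ := by
  classical
  have hW : ∀ k : ℕ, ∃ w : Cn n → ℂ, (1 ≤ k ∧ DifferentiableOn ℂ (f k) (ball (rc η₀) r) ∧
      ∀ ζ ∈ ball (rc η₀) r, Real.exp (-(K * k)) ≤ ‖f k ζ‖ ∧ ‖f k ζ‖ ≤ Real.exp (K * k)) →
      DifferentiableOn ℂ w (ball (rc η₀) r) ∧ ∀ ζ ∈ ball (rc η₀) r,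
        Real.exp (-K) ≤ ‖w ζ‖ ∧ ‖w ζ‖ ≤ Real.exp K ∧ Real.log ‖w ζ‖ = Real.log ‖f k ζ‖ / k := by
    intro k
    by_cases h : 1 ≤ k ∧ DifferentiableOn ℂ (f k) (ball (rc η₀) r) ∧
      ∀ ζ ∈ ball (rc η₀) r, Real.exp (-(K * k)) ≤ ‖f k ζ‖ ∧ ‖f k ζ‖ ≤ Real.exp (K * k)
    · obtain ⟨w, hw⟩ := root (rc η₀) hr (f k) k h.1 h.2.1 h.2.2
      exact ⟨w, fun _ => hw⟩
    · exact ⟨0, fun h' => absurd h' h⟩
  choose W hW using hW
  obtain ⟨U, hU0⟩ := Ultrafilter.exists_le _ (h := frequently_iff_neBot.1 hf)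
  have hU : (U : Filter ℕ) ≤ atTop := hU0.trans inf_le_left
  have hU' := le_principal_iff.1 (hU0.trans inf_le_right)
  have hev : ∀ᶠ k in (U : Filter ℕ), DifferentiableOn ℂ (W k) (ball (rc η₀) r) ∧
      ∀ ζ ∈ ball (rc η₀) r, Real.exp (-K) ≤ ‖W k ζ‖ ∧ ‖W k ζ‖ ≤ Real.exp K ∧
        Real.log ‖W k ζ‖ = Real.log ‖f k ζ‖ / k := by
    filter_upwards [hU', hU (eventually_ge_atTop 1)] with k hk hk1
    exact hW k ⟨hk1, hk⟩
  have hlim : ∀ z : Cn n, ∃ y : ℂ, z ∈ ball (rc η₀) r →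
      Tendsto (fun k => W k z) (U : Filter ℕ) (𝓝 y) := by
    intro z
    by_cases hz : z ∈ ball (rc η₀) r
    · have hle : (↑(U.map fun k => W k z) : Filter ℂ) ≤ 𝓟 (closedBall (0 : ℂ) (Real.exp K)) := by
        rw [Ultrafilter.coe_map, le_principal_iff, Filter.mem_map]
        filter_upwards [hev] with k hk
        simpa using (hk.2 z hz).2.1
      obtain ⟨y, -, hy⟩ := (isCompact_closedBall (0 : ℂ) (Real.exp K)).ultrafilter_le_nhds _ hle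
      exact ⟨y, fun _ => hy⟩
    · exact ⟨0, fun h => absurd h hz⟩
  choose w hw using hlim
  have hd : DifferentiableOn ℂ w (ball (rc η₀) r) :=
    h1 n ℕ U _ W w (Real.exp K) inferInstance isOpen_ball
      (hev.mono fun k hk => ⟨hk.1, fun z hz => (hk.2 z hz).2.1⟩) hw
  have han := h2 n _ w isOpen_ball hd
  have hne : ∀ z ∈ ball (rc η₀) r, w z ≠ 0 := by
    intro z hz
    have : Real.exp (-K) ≤ ‖w z‖ :=
      ge_of_tendsto (hw z hz).norm (hev.mono fun k hk => (hk.2 z hz).1)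
    exact norm_pos_iff.mp ((Real.exp_pos _).trans_le this)
  have hc : rc η₀ ∈ ball (rc η₀) r := mem_ball_self hr
  refine (analytic_log_norm (han _ hc) (hne _ hc)).congr ?_
  filter_upwards [ball_mem_nhds η₀ hr] with η hη
  have hz := rc_mem hr hη
  have t1 : Tendsto (fun k => Real.log ‖W k (rc η)‖) (U : Filter ℕ)
      (𝓝 (Real.log ‖w (rc η)‖)) :=
    (hw _ hz).norm.log (norm_ne_zero_iff.mpr (hne _ hz))
  have t2 : Tendsto (fun k => Real.log ‖W k (rc η)‖) (U : Filter ℕ) (𝓝 (Ψ η)) :=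
    ((hΨ η hη).mono_left hU).congr' (hev.mono fun k hk => ((hk.2 _ hz).2.2).symm)
  exact tendsto_nhds_unique t1 t2

theorem core2 {n : ℕ} {g : Rn n → ℝ}
    {ν : Measure (Rn n)} {s₀ : Rn n} {Λ : ℕ → Finset (Zn n)} (hg : Cv g) (hν : IsFiniteMeasure ν)
    (hν' : ν.IsOpenPosMeasure)
    (hΛ : ∀ (k : ℕ) (α : Zn n), (∃ C : ℝ, ∀ s, dotR (fun j => (α j : ℝ)) s - k * g s ≤ C) →
      α ∈ Λ k) (ho : Orb2 g ν s₀ Λ) : AnalyticAt ℝ g s₀ := by
  obtain ⟨r₀, B, hr₀, hB, hq⟩ := (cv n g hg).2 s₀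
  obtain ⟨a1, a2⟩ := hb n g ν s₀ r₀ B hg.sm.continuous hν hν' hr₀ hB hq
  obtain ⟨r, K, hr, hrr, hz⟩ := zf2 hb su gg (mc c1) hg.sm.continuous hν hν' hr₀ hB hq hΛ ho
  refine le' cv n g s₀ hg (lg2 hl (an hl) (K := K) (f := fun k ζ => HH g ν s₀ k ((k : ℂ) • ζ)) hr ?_
    fun η hη => a2 η ((mem_ball_iff_norm.1 hη).le.trans hrr))
  refine hz.mp ?_
  filter_upwards [eventually_ge_atTop 1] with k hk1 hk
  refine ⟨(a1 k hk1).1.comp (by fun_prop) fun ζ hζ => ?_, hk⟩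
  have hk0 : (0 : ℝ) < k := by exact_mod_cast hk1
  change ‖reV ((k : ℂ) • ζ) - (k : ℝ) • grad g s₀‖ < r₀ * k
  rw [reV_smul_rc, ← smul_sub, norm_smul, Real.norm_of_nonneg hk0.le, mul_comm]
  exact mul_lt_mul_of_pos_right
    (((norm_reV_sub_le ζ _).trans_lt (mem_ball_iff_norm.1 hζ)).trans_le hrr) hk0

theorem toric2
    {n : ℕ} {M : Type} [TopologicalSpace M] [ChartedSpace (Cn n) M] [CompactSpace M]
    [MeasurableSpace M] [BorelSpace M] {ι : Type} {L : VectorBundleCore ℂ M ℂ ι} {h : ι → M → ℝ}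
    {μ : Measure M} {c : OpenPartialHomeomorph M (Cn n)} {i : ι} (hh : IsPosMetric n L h)
    (hμ : IsSmoothVol n μ) (hc : IsToricChart n L h μ c i) {d : M → M → ℝ}
    (hd : Continuous (Function.uncurry d)) (hd0 : ∀ x y, x ≠ y → 0 < d x y)
    (hdec : ∀ δ : ℝ, 0 < δ → ∃ c₁ c₂ : ℝ, 0 < c₁ ∧ 0 < c₂ ∧ ∃ᶠ k : ℕ in atTop,
      ∀ (N : ℕ) (s : Fin N → ι → M → ℂ), IsOnb n L h μ k N s → ∀ z w : M, δ < d z w →
        bergmanNorm L h k N s z w ≤ c₁ * Real.exp (-c₂ * k)) :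
    ∀ z ∈ c.target, AnalyticAt ℝ (fun y => h i (c.symm y)) z := by
  intro z hz
  obtain ⟨a1, -, a3⟩ := w1 n M ι L h μ c i hh hc
  obtain ⟨-, -, b3, b4, -⟩ := w2 n M μ c hμ hc.mem hc.target
  choose Λ N s hs hΛ hker using w3 w1 w2 n M ι L h μ c i hh hμ hc
  refine a3 z hz (core2 a1 b3 b4 hΛ fun δ hδ => ?_)
  have hmem : ∀ θ, pt (lg z) θ ∈ c.target := fun θ => by rw [hc.target]; exact pt_ne _ θ
  have hcont : Continuous fun θ : Rn n => d (c.symm (pt (lg z) θ)) (c.symm (pt (lg z) 0)) := by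
    have : Continuous fun θ : Rn n => c.symm (pt (lg z) θ) :=
      c.continuousOn_symm.comp_continuous (by unfold pt; fun_prop) hmem
    exact hd.comp (this.prodMk continuous_const)
  have hK : IsCompact (closedBall (0 : Rn n) Real.pi ∩ {θ | δ ≤ ‖θ‖}) :=
    (isCompact_closedBall _ _).inter_right (isClosed_le continuous_const continuous_norm)
  obtain ⟨δ', hδ', hb⟩ := hK.exists_forall_le' hcont.continuousOn (a := 0) fun θ hθ => by
    refine hd0 _ _ fun e => pt_ne_pt (lg z) (mem_closedBall_zero_iff.1 hθ.1) (fun h0 => ?_)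
      (c.symm.injOn (hmem θ) (hmem 0) e)
    have : δ ≤ ‖θ‖ := hθ.2
    rw [h0, norm_zero] at this
    linarith
  obtain ⟨c₁, c₂, p1, p2, hc'⟩ := hdec (δ' / 2) (by positivity)
  refine ⟨c₁, c₂, p1, p2, hc'.mono fun k hk θ t1 t2 => ?_⟩
  rw [← hker k]
  refine hk _ _ (hs k) _ _ ?_
  linarith [hb θ ⟨mem_closedBall_zero_iff.2 t1, t2⟩]

end Pool.Agent.MP_6c43ae_an.Tr
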