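import Mathlib
import Pool.Agent.MP_6c43ae_an.tr.Spec

/-! Project TORIC: a local theorem of Carlson type in one variable, by interpolation at the
integers and the maximum principle. -/

set_option autoImplicit false

open Metric

namespace Pool.Agent.MP_6c43ae_an.Tr

namespace C1X

/-- dividing out finitely many zeros -/
lemma factor {U : Set ℂ} (hU : IsOpen U) {F : ℂ → ℂ} (hF : DifferentiableOn ℂ F U) (x : ℕ → ℂ)
    (hx : Function.Injective x) (s : Finset ℕ) (hs : ∀ i ∈ s, x i ∈ U ∧ F (x i) = 0) :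
    ∃ g : ℂ → ℂ, DifferentiableOn ℂ g U ∧ ∀ z, F z = (∏ i ∈ s, (z - x i)) * g z := by
  induction s using Finset.induction_on with
  | empty => exact ⟨F, hF, fun z => by simp⟩
  | insert a s ha ih =>
    obtain ⟨g, h1, h2⟩ := ih fun i hi => hs i (Finset.mem_insert_of_mem hi)
    obtain ⟨h3, h4⟩ := hs a (Finset.mem_insert_self _ _)
    have h5 : g (x a) = 0 := by
      rw [h2] at h4
      refine (mul_eq_zero.1 h4).resolve_left (Finset.prod_ne_zero_iff.2 fun i hi => ?_)
      exact sub_ne_zero.2 fun e => ha (hx e ▸ hi)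
    refine ⟨dslope g (x a), (Complex.differentiableOn_dslope (hU.mem_nhds h3)).2 h1, fun z => ?_⟩
    have h6 := sub_smul_dslope g (x a) z
    rw [h5, sub_zero, smul_eq_mul] at h6
    rw [Finset.prod_insert ha, h2 z, ← h6]
    ring

lemma prod_erase (a b : ℕ) :
    ∏ l ∈ (Finset.range (a + b + 1)).erase a, ‖(a : ℂ) - l‖ = a.factorial * b.factorial := by
  induction b with
  | zero =>
    rw [add_zero, Finset.range_add_one, Finset.erase_insert Finset.notMem_range_self,
      Nat.factorial_zero, Nat.cast_one, mul_one, ← Nat.descFactorial_self,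
      Nat.descFactorial_eq_prod_range, Nat.cast_prod]
    refine Finset.prod_congr rfl fun l hl => ?_
    rw [← Nat.cast_sub (Finset.mem_range.1 hl).le, Complex.norm_natCast]
  | succ b ih =>
    rw [← add_assoc, Finset.range_add_one, Finset.erase_insert_of_ne (by omega),
      Finset.prod_insert (by simp), ih, Nat.factorial_succ, norm_sub_rev,
      ← Nat.cast_sub (by omega), Complex.norm_natCast, show a + b + 1 - a = b + 1 by omega]
    push_cast
    ring

lemma weight {m i : ℕ} (hi : i ∈ Finset.range (2 * m + 1)) :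
    (m : ℝ) ^ (2 * m) / ∏ l ∈ (Finset.range (2 * m + 1)).erase i, ‖(i : ℂ) - l‖ ≤
      Real.exp 1 ^ (2 * m) := by
  obtain ⟨b, hb⟩ : ∃ b, 2 * m = i + b := ⟨2 * m - i, by have := Finset.mem_range.1 hi; omega⟩
  have h1 := Real.pow_div_factorial_le_exp (m : ℝ) m.cast_nonneg i
  have h2 := Real.pow_div_factorial_le_exp (m : ℝ) m.cast_nonneg b
  have h3 : Real.exp 1 ^ (2 * m) = Real.exp m * Real.exp m := by
    rw [← Real.exp_nat_mul, ← Real.exp_add]
    congr 1
    push_cast
    ring
  rw [h3, hb, prod_erase, pow_add, mul_div_mul_comm]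
  exact mul_le_mul h1 h2 (by positivity) (by positivity)

end C1X

open C1X in
theorem c1 : C1 := by
  refine ⟨6 * (5 * Real.exp 1) ^ 2, by nlinarith [Real.add_one_le_exp 1], ?_⟩
  intro m j₀ E M₀ M₁ hm hE h1 h0 ζ hζ
  have m0 : (0 : ℝ) < m := by exact_mod_cast hm
  set s := Finset.range (2 * m + 1) with hs
  let x : ℕ → ℂ := fun i => (j₀ : ℂ) - m + i
  have hx : Function.Injective x := fun a b e => by simpa [x] using e
  have hxs : ∀ a b, x a - x b = (a : ℂ) - b := fun a b => by simp only [x]; ring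
  have hab : ∀ i ∈ s, |(j₀ - m + i) - j₀| ≤ (m : ℤ) := fun i hi => by
    have := Finset.mem_range.1 hi
    rw [abs_le]
    omega
  have hx0 : ∀ i ∈ s, ‖E (x i)‖ ≤ M₀ := fun i hi => by
    simpa [x] using h0 _ (hab i hi)
  have hxm : ∀ i ∈ s, ‖x i - j₀‖ ≤ m := fun i hi => by
    have e : x i - j₀ = (((j₀ - m + i) - j₀ : ℤ) : ℂ) := by simp [x]
    rw [e, Complex.norm_intCast]
    exact_mod_cast hab i hi
  have M0 : 0 ≤ M₀ := (norm_nonneg _).trans (hx0 0 (by simp [hs]))
  have M1 : 0 ≤ M₁ := (norm_nonneg _).trans (h1 _ (mem_closedBall_self (by positivity)))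
  let Q : ℂ → ℂ := fun z => ∑ i ∈ s, E (x i) * ∏ l ∈ s.erase i, (z - x l) / (x i - x l)
  have hQ : Differentiable ℂ Q := by
    refine Differentiable.fun_sum fun i _ => Differentiable.const_mul ?_ _
    exact Differentiable.fun_finsetProd fun l _ => by fun_prop
  have hQx : ∀ i ∈ s, Q (x i) = E (x i) := fun i hi => by
    simp only [Q]
    rw [Finset.sum_eq_single_of_mem i hi, Finset.prod_eq_one, mul_one]
    · exact fun l hl => div_self (sub_ne_zero.2 fun e => (Finset.mem_erase.1 hl).1 (hx e).symm)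
    · intro k _ hk
      rw [Finset.prod_eq_zero (Finset.mem_erase.2 ⟨hk.symm, hi⟩) (by simp), mul_zero]
  set K : ℝ := (2 * m + 1) * (M₀ * (5 * Real.exp 1) ^ (2 * m)) with hK
  have up : ∀ (t : Finset ℕ) (w : ℂ) (r : ℝ), t ⊆ s → w ∈ closedBall (j₀ : ℂ) r →
      ∏ l ∈ t, ‖w - x l‖ ≤ (r + m) ^ t.card := fun t w r ht hw => by
    rw [← Finset.prod_const]
    refine Finset.prod_le_prod (fun _ _ => norm_nonneg _) fun l hl => ?_
    have h2 := norm_sub_le_norm_sub_add_norm_sub w j₀ (x l)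
    have h3 := hxm l (ht hl)
    rw [norm_sub_rev] at h3
    linarith [mem_closedBall_iff_norm.1 hw]
  have hc : s.card = 2 * m + 1 := Finset.card_range _
  have hQb : ∀ w ∈ closedBall (j₀ : ℂ) (4 * m), ‖Q w‖ ≤ K := fun w hw => by
    refine (norm_sum_le _ _).trans ((Finset.sum_le_card_nsmul _ _
      (M₀ * (5 * Real.exp 1) ^ (2 * m)) fun i hi => ?_).trans (le_of_eq (by simp [hs, hK])))
    rw [norm_mul]
    refine mul_le_mul (hx0 i hi) ?_ (norm_nonneg _) M0
    simp only [norm_prod, norm_div, Finset.prod_div_distrib, hxs]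
    have h2 := up _ w _ (Finset.erase_subset i s) hw
    rw [Finset.card_erase_of_mem hi, hc, Nat.add_sub_cancel,
      show (4 : ℝ) * m + m = 5 * m by ring] at h2
    calc _ ≤ (5 * m) ^ (2 * m) / ∏ l ∈ s.erase i, ‖(i : ℂ) - l‖ := by gcongr
      _ ≤ _ := by
        rw [mul_pow, mul_pow, mul_div_assoc]
        exact mul_le_mul_of_nonneg_left (weight hi) (by positivity)
  obtain ⟨g, hg, hF⟩ := factor (F := fun z => E z - Q z) isOpen_ball (hE.sub hQ.differentiableOn)
    x hx s fun i hi => ⟨mem_ball_iff_norm.2 (by linarith [hxm i hi]), sub_eq_zero.2 (hQx i hi).symm⟩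
  have K0 : 0 ≤ K := by positivity
  have hz : ζ ∈ closedBall (j₀ : ℂ) (4 * m) := closedBall_subset_closedBall (by linarith) hζ
  have r0 : (4 : ℝ) * m ≠ 0 := by positivity
  have hgb : ‖g ζ‖ ≤ (M₁ + K) / (3 * m) ^ (2 * m + 1) := by
    refine Complex.norm_le_of_forall_mem_frontier_norm_le (U := ball (j₀ : ℂ) (4 * m))
      isBounded_ball (hg.diffContOnCl_ball (closedBall_subset_ball (by linarith))) (fun w hw => ?_)
      (by rwa [closure_ball _ r0])
    rw [frontier_ball _ r0] at hw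
    have h2 : (3 * m : ℝ) ^ (2 * m + 1) ≤ ∏ l ∈ s, ‖w - x l‖ := by
      rw [← hc, ← Finset.prod_const]
      refine Finset.prod_le_prod (fun _ _ => by positivity) fun l hl => ?_
      have h2 := norm_sub_le_norm_sub_add_norm_sub w (x l) j₀
      linarith [hxm l hl, mem_sphere_iff_norm.1 hw]
    have h3 := norm_sub_le (E w) (Q w)
    rw [hF w, norm_mul, norm_prod] at h3
    rw [le_div_iff₀ (by positivity)]
    have h4 := mul_le_mul_of_nonneg_left h2 (norm_nonneg (g w))
    linarith [h1 w (sphere_subset_closedBall hw), hQb w (sphere_subset_closedBall hw)]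
  have h2 : ‖E ζ - Q ζ‖ ≤ (M₁ + K) / 4 ^ m := by
    rw [hF ζ, norm_mul, norm_prod]
    refine (mul_le_mul (up s ζ _ subset_rfl hζ) hgb (norm_nonneg _) (by positivity)).trans ?_
    rw [hc, show (3 : ℝ) * m = (m / 2 + m) * 2 by ring, mul_pow, mul_div_assoc',
      mul_div_mul_left _ _ (by positivity), pow_succ, pow_mul, show (2 : ℝ) ^ 2 = 4 by norm_num]
    gcongr
    linarith [pow_pos (show (0 : ℝ) < 4 by norm_num) m]
  have h3 : K / 4 ^ m ≤ K := div_le_self K0 (one_le_pow₀ (by norm_num))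
  have h4 : (2 : ℝ) * (2 * m + 1) ≤ 6 ^ m := by
    have := one_add_mul_le_pow (show (-2 : ℝ) ≤ 5 by norm_num) m
    have h5 : (1 : ℝ) ≤ m := by exact_mod_cast hm
    norm_num at this
    linarith
  have h5 : 2 * K ≤ (6 * (5 * Real.exp 1) ^ 2) ^ m * M₀ := by
    rw [mul_pow 6, ← pow_mul, hK]
    nlinarith [mul_le_mul_of_nonneg_right h4
      (show 0 ≤ M₀ * (5 * Real.exp 1) ^ (2 * m) by positivity)]
  have h6 := norm_le_norm_add_norm_sub' (E ζ) (Q ζ)
  rw [add_div] at h2
  linarith [hQb ζ hz]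

end Pool.Agent.MP_6c43ae_an.Tr
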