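import Mathlib
import Pool.Agent.MP_6c43ae_an.tr.Spec

/-! Project TORIC, row ZF: the Laplace transform has no zeros near the real point. -/

set_option autoImplicit false

open MeasureTheory Set Filter Topology Metric

namespace Pool.Agent.MP_6c43ae_an.Tr

namespace ZfX

variable {n : ℕ}

theorem tp_le (Λ : Finset (Zn n)) (a : Zn n → ℂ) (θ : Rn n) : ‖tp Λ a θ‖ ≤ ∑ α ∈ Λ, ‖a α‖ := by
  unfold tp
  refine (norm_sum_le _ _).trans (Finset.sum_le_sum fun α _ => ?_)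
  have h : (∑ j, (α j : ℂ) * (θ j : ℂ)) = ((∑ j, (α j : ℝ) * θ j : ℝ) : ℂ) := by push_cast; rfl
  rw [norm_mul, h, mul_comm Complex.I, Complex.norm_exp_ofReal_mul_I, mul_one]

theorem im_le (ζ : Cn n) (j₀ : Zn n) : ‖imV ζ‖ ≤ ‖ζ - zc j₀‖ := by
  refine (pi_norm_le_iff_of_nonneg (norm_nonneg _)).2 fun j => ?_
  have h : imV ζ j = ((ζ - zc j₀) j).im := by simp [imV, zc]
  rw [h, Real.norm_eq_abs]
  exact (Complex.abs_im_le_norm _).trans (norm_le_pi_norm _ j)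

theorem re_le (ζ : Cn n) (x : Rn n) :
    ‖reV ζ - x‖ ≤ ‖ζ - zc (fun j => round (x j))‖ + 1 / 2 := by
  refine (pi_norm_le_iff_of_nonneg (by positivity)).2 fun j => ?_
  have h : (reV ζ - x) j = ((ζ - zc (fun j => round (x j))) j).re - (x j - round (x j)) := by
    simp [reV, zc]
  rw [h, Real.norm_eq_abs]
  refine (abs_sub _ _).trans (add_le_add ?_ (abs_sub_round _))
  exact (Complex.abs_re_le_norm _).trans (norm_le_pi_norm _ j)

theorem smul_le (k : ℕ) (ζ : Cn n) (η : Rn n) :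
    ‖(k : ℂ) • ζ - zc (fun j => round (((k : ℝ) • η) j))‖ ≤ k * ‖ζ - rc η‖ + 1 / 2 := by
  refine (pi_norm_le_iff_of_nonneg (by positivity)).2 fun j => ?_
  have h : ((k : ℂ) • ζ - zc (fun j => round (((k : ℝ) • η) j))) j
      = (k : ℂ) * (ζ - rc η) j + ((((k : ℝ) • η) j - round (((k : ℝ) • η) j) : ℝ) : ℂ) := by
    simp only [Pi.sub_apply, Pi.smul_apply, smul_eq_mul, zc, rc]
    push_cast
    ring
  rw [h]
  refine (norm_add_le _ _).trans (add_le_add ?_ ?_)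
  · rw [norm_mul, Complex.norm_natCast]
    exact mul_le_mul_of_nonneg_left (norm_le_pi_norm _ j) (Nat.cast_nonneg k)
  · rw [Complex.norm_real, Real.norm_eq_abs]
    exact abs_sub_round _

theorem lattice {g : Rn n → ℝ} {s₀ : Rn n} {r₀ B : ℝ} (hQ : Qd g s₀ r₀ B) {k : ℕ} (hk : 1 ≤ k)
    (β : Zn n) (hβ : ‖reV (zc β) - (k : ℝ) • grad g s₀‖ ≤ r₀ * k) :
    ∃ C : ℝ, ∀ s, dotR (fun j => (β j : ℝ)) s - k * g s ≤ C := by
  have hk0 : (0 : ℝ) < k := by exact_mod_cast hk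
  set η : Rn n := fun j => (β j : ℝ) / k with hη
  have h1 : reV (zc β) - (k : ℝ) • grad g s₀ = (k : ℝ) • (η - grad g s₀) := by
    funext j
    simp only [Pi.sub_apply, Pi.smul_apply, smul_eq_mul, reV, zc, hη, Complex.intCast_re]
    field_simp
  have h2 : ‖η - grad g s₀‖ ≤ r₀ := by
    rw [h1, norm_smul, Real.norm_eq_abs, abs_of_pos hk0, mul_comm] at hβ
    exact le_of_mul_le_mul_right hβ hk0
  refine ⟨k * (B * ‖η - grad g s₀‖ ^ 2) + dotR (fun j => (β j : ℝ)) s₀ - k * g s₀, fun s => ?_⟩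
  have h3 := mul_le_mul_of_nonneg_left (hQ η h2 s) hk0.le
  have h4 : (k : ℝ) * dotR η (s - s₀)
      = dotR (fun j => (β j : ℝ)) s - dotR (fun j => (β j : ℝ)) s₀ := by
    unfold dotR
    rw [Finset.mul_sum, ← Finset.sum_sub_distrib]
    refine Finset.sum_congr rfl fun j _ => ?_
    simp only [hη, Pi.sub_apply]
    field_simp
  nlinarith [h3, h4]

theorem ev_small (a c : ℝ) (hc : 0 < c) : ∀ᶠ k : ℕ in atTop, a * Real.exp (-c * k) ≤ 1 / 4 := by
  have h1 : Tendsto (fun k : ℕ => c * (k : ℝ)) atTop atTop :=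
    tendsto_natCast_atTop_atTop.const_mul_atTop hc
  have h2 : Tendsto (fun k : ℕ => a * Real.exp (-(c * (k : ℝ)))) atTop (𝓝 (a * 0)) :=
    (Real.tendsto_exp_neg_atTop_nhds_zero.comp h1).const_mul a
  rw [mul_zero] at h2
  filter_upwards [h2.eventually (ge_mem_nhds (show (0 : ℝ) < 1 / 4 by norm_num))] with k hk
  rwa [neg_mul]

theorem ev_large (a c : ℝ) (hc : 0 < c) : ∀ᶠ k : ℕ in atTop, a ≤ c * k :=
  (tendsto_natCast_atTop_atTop.const_mul_atTop hc).eventually_ge_atTop a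

theorem le_exp_mul (x : ℝ) (hx : 0 ≤ x) (k : ℕ) (hk : 1 ≤ k) : x ≤ Real.exp (x * k) := by
  have hk1 : (1 : ℝ) ≤ k := by exact_mod_cast hk
  have h := Real.add_one_le_exp (x * k)
  nlinarith

end ZfX

open ZfX in
theorem zf (h1 : HB) (h2 : SU) (h3 : GG) (h4 : MC) : ZF := by
  intro n g ν s₀ r₀ B Λ hg hfin hpos hr₀ hB hQ hΛ hOrb
  obtain ⟨τ, γ, κ, L, C, hτ, hγ, hγ1, hκ, hL, hC, hMC⟩ := h4 n
  obtain ⟨hH, -⟩ := h1 n g ν s₀ r₀ B hg hfin hpos hr₀ hB hQ
  set δ : ℝ := min Real.pi (τ / (2 * n + 2)) with hδ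
  have hδ0 : 0 < δ := lt_min Real.pi_pos (by positivity)
  have hδπ : δ ≤ Real.pi := min_le_left _ _
  have hnδ : n * δ ≤ τ / 2 := by
    have h : δ ≤ τ / (2 * n + 2) := min_le_right _ _
    rw [le_div_iff₀ (by positivity)] at h
    nlinarith
  obtain ⟨c₁, c₂, hc₁, hc₂, hdec⟩ := hOrb δ hδ0
  have hlog : 0 ≤ Real.log L := Real.log_nonneg hL
  set r : ℝ := min (r₀ / 6) (min (τ / (12 * B)) (c₂ / (2 * (Real.log L + 3 * τ)))) with hr
  have hr0 : 0 < r := lt_min (by positivity) (lt_min (by positivity) (by positivity))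
  have hr1 : 6 * r ≤ r₀ := by
    have h : r ≤ r₀ / 6 := min_le_left _ _
    linarith
  have hr2 : 6 * B * r ≤ τ / 2 := by
    have h : r ≤ τ / (12 * B) := (min_le_right _ _).trans (min_le_left _ _)
    rw [le_div_iff₀ (by positivity)] at h
    linarith
  have hr3 : r * (Real.log L + 36 * B * r) ≤ c₂ / 2 := by
    have h : r ≤ c₂ / (2 * (Real.log L + 3 * τ)) := (min_le_right _ _).trans (min_le_right _ _)
    rw [le_div_iff₀ (by positivity)] at h
    have h' : r * (36 * B * r) ≤ r * (3 * τ) := mul_le_mul_of_nonneg_left (by linarith) hr0.le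
    nlinarith
  clear_value r δ
  set ε : ℝ := κ * r / 2 with hε
  have hε0 : 0 < ε := by positivity
  obtain ⟨D, hD, hsum⟩ := h2 n g ν s₀ hg hfin hpos ε hε0
  set N : ℝ := ν.real univ with hN
  have hN0 : 0 ≤ N := measureReal_nonneg
  set A₁ : ℝ := 1 + D * N * Real.exp (τ / 2) with hA₁
  have hA₁0 : 0 < A₁ := by positivity
  refine ⟨γ * r / 2, N + 36 * B * r ^ 2 + 2 * D + ε + τ * r, by positivity, by nlinarith, ?_⟩
  filter_upwards [ev_small (c₁ * N) (c₂ / 2) (by positivity),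
    ev_small (C * A₁ * Real.exp κ) ε hε0, ev_large 1 r hr0,
    ev_large (1 / 2 + γ) (γ * r / 2) (by positivity), eventually_ge_atTop 1] with k hk1 hk2 hk3 hk4 hk
  have hk0 : (0 : ℝ) < k := by exact_mod_cast hk
  obtain ⟨hdiff, hbd⟩ := hH k hk
  set m : ℕ := ⌊r * k⌋₊ with hm
  have hm1 : 1 ≤ m := Nat.le_floor (by simpa using hk3)
  have hmle : (m : ℝ) ≤ r * k := Nat.floor_le (by positivity)
  have hmge : r * k - 1 ≤ (m : ℝ) := (Nat.sub_one_lt_floor _).le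
  set j₀ : Zn n := fun j => round (((k : ℝ) • grad g s₀) j) with hj₀
  obtain ⟨G, hGd, hGb, hGi⟩ := h3 n (Λ k) (fun α => (HH g ν s₀ k (zc α))⁻¹) δ
    (D * Real.exp (ε * k)) (c₁ * Real.exp (-c₂ * k)) hδ0 hδπ (by positivity)
    (fun θ => (tp_le _ _ θ).trans (hsum k (Λ k))) (fun θ h h' => hdec k hk θ h h')
  have hre : ∀ ζ : Cn n, ‖ζ - zc j₀‖ ≤ 5 * m →
      ‖reV ζ - (k : ℝ) • grad g s₀‖ < 6 * r * k := fun ζ hζ => by
    have h := re_le ζ ((k : ℝ) • grad g s₀)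
    linarith
  have hrk : 6 * r * k ≤ r₀ * k := mul_le_mul_of_nonneg_right hr1 hk0.le
  have hH1 : ∀ ζ : Cn n, ‖ζ - zc j₀‖ ≤ 5 * m →
      ‖HH g ν s₀ k ζ‖ ≤ N * Real.exp (6 * B * r * ‖reV ζ - (k : ℝ) • grad g s₀‖) := fun ζ hζ => by
    have h := hre ζ hζ
    refine (hbd ζ (h.le.trans hrk)).1.trans (mul_le_mul_of_nonneg_left ?_ hN0)
    refine Real.exp_le_exp.2 ?_
    rw [div_le_iff₀ hk0]
    have h0 := norm_nonneg (reV ζ - (k : ℝ) • grad g s₀)
    have h' := mul_le_mul_of_nonneg_left h.le (mul_nonneg hB.le h0)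
    linarith
  have hH2 : ∀ ζ : Cn n, ‖ζ - zc j₀‖ ≤ 5 * m →
      ‖HH g ν s₀ k ζ‖ ≤ N * Real.exp (36 * B * r ^ 2 * k) := fun ζ hζ => by
    refine (hH1 ζ hζ).trans (mul_le_mul_of_nonneg_left (Real.exp_le_exp.2 ?_) hN0)
    have h' := mul_le_mul_of_nonneg_left (hre ζ hζ).le (show 0 ≤ 6 * B * r by positivity)
    linarith
  have hH3 : ∀ ζ : Cn n, ‖ζ - zc j₀‖ ≤ 5 * m →
      ‖HH g ν s₀ k ζ‖ ≤ N * Real.exp (τ / 2 * (‖ζ - zc j₀‖ + 1)) := fun ζ hζ => by
    refine (hH1 ζ hζ).trans (mul_le_mul_of_nonneg_left (Real.exp_le_exp.2 ?_) hN0)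
    have h := re_le ζ ((k : ℝ) • grad g s₀)
    exact mul_le_mul hr2 (by linarith) (norm_nonneg _) (by positivity)
  have hG1 : ∀ ζ : Cn n, ‖G ζ‖ ≤ D * Real.exp (ε * k) * Real.exp (τ / 2 * ‖ζ - zc j₀‖) :=
    fun ζ => by
    refine (hGb ζ).trans (mul_le_mul_of_nonneg_left (Real.exp_le_exp.2 ?_) (by positivity))
    exact mul_le_mul hnδ (im_le ζ j₀) (norm_nonneg _) (by positivity)
  have hball : ∀ ζ ∈ ball (zc j₀) (5 * (m : ℝ)), ‖ζ - zc j₀‖ ≤ 5 * m := fun ζ hζ => by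
    rw [mem_ball, dist_eq_norm] at hζ
    exact hζ.le
  have hE := hMC m j₀ (fun ζ => G ζ * HH g ν s₀ k ζ - 1) (A₁ * Real.exp (ε * k))
    (c₁ * Real.exp (-c₂ * k) * (N * Real.exp (36 * B * r ^ 2 * k))) hm1 (by positivity)
    ((hGd.differentiableOn.mul (hdiff.mono fun ζ hζ =>
      (hre ζ (hball ζ hζ)).trans_le hrk)).sub_const 1)
    (fun ζ hζ => by
      have hz := hball ζ hζ
      have e1 : (1 : ℝ) ≤ Real.exp (ε * k) := Real.one_le_exp (by positivity)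
      have e2 : (1 : ℝ) ≤ Real.exp (τ * ‖ζ - zc j₀‖) := Real.one_le_exp (by positivity)
      have e3 : Real.exp (τ / 2 * ‖ζ - zc j₀‖) * Real.exp (τ / 2 * (‖ζ - zc j₀‖ + 1))
          = Real.exp (τ / 2) * Real.exp (τ * ‖ζ - zc j₀‖) := by
        rw [← Real.exp_add, ← Real.exp_add]
        congr 1
        ring
      have e4 : ‖G ζ * HH g ν s₀ k ζ‖ ≤ D * N * Real.exp (τ / 2)
          * (Real.exp (ε * k) * Real.exp (τ * ‖ζ - zc j₀‖)) := by
        rw [norm_mul]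
        refine (mul_le_mul (hG1 ζ) (hH3 ζ hz) (norm_nonneg _) (by positivity)).trans_eq ?_
        calc D * Real.exp (ε * k) * Real.exp (τ / 2 * ‖ζ - zc j₀‖)
              * (N * Real.exp (τ / 2 * (‖ζ - zc j₀‖ + 1)))
            = D * N * Real.exp (ε * k) * (Real.exp (τ / 2 * ‖ζ - zc j₀‖)
              * Real.exp (τ / 2 * (‖ζ - zc j₀‖ + 1))) := by ring
          _ = _ := by rw [e3]; ring
      have e5 : (1 : ℝ) ≤ Real.exp (ε * k) * Real.exp (τ * ‖ζ - zc j₀‖) :=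
        one_le_mul_of_one_le_of_one_le e1 e2
      calc ‖G ζ * HH g ν s₀ k ζ - 1‖ ≤ ‖G ζ * HH g ν s₀ k ζ‖ + ‖(1 : ℂ)‖ := norm_sub_le _ _
        _ ≤ D * N * Real.exp (τ / 2) * (Real.exp (ε * k) * Real.exp (τ * ‖ζ - zc j₀‖))
            + Real.exp (ε * k) * Real.exp (τ * ‖ζ - zc j₀‖) := by
          rw [norm_one]
          exact add_le_add e4 e5
        _ = _ := by rw [hA₁]; ring)
    (fun β hβ => by
      have hz := hball _ hβ
      have hr' := (hre _ hz).le.trans hrk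
      have hmem : β ∈ Λ k := hΛ k β (lattice hQ hk β hr')
      have hne : HH g ν s₀ k (zc β) ≠ 0 := (hbd _ hr').2 (by funext j; simp [imV, zc])
      have e : G (zc β) * HH g ν s₀ k (zc β) - 1
          = (G (zc β) - (HH g ν s₀ k (zc β))⁻¹) * HH g ν s₀ k (zc β) := by
        rw [sub_mul, inv_mul_cancel₀ hne]
      rw [e, norm_mul]
      exact mul_le_mul (hGi β hmem) (hH2 _ hz) (norm_nonneg _) (by positivity))
  have hT1 : L ^ m * (c₁ * Real.exp (-c₂ * k) * (N * Real.exp (36 * B * r ^ 2 * k))) ≤ 1 / 4 := by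
    refine le_trans ?_ hk1
    have e1 : L ^ m = Real.exp (m * Real.log L) := by
      rw [Real.exp_nat_mul, Real.exp_log (by linarith)]
    have e2 : L ^ m * (c₁ * Real.exp (-c₂ * k) * (N * Real.exp (36 * B * r ^ 2 * k)))
        = c₁ * N * Real.exp (m * Real.log L + (-c₂ * k + 36 * B * r ^ 2 * k)) := by
      rw [e1, Real.exp_add, Real.exp_add]
      ring
    rw [e2]
    refine mul_le_mul_of_nonneg_left (Real.exp_le_exp.2 ?_) (by positivity)
    have e3 := mul_le_mul_of_nonneg_right hmle hlog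
    have e4 := mul_le_mul_of_nonneg_right hr3 hk0.le
    linarith
  have hT2 : C * (A₁ * Real.exp (ε * k)) * Real.exp (-κ * m) ≤ 1 / 4 := by
    refine le_trans ?_ hk2
    have e2 : C * (A₁ * Real.exp (ε * k)) * Real.exp (-κ * m)
        = C * A₁ * Real.exp (ε * k + -κ * m) := by
      rw [Real.exp_add]
      ring
    have e3 : C * A₁ * Real.exp κ * Real.exp (-ε * k) = C * A₁ * Real.exp (κ + -ε * k) := by
      rw [Real.exp_add]
      ring
    rw [e2, e3]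
    refine mul_le_mul_of_nonneg_left (Real.exp_le_exp.2 ?_) (by positivity)
    have e4 := mul_le_mul_of_nonneg_left hmge hκ.le
    rw [hε]
    linarith
  intro ζ hζ
  rw [mem_ball, dist_eq_norm] at hζ
  have hz1 : ‖(k : ℂ) • ζ - zc j₀‖ ≤ γ * m := by
    have h := smul_le k ζ (grad g s₀)
    have h' := mul_le_mul_of_nonneg_left hζ.le hk0.le
    have h'' := mul_le_mul_of_nonneg_left hmge hγ.le
    linarith
  have hm0 : (0 : ℝ) ≤ m := Nat.cast_nonneg m
  have hz2 : ‖(k : ℂ) • ζ - zc j₀‖ ≤ m := hz1.trans (mul_le_of_le_one_left hm0 hγ1)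
  have hEζ := hE ((k : ℂ) • ζ) (by rwa [mem_closedBall, dist_eq_norm])
  have hhalf : 1 / 2 ≤ ‖G ((k : ℂ) • ζ)‖ * ‖HH g ν s₀ k ((k : ℂ) • ζ)‖ := by
    have h := norm_sub_norm_le (1 : ℂ) (G ((k : ℂ) • ζ) * HH g ν s₀ k ((k : ℂ) • ζ))
    rw [norm_sub_rev, norm_one, norm_mul] at h
    linarith
  have p1 : 0 ≤ N * k := by positivity
  have p2 : 0 ≤ 36 * B * r ^ 2 * k := by positivity
  have p3 : 0 ≤ 2 * D * k := by positivity
  have p4 : 0 ≤ ε * k := by positivity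
  have p5 : 0 ≤ τ * r * k := by positivity
  constructor
  · have e1 : 2 * ‖G ((k : ℂ) • ζ)‖
        ≤ Real.exp ((N + 36 * B * r ^ 2 + 2 * D + ε + τ * r) * k) := by
      have a1 := hG1 ((k : ℂ) • ζ)
      have a2 := le_exp_mul (2 * D) (by positivity) k hk
      have a3 : Real.exp (τ / 2 * ‖(k : ℂ) • ζ - zc j₀‖) ≤ Real.exp (τ * r * k) := by
        refine Real.exp_le_exp.2 ?_
        have a4 := mul_le_mul_of_nonneg_left (hz2.trans hmle) hτ.le
        have a5 : 0 ≤ τ * ‖(k : ℂ) • ζ - zc j₀‖ := by positivity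
        linarith
      calc 2 * ‖G ((k : ℂ) • ζ)‖
          ≤ 2 * D * (Real.exp (ε * k) * Real.exp (τ / 2 * ‖(k : ℂ) • ζ - zc j₀‖)) := by
            linarith
        _ ≤ Real.exp (2 * D * k) * (Real.exp (ε * k) * Real.exp (τ * r * k)) := by
            refine mul_le_mul a2 ?_ (by positivity) (by positivity)
            exact mul_le_mul_of_nonneg_left a3 (by positivity)
        _ = Real.exp (2 * D * k + (ε * k + τ * r * k)) := by rw [Real.exp_add, Real.exp_add]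
        _ ≤ _ := Real.exp_le_exp.2 (by linarith)
    rw [Real.exp_neg, inv_le_iff_one_le_mul₀ (Real.exp_pos _)]
    have e2 := mul_le_mul_of_nonneg_right e1 (norm_nonneg (HH g ν s₀ k ((k : ℂ) • ζ)))
    linarith
  · refine (hH2 _ (by linarith)).trans ?_
    calc N * Real.exp (36 * B * r ^ 2 * k)
        ≤ Real.exp (N * k) * Real.exp (36 * B * r ^ 2 * k) :=
          mul_le_mul_of_nonneg_right (le_exp_mul N hN0 k hk) (Real.exp_pos _).le
      _ = Real.exp (N * k + 36 * B * r ^ 2 * k) := by rw [Real.exp_add]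
      _ ≤ _ := Real.exp_le_exp.2 (by linarith)

end Pool.Agent.MP_6c43ae_an.Tr
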